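import Mathlib

/-!
# Extending partial injections

MODULE PX (Mathlib only).

`exists_even_perm`. Proof. The map `τ` restricted to `D` is injective, so `D` and `τ '' D` have the
same cardinality; hence there is a permutation `ρ` of `Fin n` which agrees with `τ` on `D` (for
example through `Equiv.ofInjective`/`Equiv.Set.image` and `Equiv.extendSubtype`:
`e : {i // i ∈ D} ≃ {j // j ∈ D.image τ}`, `e.extendSubtype`, `Equiv.extendSubtype_apply_of_mem`).
If `sign ρ = 1` we are done. Otherwise choose two different points `x y ∉ D`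
(`2 ≤ (univ \ D).card`, `Finset.one_lt_card`) and take `σ = ρ * Equiv.swap x y`: its sign is
`(-1) * (-1) = 1` (`Equiv.Perm.sign_swap`, `Int.units_eq_one_or`), and it agrees with `ρ` on `D`
(`Equiv.swap_apply_of_ne_of_ne`).

`exists_extend`. Proof. Induction on `A' \ A` (`Finset.induction_on'` or induction on the number of
elements): if `f` is injective on `B`, `A ⊆ B ⊆ A'` and `i ∈ A'`, `i ∉ B`, then there is `y : M` with
`y ∉ f '' B`: if `M` is infinite because `f '' B` is finite (`Set.Finite.exists_notMem` or
`Infinite.exists_notMem_finset`); otherwise because `(f '' B).ncard = B.card < A'.card ≤ Nat.card M`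
(`M` is finite because `0 < Nat.card M`; `Nat.card_pos_iff`). Take `Function.update f i y`.

`exists_bij`. Proof. Let `N = Nat.card M`; `A.card ≤ N` because `e` is injective on `A`
(`Set.ncard_image_of_injOn`, `Set.ncard_le_ncard`, `Set.ncard_univ`). Choose `W` with `A ⊆ W` and
`W.card = N` (`Finset.exists_subsuperset_card_eq`, `Finset.subset_univ`). By `exists_extend` there is
`f` equal to `e` on `A` and injective on `W`. Then `f '' W` has `N` elements, so it is everything
(`Set.eq_of_subset_of_ncard_le` or `Finset.eq_univ_of_card`).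
-/

set_option autoImplicit false

namespace Pool.H93.SY

private theorem exists_perm_agree {n : ℕ} (D : Finset (Fin n)) (τ : Fin n → Fin n)
    (hτ : Set.InjOn τ D) : ∃ ρ : Equiv.Perm (Fin n), ∀ i ∈ D, ρ i = τ i := by
  classical
  let g : {i // i ∈ D} → {j // j ∈ D.image τ} :=
    fun i => ⟨τ i.1, Finset.mem_image_of_mem τ i.2⟩
  have hg : Function.Bijective g := by
    refine ⟨?_, ?_⟩
    · intro a b hab
      have h1 : τ a.1 = τ b.1 := congrArg Subtype.val hab
      exact Subtype.ext (hτ a.2 b.2 h1)
    · rintro ⟨j, hj⟩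
      obtain ⟨i, hi, hij⟩ := Finset.mem_image.1 hj
      exact ⟨⟨i, hi⟩, Subtype.ext hij⟩
  let e : {i // i ∈ D} ≃ {j // j ∈ D.image τ} := Equiv.ofBijective g hg
  refine ⟨e.extendSubtype, ?_⟩
  intro i hi
  rw [Equiv.extendSubtype_apply_of_mem e i hi]
  rfl

theorem exists_even_perm {n : ℕ} (D : Finset (Fin n)) (τ : Fin n → Fin n) (hτ : Set.InjOn τ D)
    (hD : D.card + 2 ≤ n) :
    ∃ σ : Equiv.Perm (Fin n), Equiv.Perm.sign σ = 1 ∧ ∀ i ∈ D, σ i = τ i := by
  classical
  obtain ⟨ρ, hρ⟩ := exists_perm_agree D τ hτ
  rcases Int.units_eq_one_or (Equiv.Perm.sign ρ) with h | h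
  · exact ⟨ρ, h, hρ⟩
  · have hc : 1 < (Finset.univ \ D).card := by
      have h1 : (Finset.univ \ D).card = n - D.card := by
        rw [Finset.card_sdiff_of_subset (Finset.subset_univ D), Finset.card_univ, Fintype.card_fin]
      omega
    obtain ⟨x, hx, y, hy, hxy⟩ := Finset.one_lt_card.1 hc
    have hx' : x ∉ D := (Finset.mem_sdiff.1 hx).2
    have hy' : y ∉ D := (Finset.mem_sdiff.1 hy).2
    refine ⟨ρ * Equiv.swap x y, ?_, ?_⟩
    · rw [Equiv.Perm.sign_mul, h, Equiv.Perm.sign_swap hxy]
      decide
    · intro i hi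
      have h1 : i ≠ x := fun h => hx' (h ▸ hi)
      have h2 : i ≠ y := fun h => hy' (h ▸ hi)
      rw [Equiv.Perm.mul_apply, Equiv.swap_apply_of_ne_of_ne h1 h2]
      exact hρ i hi

theorem exists_extend {n : ℕ} {M : Type} (A A' : Finset (Fin n)) (hA : A ⊆ A') (e : Fin n → M)
    (he : Set.InjOn e A) (hM : Infinite M ∨ A'.card ≤ Nat.card M) :
    ∃ f : Fin n → M, (∀ i ∈ A, f i = e i) ∧ Set.InjOn f A' := by
  classical
  have key : ∀ k : ℕ, ∀ B : Finset (Fin n), A ⊆ B → B ⊆ A' → (A' \ B).card = k →
      ∀ f : Fin n → M, (∀ i ∈ A, f i = e i) → Set.InjOn f B →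
      ∃ f : Fin n → M, (∀ i ∈ A, f i = e i) ∧ Set.InjOn f A' := by
    intro k
    induction k with
    | zero =>
      intro B hAB hBA hk f hf hinj
      have h1 : A' \ B = ∅ := Finset.card_eq_zero.1 hk
      have h2 : A' ⊆ B := Finset.sdiff_eq_empty_iff_subset.1 h1
      exact ⟨f, hf, hinj.mono (fun i hi => h2 hi)⟩
    | succ k ih =>
      intro B hAB hBA hk f hf hinj
      have h1 : (A' \ B).Nonempty := by
        rw [← Finset.card_pos]; omega
      obtain ⟨i, hi⟩ := h1
      have hiA : i ∈ A' := (Finset.mem_sdiff.1 hi).1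
      have hiB : i ∉ B := (Finset.mem_sdiff.1 hi).2
      have h2 : ∃ y : M, y ∉ B.image f := by
        rcases hM with hM | hM
        · exact Infinite.exists_notMem_finset (B.image f)
        · have hlt : B.card < A'.card :=
            Finset.card_lt_card ⟨hBA, fun h => hiB (h hiA)⟩
          have hpos : 0 < Nat.card M := by omega
          haveI : Finite M := (Nat.card_pos_iff.1 hpos).2
          haveI : Fintype M := Fintype.ofFinite M
          by_contra hcon
          push Not at hcon
          have h3 : (Finset.univ : Finset M) ⊆ B.image f := fun y _ => hcon y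
          have h4 := Finset.card_le_card h3
          have h5 := Finset.card_image_le (s := B) (f := f)
          rw [Finset.card_univ, ← Nat.card_eq_fintype_card] at h4
          omega
      obtain ⟨y, hy⟩ := h2
      refine ih (insert i B) (fun j hj => Finset.mem_insert_of_mem (hAB hj)) ?_ ?_
        (Function.update f i y) ?_ ?_
      · intro j hj
        rcases Finset.mem_insert.1 hj with rfl | hj
        · exact hiA
        · exact hBA hj
      · have h3 : A' \ insert i B = (A' \ B).erase i := by
          ext j
          simp only [Finset.mem_sdiff, Finset.mem_insert, Finset.mem_erase, not_or]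
          tauto
        rw [h3, Finset.card_erase_of_mem hi, hk]
        rfl
      · intro j hj
        have hji : j ≠ i := fun h => hiB (h ▸ hAB hj)
        rw [Function.update_of_ne hji]
        exact hf j hj
      · have hupd : ∀ j ∈ B, Function.update f i y j = f j := by
          intro j hj
          have hji : j ≠ i := fun h => hiB (h ▸ hj)
          exact Function.update_of_ne hji y f
        intro a ha b hb hab
        have ha' : a = i ∨ a ∈ B := Finset.mem_insert.1 ha
        have hb' : b = i ∨ b ∈ B := Finset.mem_insert.1 hb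
        rcases ha' with ha' | ha' <;> rcases hb' with hb' | hb'
        · rw [ha', hb']
        · rw [ha', Function.update_self, hupd b hb'] at hab
          exact absurd (hab ▸ Finset.mem_image_of_mem f hb') hy
        · rw [hb', Function.update_self, hupd a ha'] at hab
          exact absurd (hab ▸ Finset.mem_image_of_mem f ha') hy
        · rw [hupd a ha', hupd b hb'] at hab
          exact hinj ha' hb' hab
  exact key _ A (Finset.Subset.refl A) hA rfl e (fun i _ => rfl) he

theorem exists_bij {n : ℕ} {M : Type} [Finite M] (A : Finset (Fin n)) (e : Fin n → M)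
    (he : Set.InjOn e A) (hM : Nat.card M ≤ n) :
    ∃ (W : Finset (Fin n)) (f : Fin n → M), A ⊆ W ∧ W.card = Nat.card M ∧
      (∀ i ∈ A, f i = e i) ∧ Set.BijOn f W Set.univ := by
  classical
  haveI : Fintype M := Fintype.ofFinite M
  have h1 : A.card ≤ Nat.card M := by
    rw [Nat.card_eq_fintype_card, ← Finset.card_image_of_injOn he]
    exact Finset.card_le_univ _
  obtain ⟨W, hAW, -, hW⟩ := Finset.exists_subsuperset_card_eq (Finset.subset_univ A) h1
    (by rw [Finset.card_univ, Fintype.card_fin]; exact hM)
  obtain ⟨f, hf, hinj⟩ := exists_extend A W hAW e he (Or.inr hW.le)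
  refine ⟨W, f, hAW, hW, hf, fun _ _ => Set.mem_univ _, hinj, ?_⟩
  intro y _
  have h2 : (W.image f).card = Fintype.card M := by
    rw [Finset.card_image_of_injOn hinj, hW, Nat.card_eq_fintype_card]
  have h3 : W.image f = Finset.univ := Finset.eq_univ_of_card _ h2
  have h4 : y ∈ W.image f := h3 ▸ Finset.mem_univ y
  obtain ⟨i, hi, hiy⟩ := Finset.mem_image.1 h4
  exact ⟨i, hi, hiy⟩

end Pool.H93.SY
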