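import Pool.Agent.H93.SY.Transfer

/-!
# The nodes representing a first-order formula have the value of the formula in the model

MODULE RP.

`qd φ` is the quantifier depth, `pts v` the set of the points of `Fin n` among the values of `v`
(at most `j`: `pts_card`; it is contained in the image of a subset of `Fin j`).
`tv_mem`, `tv_realize`: by cases on the term (`Term.realize_var`, `Sum.elim`, function symbols do not
exist: `isEmptyElim`).

`rep_val`. Proof by induction on `φ` (`induction φ with | falsum | equal | rel | imp | all`), for all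
`v`, `x`, `e`, with the hypothesis `j + qd φ ≤ r` (`j` the number of free variables of `φ`). Let
`E f = Sum.map id f : Fin s ⊕ Fin n → Fin s ⊕ M`, `g = x.node`. `hnode : (supp n a).card ≤ k`.
- `falsum`: `x.pos = false`, the gate is `and ∅`, so `C.val M g e` holds (`val_and`), `C.tr M x e` is
  false.
- `equal t₁ t₂`: the gate is `and ∅`, so `C.val M g e` holds and `C.tr M x e ↔ x.pos = true ↔
  tv v t₁ = tv v t₂ ↔ E e (tv v t₁) = E e (tv v t₂)`: `e` is injective on `pts v`, and
  `tv v t` is a value of `v` (`tv_mem`; cases `Sum.inl`, `Sum.inr`). `tv_realize`.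
- `rel R ts`: `val_var`; `BoundedFormula.realize_rel`; `tv_realize`.
- `imp φ θ`: the gate of `g` is `and {y, z.neg}`, `x.pos = false`, `C.tr M x e ↔ ¬ C.val M g e`. Put
  `A' = supp n g ∪ pts v`, `A'.card ≤ k + j`. By `val_and_iff`, `C.val M g e` iff for `w = y` and
  `w = z.neg` and all `f = e` on `A'`, injective on `A' ∪ supp n w.node`, `C.tr M w f`. By the
  induction hypotheses `C.tr M y f ↔ φ.Realize default (E f ∘ v)` and `E f ∘ v = E e ∘ v`
  (`f` is injective on `supp n y.node ∪ pts v`), and the same for `z` (`tr_neg`). At least one such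
  `f` exists for `w = y`, and one for `w = z.neg` (`exists_extend` and `hbig`:
  `(A' ∪ supp n w.node).card ≤ 2 k + r`). So `C.val M g e ↔ φ ∧ ¬ θ`.
- `all φ`: the gate of `g` is `and S`, for every `b : Fin s ⊕ Fin n` some `h b ∈ S` represents `φ`
  under `Fin.snoc v b`, and every member of `S` represents `φ` under some `Fin.snoc v b`. One uses
  `val_and_iff` with `A' = supp n g ∪ pts v` and extensions of `e` (`exists_extend`).
-/

set_option autoImplicit false

namespace Pool.H93.SY

open scoped Pointwise
open FirstOrder.Language

variable {L : FirstOrder.Language.{0, 0}} [L.IsRelational] {m s n : ℕ} {C : Circuit L m s n}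
  {M : Type} [L.Structure (Fin s ⊕ M)]

/-- Quantifier depth. -/
def qd : ∀ {j : ℕ}, L.BoundedFormula Empty j → ℕ
  | _, .falsum => 0
  | _, .equal _ _ => 0
  | _, .rel _ _ => 0
  | _, .imp φ θ => max (qd φ) (qd θ)
  | _, .all φ => qd φ + 1

/-- The points of `Fin n` among the values of `v`. -/
def pts {s n j : ℕ} (v : Fin j → Fin s ⊕ Fin n) : Finset (Fin n) :=
  Finset.univ.filter fun p => ∃ i, v i = Sum.inr p

theorem mem_pts {s n j : ℕ} {v : Fin j → Fin s ⊕ Fin n} {p : Fin n} :
    p ∈ pts v ↔ ∃ i, v i = Sum.inr p := by
  simp [pts]

theorem pts_card {s n j : ℕ} (v : Fin j → Fin s ⊕ Fin n) : (pts v).card ≤ j := by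
  classical
  have h1 : pts v ⊆ (Finset.univ : Finset (Fin j)).biUnion
      (fun i => Sum.elim (fun _ => (∅ : Finset (Fin n))) (fun p => {p}) (v i)) := by
    intro p hp
    obtain ⟨i, hi⟩ := mem_pts.1 hp
    rw [Finset.mem_biUnion]
    refine ⟨i, Finset.mem_univ i, ?_⟩
    rw [hi]
    exact Finset.mem_singleton_self p
  refine (Finset.card_le_card h1).trans (Finset.card_biUnion_le.trans ?_)
  have h2 : ∀ i ∈ (Finset.univ : Finset (Fin j)),
      (Sum.elim (fun _ => (∅ : Finset (Fin n))) (fun p => {p}) (v i)).card ≤ 1 := by
    intro i _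
    cases v i with
    | inl t => simp
    | inr p => simp
  refine (Finset.sum_le_sum h2).trans ?_
  simp

theorem mem_pts_snoc {s n j : ℕ} {v : Fin j → Fin s ⊕ Fin n} {b : Fin s ⊕ Fin n} {p : Fin n} :
    p ∈ pts (Fin.snoc v b : Fin (j + 1) → Fin s ⊕ Fin n) ↔ p ∈ pts v ∨ b = Sum.inr p := by
  rw [mem_pts, mem_pts]
  constructor
  · rintro ⟨i, hi⟩
    revert hi
    refine Fin.lastCases ?_ (fun i => ?_) i
    · intro hi
      rw [Fin.snoc_last] at hi
      exact Or.inr hi
    · intro hi
      rw [Fin.snoc_castSucc] at hi
      exact Or.inl ⟨i, hi⟩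
  · rintro (⟨i, hi⟩ | h)
    · refine ⟨i.castSucc, ?_⟩
      rw [Fin.snoc_castSucc]
      exact hi
    · refine ⟨Fin.last j, ?_⟩
      rw [Fin.snoc_last]
      exact h

theorem tv_mem {P : Type} {j : ℕ} (v : Fin j → P) (t : L.Term (Empty ⊕ Fin j)) :
    ∃ i, tv v t = v i := by
  cases t with
  | var a =>
    cases a with
    | inl e => exact e.elim
    | inr i => exact ⟨i, rfl⟩
  | func f _ => exact isEmptyElim f

theorem tv_realize {P Q : Type} [L.Structure Q] {j : ℕ} (v : Fin j → P) (e : P → Q)
    (t : L.Term (Empty ⊕ Fin j)) : t.realize (Sum.elim default (e ∘ v)) = e (tv v t) := by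
  cases t with
  | var a =>
    cases a with
    | inl e => exact e.elim
    | inr i => rfl
  | func f _ => exact isEmptyElim f

theorem snoc_comp {P Q : Type} {j : ℕ} (v : Fin j → P) (b : P) (f : P → Q) :
    f ∘ (Fin.snoc v b : Fin (j + 1) → P) = (Fin.snoc (f ∘ v) (f b) : Fin (j + 1) → Q) := by
  funext i
  refine Fin.lastCases ?_ (fun i => ?_) i
  · simp
  · simp

private theorem comp_eq {s n j : ℕ} {M : Type} {v : Fin j → Fin s ⊕ Fin n} {e f : Fin n → M}
    (h : ∀ i ∈ pts v, f i = e i) : (Sum.map id f ∘ v : Fin j → Fin s ⊕ M) = Sum.map id e ∘ v := by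
  funext i
  show Sum.map id f (v i) = Sum.map id e (v i)
  cases hv : v i with
  | inl t => rfl
  | inr p =>
    show (Sum.inr (f p) : Fin s ⊕ M) = Sum.inr (e p)
    rw [h p (mem_pts.2 ⟨i, hv⟩)]

theorem rep_val {k r : ℕ} (hnode : ∀ a : C.N, (supp n a).card ≤ k) (hn : 3 * k + r + 4 ≤ n)
    (hbig : Big M (2 * k + r + 1)) {j : ℕ} (φ : L.BoundedFormula Empty j) (hr : j + qd φ ≤ r)
    (v : Fin j → Fin s ⊕ Fin n) (x : Lit C.N) (hx : C.Rep φ v x) (e : Fin n → M)
    (he : Set.InjOn e (supp n x.node ∪ pts v : Finset (Fin n))) :
    C.tr M x e ↔ φ.Realize (default : Empty → Fin s ⊕ M) (Sum.map id e ∘ v) := by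
  classical
  have hcong : ∀ (y : Lit C.N) (f f' : Fin n → M), (∀ i ∈ supp n y.node, f i = f' i) →
      (C.tr M y f ↔ C.tr M y f') := by
    intro y f f' h
    exact tr_congr (by have := hnode y.node; omega) h
  have hext : ∀ (A A' : Finset (Fin n)), A ⊆ A' → A'.card ≤ 2 * k + r + 1 → ∀ f : Fin n → M,
      Set.InjOn f A → ∃ g : Fin n → M, (∀ i ∈ A, g i = f i) ∧ Set.InjOn g A' := by
    intro A A' hA hc f hf
    exact exists_extend A A' hA f hf (hbig.imp id fun h => hc.trans h)
  induction φ generalizing x e with
  | falsum =>
    obtain ⟨h1, h2⟩ := hx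
    have hv : C.val M x.node e := (val_and C M h2 e).2 (fun y hy => absurd hy (Set.notMem_empty y))
    unfold Circuit.tr
    rw [h1]
    constructor
    · intro h
      exact absurd (h.1 hv) (by simp)
    · intro h
      exact h.elim
  | equal t₁ t₂ =>
    obtain ⟨h1, h2⟩ := hx
    have hv : C.val M x.node e := (val_and C M h2 e).2 (fun y hy => absurd hy (Set.notMem_empty y))
    have h3 : C.tr M x e ↔ tv v t₁ = tv v t₂ := by
      unfold Circuit.tr
      rw [← h1]
      exact ⟨fun h => h.1 hv, fun h => ⟨fun _ => h, fun _ => hv⟩⟩
    rw [h3]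
    show _ ↔ t₁.realize (Sum.elim default (Sum.map id e ∘ v)) =
      t₂.realize (Sum.elim default (Sum.map id e ∘ v))
    rw [tv_realize, tv_realize]
    constructor
    · intro h
      rw [h]
    · intro h
      obtain ⟨i₁, hi₁⟩ := tv_mem v t₁
      obtain ⟨i₂, hi₂⟩ := tv_mem v t₂
      rw [hi₁, hi₂] at h ⊢
      cases hv₁ : v i₁ with
      | inl a₁ =>
        cases hv₂ : v i₂ with
        | inl a₂ =>
          rw [hv₁, hv₂] at h
          have h4 : (Sum.inl a₁ : Fin s ⊕ M) = Sum.inl a₂ := h
          injection h4 with h5
          rw [h5]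
        | inr p₂ =>
          rw [hv₁, hv₂] at h
          have h4 : (Sum.inl a₁ : Fin s ⊕ M) = Sum.inr (e p₂) := h
          cases h4
      | inr p₁ =>
        cases hv₂ : v i₂ with
        | inl a₂ =>
          rw [hv₁, hv₂] at h
          have h4 : (Sum.inr (e p₁) : Fin s ⊕ M) = Sum.inl a₂ := h
          cases h4
        | inr p₂ =>
          rw [hv₁, hv₂] at h
          have h4 : (Sum.inr (e p₁) : Fin s ⊕ M) = Sum.inr (e p₂) := h
          injection h4 with h5
          have h6 := he (Finset.mem_coe.2 (Finset.mem_union_right _ (mem_pts.2 ⟨i₁, hv₁⟩)))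
            (Finset.mem_coe.2 (Finset.mem_union_right _ (mem_pts.2 ⟨i₂, hv₂⟩))) h5
          rw [h6]
  | rel R ts =>
    obtain ⟨h1, h2⟩ := hx
    unfold Circuit.tr
    rw [val_var C M h2, h1]
    show _ ↔ Structure.RelMap R (fun i => (ts i).realize (Sum.elim default (Sum.map id e ∘ v)))
    have h3 : (fun i => (ts i).realize (Sum.elim default (Sum.map id e ∘ v))) =
        fun i => (Sum.map id e (tv v (ts i)) : Fin s ⊕ M) := by
      funext i
      rw [tv_realize]
    rw [h3]
    simp
  | @imp j φ θ ih1 ih2 =>
    obtain ⟨h1, y, z, hy, hz, h2⟩ := hx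
    have hq : qd (φ.imp θ) = max (qd φ) (qd θ) := rfl
    rw [hq] at hr
    have hj := pts_card v
    set A' := supp n x.node ∪ pts v with hA'
    have hAc : A'.card ≤ k + j :=
      (Finset.card_union_le _ _).trans (Nat.add_le_add (hnode _) hj)
    have hAn : A'.card + k + 3 ≤ n := by omega
    have hval := val_and_iff hnode h2 (A' := A') Finset.subset_union_left hAn he
    have hy' : ∀ f : Fin n → M, (∀ i ∈ A', f i = e i) →
        Set.InjOn f (A' ∪ supp n y.node : Finset (Fin n)) →
        (C.tr M y f ↔ φ.Realize default (Sum.map id e ∘ v)) := by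
      intro f hf hi
      have h9 : C.tr M y f ↔ φ.Realize default (Sum.map id f ∘ v) :=
        ih1 (by omega) v y hy f (hi.mono (by
          rw [Finset.coe_subset]
          exact Finset.union_subset Finset.subset_union_right
            (Finset.subset_union_right.trans Finset.subset_union_left)))
      rw [h9, comp_eq (fun i hi' => hf i (Finset.mem_union_right _ hi'))]
    have hz' : ∀ f : Fin n → M, (∀ i ∈ A', f i = e i) →
        Set.InjOn f (A' ∪ supp n z.node : Finset (Fin n)) →
        (C.tr M z f ↔ θ.Realize default (Sum.map id e ∘ v)) := by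
      intro f hf hi
      have h9 : C.tr M z f ↔ θ.Realize default (Sum.map id f ∘ v) :=
        ih2 (by omega) v z hz f (hi.mono (by
          rw [Finset.coe_subset]
          exact Finset.union_subset Finset.subset_union_right
            (Finset.subset_union_right.trans Finset.subset_union_left)))
      rw [h9, comp_eq (fun i hi' => hf i (Finset.mem_union_right _ hi'))]
    have hcy : ∀ w : C.N, (A' ∪ supp n w).card ≤ 2 * k + r + 1 := by
      intro w
      have h3 := Finset.card_union_le A' (supp n w)
      have h4 := hnode w
      omega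
    have h5 : C.tr M x e ↔ ¬ C.val M x.node e := by
      unfold Circuit.tr
      rw [h1]
      simp
    rw [h5, hval]
    show _ ↔ (φ.Realize default (Sum.map id e ∘ v) → θ.Realize default (Sum.map id e ∘ v))
    constructor
    · intro h h6
      by_contra h7
      apply h
      intro w hw f hf hi
      rcases hw with rfl | rfl
      · exact (hy' f hf hi).2 h6
      · exact tr_neg.2 (fun h8 => h7 ((hz' f hf hi).1 h8))
    · intro h h6
      obtain ⟨f, hf, hfi⟩ := hext A' (A' ∪ supp n y.node) Finset.subset_union_left (hcy _) e he
      have h7 := h ((hy' f hf hfi).1 (h6 y (Set.mem_insert _ _) f hf hfi))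
      obtain ⟨g, hg, hgi⟩ := hext A' (A' ∪ supp n z.node) Finset.subset_union_left (hcy _) e he
      have h8 := h6 z.neg (Set.mem_insert_of_mem _ rfl) g hg hgi
      exact (tr_neg.1 h8) ((hz' g hg hgi).2 h7)
  | @all j φ ih =>
    obtain ⟨h1, S, h2, hS1, hS2⟩ := hx
    choose h hhS hh using hS1
    have hq : qd φ.all = qd φ + 1 := rfl
    rw [hq] at hr
    have hj := pts_card v
    set A' := supp n x.node ∪ pts v with hA'
    have hAc : A'.card ≤ k + j :=
      (Finset.card_union_le _ _).trans (Nat.add_le_add (hnode _) hj)
    have hAn : A'.card + k + 3 ≤ n := by omega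
    have hval := val_and_iff hnode h2 (A' := A') Finset.subset_union_left hAn he
    have h5 : C.tr M x e ↔ C.val M x.node e := by
      unfold Circuit.tr
      rw [h1]
      simp
    -- the value of a child, when the point `b` is in the domain
    have key' : ∀ (b : Fin s ⊕ Fin n) (w : Lit C.N), C.Rep φ (Fin.snoc v b) w →
        ∀ (f : Fin n → M), (∀ i ∈ A', f i = e i) →
        Set.InjOn f (A' ∪ supp n w.node : Finset (Fin n)) →
        (∀ p, b = Sum.inr p → Set.InjOn f (insert p (A' ∪ supp n w.node) : Finset (Fin n))) →
        (C.tr M w f ↔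
          φ.Realize default (Fin.snoc (Sum.map id e ∘ v) (Sum.map id f b) : Fin (j + 1) → _)) := by
      intro b w hw f hf hi hi2
      have h6 : Set.InjOn f (supp n w.node ∪ pts (Fin.snoc v b : Fin (j + 1) → _) :
          Finset (Fin n)) := by
        cases b with
        | inl t =>
          refine hi.mono ?_
          rw [Finset.coe_subset]
          refine Finset.union_subset Finset.subset_union_right ?_
          intro p hp
          rcases mem_pts_snoc.1 hp with h7 | h7
          · exact Finset.mem_union_left _ (Finset.mem_union_right _ h7)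
          · cases h7
        | inr q =>
          refine (hi2 q rfl).mono ?_
          rw [Finset.coe_subset]
          refine Finset.union_subset (Finset.subset_union_right.trans (Finset.subset_insert _ _)) ?_
          intro p hp
          rcases mem_pts_snoc.1 hp with h7 | h7
          · exact Finset.mem_insert_of_mem (Finset.mem_union_left _ (Finset.mem_union_right _ h7))
          · injection h7 with h8
            rw [h8]
            exact Finset.mem_insert_self _ _
      have h9 : C.tr M w f ↔ φ.Realize default
          (Sum.map id f ∘ (Fin.snoc v b : Fin (j + 1) → Fin s ⊕ Fin n)) :=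
        ih (by omega) (Fin.snoc v b) w hw f h6
      rw [h9, snoc_comp, comp_eq (fun i hi' => hf i (Finset.mem_union_right _ hi'))]
    have key : ∀ (b : Fin s ⊕ Fin n) (f : Fin n → M), (∀ i ∈ A', f i = e i) →
        Set.InjOn f (A' ∪ supp n (h b).node : Finset (Fin n)) →
        (∀ p, b = Sum.inr p → Set.InjOn f (insert p (A' ∪ supp n (h b).node) : Finset (Fin n))) →
        (C.tr M (h b) f ↔
          φ.Realize default (Fin.snoc (Sum.map id e ∘ v) (Sum.map id f b) : Fin (j + 1) → _)) :=
      fun b f => key' b (h b) (hh b) f
    rw [h5, hval]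
    show _ ↔ ∀ y : Fin s ⊕ M,
      φ.Realize default (Fin.snoc (Sum.map id e ∘ v) y : Fin (j + 1) → _)
    constructor
    · intro h6 y
      cases y with
      | inl t =>
        obtain ⟨f, hf, hfi⟩ := hext A' (A' ∪ supp n (h (Sum.inl t)).node)
          Finset.subset_union_left (by
            have h3 := Finset.card_union_le A' (supp n (h (Sum.inl t)).node)
            have h4 := hnode (h (Sum.inl t)).node
            omega) e he
        have h7 := h6 _ (hhS (Sum.inl t)) f hf hfi
        exact (key (Sum.inl t) f hf hfi (fun p hp => by cases hp)).1 h7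
      | inr y' =>
        by_cases hy : ∃ p ∈ A', e p = y'
        · obtain ⟨p, hp, hpy⟩ := hy
          obtain ⟨f, hf, hfi⟩ := hext A' (A' ∪ supp n (h (Sum.inr p)).node)
            Finset.subset_union_left (by
              have h3 := Finset.card_union_le A' (supp n (h (Sum.inr p)).node)
              have h4 := hnode (h (Sum.inr p)).node
              omega) e he
          have h7 := h6 _ (hhS (Sum.inr p)) f hf hfi
          have h8 := (key (Sum.inr p) f hf hfi (fun q hq => by
            injection hq with hq'
            rw [← hq', Finset.insert_eq_of_mem (Finset.mem_union_left _ hp)]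
            exact hfi)).1 h7
          have h9 : (Sum.map id f (Sum.inr p) : Fin s ⊕ M) = Sum.inr y' := by
            show (Sum.inr (f p) : Fin s ⊕ M) = Sum.inr y'
            rw [hf p hp, hpy]
          rwa [h9] at h8
        · obtain ⟨p, hp⟩ : ∃ p, p ∉ A' := by
            by_contra hcon
            push Not at hcon
            have h3 := Finset.card_le_card (fun x _ => hcon x : (Finset.univ : Finset (Fin n)) ⊆ _)
            rw [Finset.card_univ, Fintype.card_fin] at h3
            omega
          have hei : Set.InjOn (Function.update e p y') (insert p A' : Finset (Fin n)) := by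
            intro a ha b hb hab
            have ha' : a = p ∨ a ∈ A' := Finset.mem_insert.1 ha
            have hb' : b = p ∨ b ∈ A' := Finset.mem_insert.1 hb
            by_cases hap : a = p
            · by_cases hbp : b = p
              · rw [hap, hbp]
              · rw [hap, Function.update_self, Function.update_of_ne hbp] at hab
                exact absurd ⟨b, hb'.resolve_left hbp, hab.symm⟩ hy
            · by_cases hbp : b = p
              · rw [hbp, Function.update_self, Function.update_of_ne hap] at hab
                exact absurd ⟨a, ha'.resolve_left hap, hab⟩ hy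
              · rw [Function.update_of_ne hap, Function.update_of_ne hbp] at hab
                exact he (ha'.resolve_left hap) (hb'.resolve_left hbp) hab
          obtain ⟨f, hf, hfi⟩ := hext (insert p A') (insert p (A' ∪ supp n (h (Sum.inr p)).node))
            (Finset.insert_subset_insert _ Finset.subset_union_left) (by
              have h3 := Finset.card_union_le A' (supp n (h (Sum.inr p)).node)
              have h4 := hnode (h (Sum.inr p)).node
              have h5 := Finset.card_insert_le p (A' ∪ supp n (h (Sum.inr p)).node)
              omega) _ hei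
          have hfe : ∀ i ∈ A', f i = e i := by
            intro i hi
            have hip : i ≠ p := by
              rintro rfl
              exact hp hi
            rw [hf i (Finset.mem_insert_of_mem hi), Function.update_of_ne hip]
          have hfi' : Set.InjOn f (A' ∪ supp n (h (Sum.inr p)).node : Finset (Fin n)) :=
            hfi.mono (by
              rw [Finset.coe_subset]
              exact Finset.subset_insert _ _)
          have h7 := h6 _ (hhS (Sum.inr p)) f hfe hfi'
          have h8 := (key (Sum.inr p) f hfe hfi' (fun q hq => by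
            injection hq with hq'
            rw [← hq']
            exact hfi)).1 h7
          have h9 : (Sum.map id f (Sum.inr p) : Fin s ⊕ M) = Sum.inr y' := by
            show (Sum.inr (f p) : Fin s ⊕ M) = Sum.inr y'
            rw [hf p (Finset.mem_insert_self _ _), Function.update_self]
          rwa [h9] at h8
    · intro h6 w hw f hf hfi
      obtain ⟨b, hb⟩ := hS2 w hw
      cases b with
      | inl t =>
        exact (key' (Sum.inl t) w hb f hf hfi (fun p hp => by cases hp)).2 (h6 _)
      | inr p =>
        obtain ⟨g, hg, hgi⟩ := hext (A' ∪ supp n w.node)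
          (insert p (A' ∪ supp n w.node)) (Finset.subset_insert _ _) (by
            have h3 := Finset.card_union_le A' (supp n w.node)
            have h4 := hnode w.node
            have h5 := Finset.card_insert_le p (A' ∪ supp n w.node)
            omega) f hfi
        rw [hcong w f g (fun i hi => (hg i (Finset.mem_union_right _ hi)).symm)]
        refine (key' (Sum.inr p) w hb g
          (fun i hi => (hg i (Finset.mem_union_left _ hi)).trans (hf i hi))
          (hgi.mono ?_) (fun q hq => ?_)).2 (h6 _)
        · rw [Finset.coe_subset]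
          exact Finset.subset_insert _ _
        · injection hq with hq'
          rw [← hq']
          exact hgi

end Pool.H93.SY
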