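import Pool.Agent.H93.SY.Val

/-!
# Worlds, witnesses, valid lines
-/

set_option autoImplicit false

namespace Pool.H93.SY

open scoped Pointwise

/-- Every even permutation that fixes the points of `A` fixes `x`. -/
def Fixes {n : ℕ} {X : Type} [MulAction (Equiv.Perm (Fin n)) X] (A : Finset (Fin n)) (x : X) :
    Prop :=
  ∀ σ : Equiv.Perm (Fin n), Equiv.Perm.sign σ = 1 → (∀ i ∈ A, σ i = i) → σ • x = x

/-- `M` is infinite or has at least `K` elements. -/
def Big (M : Type) (K : ℕ) : Prop := Infinite M ∨ K ≤ Nat.card M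

/-- The condition on the size of the free part `M` of the model. -/
def ModCond (m n k : ℕ) (M : Type) : Prop :=
  m = 1 ∨ (Finite M ∧ Nat.card M + 2 ≤ n ∧ ∀ i, 0 < i → i < k → m ∣ (n - Nat.card M).choose i)

variable {L : FirstOrder.Language.{0, 0}} {m s n : ℕ}

/-- The standing hypotheses. -/
structure Std (C : Circuit L m s n) (M : Type) (k : ℕ) : Prop where
  kpos : 0 < k
  room : 32 * k + 16 ≤ n
  big : Big M (8 * k + 8)
  node : ∀ a : C.N, (supp n a).card < k
  cond : ModCond m n k M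

/-- Some member of `Γ` is true in some extension of `e` from `A` to its support. -/
def Wit (C : Circuit L m s n) (M : Type) [L.Structure (Fin s ⊕ M)] (Γ : Set (Lit C.N))
    (A : Finset (Fin n)) (e : Fin n → M) : Prop :=
  ∃ x ∈ Γ, ∃ f : Fin n → M, (∀ i ∈ A, f i = e i) ∧
    Set.InjOn f (A ∪ supp n x.node : Finset (Fin n)) ∧ C.tr M x f

/-- A line is valid. -/
def Valid (C : Circuit L m s n) (M : Type) [L.Structure (Fin s ⊕ M)] (Γ : Set (Lit C.N)) : Prop :=
  ∀ e : Fin n → M, Set.InjOn e (supp n Γ) → Wit C M Γ (supp n Γ) e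

section

variable {X : Type} [MulAction (Equiv.Perm (Fin n)) X]

theorem Fixes.mono {A B : Finset (Fin n)} {x : X} (h : Fixes A x) (hAB : A ⊆ B) : Fixes B x :=
  fun σ h1 h2 => h σ h1 fun i hi => h2 i (hAB hi)

theorem fixes_supp (hn : 2 ≤ n) (x : X) : Fixes (supp n x) x :=
  fun σ h1 h2 => supp_fix hn x σ h1 h2

end

theorem Big.mono {M : Type} {K K' : ℕ} (h : Big M K) (hK : K' ≤ K) : Big M K' :=
  h.imp id fun h1 => hK.trans h1

variable {C : Circuit L m s n} {M : Type} [L.Structure (Fin s ⊕ M)]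

theorem fixes_and (hn : 2 ≤ n) {a : C.N} {S : Set (Lit C.N)} (h : C.gate a = .and S) :
    Fixes (supp n a) S := by
  intro σ h1 h2
  have h3 := C.gate_smul σ a
  rw [supp_fix hn a σ h1 h2, h] at h3
  have h4 : (Gate.and S : Gate (Atom L (Fin s ⊕ Fin n)) C.N m) = .and (σ • S) := h3
  injection h4 with h5
  exact h5.symm

theorem fixes_mod (hn : 2 ≤ n) {a : C.N} {c : ZMod m} {S : Set (Lit C.N)}
    (h : C.gate a = .mod c S) : Fixes (supp n a) S := by
  intro σ h1 h2
  have h3 := C.gate_smul σ a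
  rw [supp_fix hn a σ h1 h2, h] at h3
  have h4 : (Gate.mod c S : Gate (Atom L (Fin s ⊕ Fin n)) C.N m) = .mod c (σ • S) := h3
  injection h4 with h5 h6
  exact h6.symm

theorem Wit.mono {Γ Δ : Set (Lit C.N)} {A B : Finset (Fin n)} {e f : Fin n → M}
    (h : Wit C M Γ B f) (hΓ : Γ ⊆ Δ) (hAB : A ⊆ B) (hfe : ∀ i ∈ A, f i = e i) :
    Wit C M Δ A e := by
  obtain ⟨x, hx, g, h1, h2, h3⟩ := h
  refine ⟨x, hΓ hx, g, fun i hi => (h1 i (hAB hi)).trans (hfe i hi), ?_, h3⟩
  apply h2.mono
  rw [Finset.coe_subset]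
  exact Finset.union_subset_union_left hAB

theorem supp_lit (x : Lit C.N) : supp n x = supp n x.node := by
  have h : MulAction.stabilizer (Equiv.Perm (Fin n)) x =
      MulAction.stabilizer (Equiv.Perm (Fin n)) x.node := by
    ext σ
    rw [MulAction.mem_stabilizer_iff, MulAction.mem_stabilizer_iff]
    constructor
    · intro h1
      exact congrArg Lit.node h1
    · intro h1
      exact Lit.ext h1 rfl
  unfold supp
  rw [h]

theorem tr_neg {x : Lit C.N} {e : Fin n → M} : C.tr M x.neg e ↔ ¬ C.tr M x e := by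
  unfold Circuit.tr Lit.neg
  cases x.pos <;> simp

theorem tr_true {a : C.N} {e : Fin n → M} : C.tr M ⟨a, true⟩ e ↔ C.val M a e := by
  simp [Circuit.tr]

theorem tr_false {a : C.N} {e : Fin n → M} : C.tr M ⟨a, false⟩ e ↔ ¬ C.val M a e := by
  simp [Circuit.tr]

end Pool.H93.SY
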