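import Mathlib

/-!
# Divisibility of binomial coefficients

If `m ^ r` divides `x` then `m` divides `C(x, i)` for `0 < i < 2 ^ r`.
-/

set_option autoImplicit false

namespace Pool.H93.SY

theorem dvd_choose_of_pow_dvd {m r x i : ℕ} (h : m ^ r ∣ x) (hi : 0 < i) (hir : i < 2 ^ r) :
    m ∣ x.choose i := by
  have hr : 0 < r := by
    rcases Nat.eq_zero_or_pos r with rfl | h'
    · rw [pow_zero] at hir
      omega
    · exact h'
  rcases Nat.eq_zero_or_pos m with rfl | hm
  · rw [zero_pow hr.ne', zero_dvd_iff] at h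
    rw [h, Nat.choose_eq_zero_of_lt hi]
  have h1 : m ^ r ∣ i * x.choose i := by
    rcases Nat.eq_zero_or_pos x with rfl | hx
    · rw [Nat.choose_eq_zero_of_lt hi, mul_zero]
      exact dvd_zero _
    · obtain ⟨y, rfl⟩ := Nat.exists_eq_succ_of_ne_zero hx.ne'
      obtain ⟨j, rfl⟩ := Nat.exists_eq_succ_of_ne_zero hi.ne'
      have h2 := Nat.add_one_mul_choose_eq y j
      rw [mul_comm, ← h2]
      exact h.mul_right _
  have h2 : m ^ r ∣ Nat.gcd (m ^ r) i * x.choose i := by
    rw [← Nat.gcd_mul_right]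
    exact Nat.dvd_gcd (Nat.dvd_mul_right _ _) h1
  have h3 : Nat.gcd (m ^ r) i ∣ m ^ (r - 1) := by
    rw [Nat.dvd_iff_prime_pow_dvd_dvd]
    intro p t hp hpt
    rcases Nat.eq_zero_or_pos t with rfl | ht
    · rw [pow_zero]
      exact one_dvd _
    have h4 : p ^ t ∣ i := hpt.trans (Nat.gcd_dvd_right _ _)
    have h5 : p ∣ m := by
      have h6 : p ∣ m ^ r := ((dvd_pow_self p ht.ne').trans hpt).trans (Nat.gcd_dvd_left _ _)
      exact hp.dvd_of_dvd_pow h6
    have h7 : t < r := by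
      have h8 : p ^ t ≤ i := Nat.le_of_dvd hi h4
      have h9 : 2 ^ t ≤ p ^ t := Nat.pow_le_pow_left hp.two_le t
      exact (Nat.pow_lt_pow_iff_right (by norm_num : 1 < 2)).1 (h9.trans_lt (h8.trans_lt hir))
    exact (pow_dvd_pow_of_dvd h5 t).trans (pow_dvd_pow m (by omega))
  have h4 : m ^ (r - 1) * m ∣ m ^ (r - 1) * x.choose i := by
    have h5 : m ^ (r - 1) * m = m ^ r := by
      rw [← pow_succ]
      congr 1
      omega
    rw [h5]
    exact h2.trans (Nat.mul_dvd_mul_right h3 _)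
  exact Nat.dvd_of_mul_dvd_mul_left (pow_pos hm _) h4

end Pool.H93.SY
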