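import Pool.Agent.H93.SY.Transfer

/-!
# The number of true members of an invariant set in a world

MODULE CN.

`cnt_le`. Proof. `f₂` is a bijection from `W₂` to `M`; let `τ i` be the point of `W₂` with
`f₂ (τ i) = f₁ i`, for `i ∈ W₁` (`Set.BijOn.surjOn`). `τ` is injective on `W₁` and `τ i = i` for
`i ∈ A` (`f₂ i = e i = f₁ i`). `W₁.card = Nat.card M` (`Set.BijOn`, `Set.ncard_image_of_injOn`,
`Set.ncard_univ`), so `W₁.card + 2 ≤ n` and by `exists_even_perm` there is an even `σ` with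
`σ = τ` on `W₁`; `σ • S = S`. The map `x ↦ σ • x` maps `{x ∈ S | supp ⊆ W₁, tr x f₁}` into
`{x ∈ S | supp ⊆ W₂, tr x f₂}`: `supp n (σ • x).node = (supp n x.node).image σ ⊆ W₂`, and
`C.tr M (σ • x) (f₁ ∘ σ⁻¹)` by `tr_smul`, and `f₁ (σ⁻¹ j) = f₂ j` for `j = σ i`,
`i ∈ supp n x.node ⊆ W₁` (`tr_congr`). It is injective, so `Set.ncard_le_ncard_of_injOn` (the target is
finite: `Lit C.N` is finite; an instance `Finite (Lit C.N)` is given below).

`cnt_eq`: `cnt_le` twice.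

`val_mod_iff`. Proof. (→) `val_mod`, applied to `W`, `f` (`e` and `f` agree on `supp n a`).
(←) for `W'`, `f'` by `cnt_eq` with `A = supp n a` (`fixes_mod`).
-/

set_option autoImplicit false

namespace Pool.H93.SY

open scoped Pointwise

variable {L : FirstOrder.Language.{0, 0}} {m s n : ℕ} {C : Circuit L m s n} {M : Type} [L.Structure (Fin s ⊕ M)]

instance finite_lit {N : Type} [Finite N] : Finite (Lit N) :=
  Finite.of_injective (fun x : Lit N => (x.node, x.pos)) (by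
    intro x y h
    exact Lit.ext (congrArg Prod.fst h) (congrArg Prod.snd h))

theorem cnt_le (hnode : ∀ a : C.N, (supp n a).card + 3 ≤ n) [Finite M]
    (hM : Nat.card M + 2 ≤ n) {S : Set (Lit C.N)} {A W₁ W₂ : Finset (Fin n)} (hS : Fixes A S)
    (h1 : A ⊆ W₁) (h2 : A ⊆ W₂) {f₁ f₂ : Fin n → M} (hf : ∀ i ∈ A, f₁ i = f₂ i)
    (hb1 : Set.BijOn f₁ W₁ Set.univ) (hb2 : Set.BijOn f₂ W₂ Set.univ) :
    C.cnt M S W₁ f₁ ≤ C.cnt M S W₂ f₂ := by
  have hsurj : ∀ y : M, ∃ j, j ∈ W₂ ∧ f₂ j = y := by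
    intro y
    obtain ⟨j, hj, hjy⟩ := hb2.surjOn (Set.mem_univ y)
    exact ⟨j, hj, hjy⟩
  choose g hg1 hg2 using hsurj
  have hτ : Set.InjOn (fun i => g (f₁ i)) (W₁ : Set (Fin n)) := by
    intro i hi j hj hij
    have h3 : g (f₁ i) = g (f₁ j) := hij
    have h4 : f₁ i = f₁ j := by rw [← hg2 (f₁ i), h3, hg2]
    exact hb1.injOn hi hj h4
  have hc : W₁.card = Nat.card M := by
    have h4 := Set.ncard_image_of_injOn hb1.injOn
    rw [hb1.image_eq, Set.ncard_univ, Set.ncard_coe_finset] at h4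
    exact h4.symm
  obtain ⟨σ, hσ1, hσ2⟩ := exists_even_perm W₁ (fun i => g (f₁ i)) hτ (by omega)
  have hσS : σ • S = S := by
    refine hS σ hσ1 fun i hi => ?_
    rw [hσ2 i (h1 hi)]
    exact hb2.injOn (hg1 _) (h2 hi) ((hg2 _).trans (hf i hi))
  unfold Circuit.cnt
  refine Set.ncard_le_ncard_of_injOn (fun x => σ • x) ?_ (MulAction.injective σ).injOn
    (Set.toFinite _)
  rintro x ⟨hx1, hx2, hx3⟩
  refine ⟨?_, ?_, ?_⟩
  · have h5 : σ • x ∈ σ • S := Set.smul_mem_smul_set hx1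
    rwa [hσS] at h5
  · intro j hj
    rw [smul_node, supp_smul] at hj
    obtain ⟨i, hi, rfl⟩ := Finset.mem_image.1 hj
    rw [hσ2 i (hx2 hi)]
    exact hg1 _
  · have h5 : C.tr M (σ • x) (fun i => f₁ (σ⁻¹ i)) := (tr_smul σ x f₁).2 hx3
    refine (tr_congr (hnode _) ?_).1 h5
    intro j hj
    rw [smul_node, supp_smul] at hj
    obtain ⟨i, hi, rfl⟩ := Finset.mem_image.1 hj
    show f₁ (σ.symm (σ i)) = f₂ (σ i)
    rw [Equiv.symm_apply_apply, hσ2 i (hx2 hi)]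
    exact (hg2 _).symm

theorem cnt_eq (hnode : ∀ a : C.N, (supp n a).card + 3 ≤ n) [Finite M]
    (hM : Nat.card M + 2 ≤ n) {S : Set (Lit C.N)} {A W₁ W₂ : Finset (Fin n)} (hS : Fixes A S)
    (h1 : A ⊆ W₁) (h2 : A ⊆ W₂) {f₁ f₂ : Fin n → M} (hf : ∀ i ∈ A, f₁ i = f₂ i)
    (hb1 : Set.BijOn f₁ W₁ Set.univ) (hb2 : Set.BijOn f₂ W₂ Set.univ) :
    C.cnt M S W₁ f₁ = C.cnt M S W₂ f₂ := by
  exact le_antisymm (cnt_le hnode hM hS h1 h2 hf hb1 hb2)
    (cnt_le hnode hM hS h2 h1 (fun i hi => (hf i hi).symm) hb2 hb1)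

theorem val_mod_iff (hnode : ∀ a : C.N, (supp n a).card + 3 ≤ n) [Finite M]
    (hM : Nat.card M + 2 ≤ n) {a : C.N} {c : ZMod m} {S : Set (Lit C.N)}
    (h : C.gate a = .mod c S) {W : Finset (Fin n)} (hW : supp n a ⊆ W) {f : Fin n → M}
    (hb : Set.BijOn f W Set.univ) : C.val M a f ↔ ((C.cnt M S W f : ℕ) : ZMod m) = c := by
  constructor
  · intro hv
    exact (val_mod C M h f).1 hv W f hW (fun _ _ => rfl) hb
  · intro hc
    rw [val_mod C M h f]
    intro W' f' hW' hf' hb'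
    rw [cnt_eq hnode hM (fixes_mod (by omega) h) hW' hW hf' hb' hb]
    exact hc

end Pool.H93.SY
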