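import Pool.Agent.H93.SY.Rep
import Pool.Agent.H93.SY.Cnt

/-!
# Classical soundness

MODULE CS.

`cval` is the ordinary value of a node when the atoms are interpreted in a structure on the universe
`Fin s ⊕ Fin n` itself. `ctr x` says that the signed node `x` is true.
`cval_var`, `cval_and`, `cval_mod`: unfold (`rw [Circuit.cval]`), compare `Val.lean`.
`rep_cval`: induction on the formula: if `x` represents `φ` under `v` then
`C.ctr x ↔ φ.Realize default v` (`tv_realize` with `e = id`; `all`: for `b` take the `y ∈ S`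
representing the instance, and for `y ∈ S` its `b`).
`classical`: by strong induction on `R.order Γ` every line contains a true signed node, by cases on the
rule: `hyp`: `rep_cval`; `fact`: `hD`, `cval_var`; `ident`: equal labels give equal values (`cval` depends only on the label: by
cases on the label and `cval_var`, `cval_and`, `cval_mod`); `weak`, `cut`, `andI` (if no member of `Γ` is true
then every `x ∈ S` is true, so `a` is true), `andE`; `total`: let `c` be the number of true members of `S`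
modulo `m`; `excl`; `one`, `zero`: the number of true members of `{x}` is `1` or `0`; `sum`: if `p` is true,
all `b ∈ T` are true, and the number of true members of the disjoint union is the sum of the numbers
(cast to `ZMod m`; `Set.ncard` of a finite pairwise disjoint union; compare the lemma on this in
`RuleS.lean` if it is there). The empty line contains no true signed node.
-/

set_option autoImplicit false

namespace Pool.H93.SY

open scoped Pointwise
open FirstOrder.Language

variable {L : FirstOrder.Language.{0, 0}} {m s n : ℕ}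

/-- The ordinary value of a node in a structure on the universe. -/
def Circuit.cval (C : Circuit L m s n) [L.Structure (Fin s ⊕ Fin n)] (a : C.N) : Prop :=
  (∀ v, C.gate a = .var v → Structure.RelMap v.2.1 (fun i => v.2.2 i)) ∧
  (∀ S, ∀ _h : C.gate a = .and S, ∀ x, ∀ _hx : x ∈ S, (C.cval x.node ↔ x.pos = true)) ∧
  (∀ c S, ∀ _h : C.gate a = .mod c S,
    (({x | ∃ _hx : x ∈ S, (C.cval x.node ↔ x.pos = true)}.ncard : ℕ) : ZMod m) = c)
termination_by C.rank a
decreasing_by
  · exact C.rank_lt a x (by rw [_h]; exact _hx)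
  · exact C.rank_lt a x (by rw [_h]; exact _hx)

/-- A signed node is true. -/
def Circuit.ctr (C : Circuit L m s n) [L.Structure (Fin s ⊕ Fin n)] (x : Lit C.N) : Prop :=
  C.cval x.node ↔ x.pos = true

section

variable [L.Structure (Fin s ⊕ Fin n)] {C : Circuit L m s n}

theorem cval_var {a : C.N} {v : Atom L (Fin s ⊕ Fin n)} (h : C.gate a = .var v) :
    C.cval a ↔ Structure.RelMap v.2.1 (fun i => v.2.2 i) := by
  rw [Circuit.cval]
  constructor
  · intro h1
    exact h1.1 v h
  · intro h1
    refine ⟨?_, ?_, ?_⟩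
    · intro w hw
      rw [h] at hw
      cases hw
      exact h1
    · intro S hS
      rw [h] at hS
      cases hS
    · intro c S hS
      rw [h] at hS
      cases hS

theorem cval_and {a : C.N} {S : Set (Lit C.N)} (h : C.gate a = .and S) :
    C.cval a ↔ ∀ x ∈ S, C.ctr x := by
  rw [Circuit.cval]
  constructor
  · intro h1 x hx
    exact h1.2.1 S h x hx
  · intro h1
    refine ⟨?_, ?_, ?_⟩
    · intro w hw
      rw [h] at hw
      cases hw
    · intro T hT x hx
      rw [h] at hT
      cases hT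
      exact h1 x hx
    · intro c S hS
      rw [h] at hS
      cases hS

theorem cval_mod {a : C.N} {c : ZMod m} {S : Set (Lit C.N)} (h : C.gate a = .mod c S) :
    C.cval a ↔ (({x | x ∈ S ∧ C.ctr x}.ncard : ℕ) : ZMod m) = c := by
  have hset : ∀ T : Set (Lit C.N),
      {x | ∃ _hx : x ∈ T, (C.cval x.node ↔ x.pos = true)} = {x | x ∈ T ∧ C.ctr x} := by
    intro T
    ext x
    constructor
    · rintro ⟨h1, h2⟩
      exact ⟨h1, h2⟩
    · rintro ⟨h1, h2⟩
      exact ⟨h1, h2⟩
  rw [Circuit.cval]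
  constructor
  · intro h1
    have h2 := h1.2.2 c S h
    rwa [hset] at h2
  · intro h1
    refine ⟨?_, ?_, ?_⟩
    · intro w hw
      rw [h] at hw
      cases hw
    · intro T hT
      rw [h] at hT
      cases hT
    · intro d T hT
      rw [h] at hT
      cases hT
      rw [hset]
      exact h1

theorem ctr_neg {x : Lit C.N} : C.ctr x.neg ↔ ¬ C.ctr x := by
  unfold Circuit.ctr Lit.neg
  cases x.pos <;> simp

theorem ctr_true {a : C.N} : C.ctr ⟨a, true⟩ ↔ C.cval a := by
  simp [Circuit.ctr]

theorem ctr_false {a : C.N} : C.ctr ⟨a, false⟩ ↔ ¬ C.cval a := by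
  simp [Circuit.ctr]

theorem rep_cval [L.IsRelational] {j : ℕ} (φ : L.BoundedFormula Empty j)
    (v : Fin j → Fin s ⊕ Fin n) (x : Lit C.N) (hx : C.Rep φ v x) :
    C.ctr x ↔ φ.Realize (default : Empty → Fin s ⊕ Fin n) v := by
  have htv : ∀ {j : ℕ} (v : Fin j → Fin s ⊕ Fin n) (t : L.Term (Empty ⊕ Fin j)),
      t.realize (Sum.elim default v) = tv v t := fun v t => tv_realize v id t
  induction φ generalizing x with
  | falsum =>
    obtain ⟨h1, h2⟩ := hx
    have hv : C.cval x.node := (cval_and h2).2 (fun y hy => absurd hy (Set.notMem_empty y))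
    unfold Circuit.ctr
    rw [h1]
    constructor
    · intro h
      exact absurd (h.1 hv) (by simp)
    · intro h
      exact h.elim
  | equal t₁ t₂ =>
    obtain ⟨h1, h2⟩ := hx
    have hv : C.cval x.node := (cval_and h2).2 (fun y hy => absurd hy (Set.notMem_empty y))
    show _ ↔ t₁.realize (Sum.elim default v) = t₂.realize (Sum.elim default v)
    rw [htv, htv, ← h1]
    unfold Circuit.ctr
    exact ⟨fun h => h.1 hv, fun h => ⟨fun _ => h, fun _ => hv⟩⟩
  | rel R ts =>
    obtain ⟨h1, h2⟩ := hx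
    unfold Circuit.ctr
    rw [cval_var h2, h1]
    show _ ↔ Structure.RelMap R (fun i => (ts i).realize (Sum.elim default v))
    have h3 : (fun i => (ts i).realize (Sum.elim default v)) =
        fun i => (tv v (ts i) : Fin s ⊕ Fin n) := by
      funext i
      rw [htv]
    rw [h3]
    simp
  | @imp j φ θ ih1 ih2 =>
    obtain ⟨h1, y, z, hy, hz, h2⟩ := hx
    have h5 : C.ctr x ↔ ¬ C.cval x.node := by
      unfold Circuit.ctr
      rw [h1]
      simp
    rw [h5, cval_and h2]
    show _ ↔ (φ.Realize default v → θ.Realize default v)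
    have e1 : C.ctr y ↔ φ.Realize default v := ih1 v y hy
    have e2 : C.ctr z ↔ θ.Realize default v := ih2 v z hz
    rw [← e1, ← e2]
    constructor
    · intro h h6
      by_contra h7
      apply h
      intro w hw
      rcases hw with rfl | rfl
      · exact h6
      · exact ctr_neg.2 h7
    · intro h h6
      exact (ctr_neg.1 (h6 z.neg (Set.mem_insert_of_mem _ rfl))) (h (h6 y (Set.mem_insert _ _)))
  | @all j φ ih =>
    obtain ⟨h1, S, h2, hS1, hS2⟩ := hx
    have h5 : C.ctr x ↔ C.cval x.node := by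
      unfold Circuit.ctr
      rw [h1]
      simp
    rw [h5, cval_and h2]
    show _ ↔ ∀ y : Fin s ⊕ Fin n, φ.Realize default (Fin.snoc v y : Fin (j + 1) → _)
    constructor
    · intro h b
      obtain ⟨y, hy, hr⟩ := hS1 b
      exact (ih (Fin.snoc v b) y hr).1 (h y hy)
    · intro h y hy
      obtain ⟨b, hr⟩ := hS2 y hy
      exact (ih (Fin.snoc v b) y hr).2 (h b)

theorem cval_eq_of_gate_eq {a b : C.N} (h : C.gate a = C.gate b) : C.cval a ↔ C.cval b := by
  cases hb : C.gate b with
  | var v => rw [cval_var (h.trans hb), cval_var hb]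
  | and S => rw [cval_and (h.trans hb), cval_and hb]
  | mod c S => rw [cval_mod (h.trans hb), cval_mod hb]

theorem step_classical [L.IsRelational] {ψ : L.Sentence} (hψ : (Fin s ⊕ Fin n) ⊨ ψ)
    {D : Set (Atom L (Fin s ⊕ Fin n) × Bool)}
    (hD : ∀ v b, (v, b) ∈ D → (Structure.RelMap v.2.1 (fun i => v.2.2 i) ↔ b = true))
    {P : Set (Set (Lit C.N))} (hP : ∀ Δ ∈ P, ∃ x ∈ Δ, C.ctr x) {Γ : Set (Lit C.N)}
    (hs : Step ψ D C P Γ) : ∃ x ∈ Γ, C.ctr x := by
  cases hs with
  | @hyp x hx hxΓ =>
    refine ⟨x, hxΓ, (rep_cval ψ default x hx).2 ?_⟩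
    exact hψ
  | @fact a v b ha hv hx =>
    refine ⟨_, hx, ?_⟩
    show C.cval a ↔ b = true
    rw [cval_var ha]
    exact hD v b hv
  | @ident a b hab ha hb =>
    by_cases h1 : C.cval a
    · exact ⟨_, ha, ctr_true.2 h1⟩
    · exact ⟨_, hb, ctr_false.2 (fun h2 => h1 ((cval_eq_of_gate_eq hab).2 h2))⟩
  | weak hΔ hs =>
    obtain ⟨x, hx, h1⟩ := hP _ hΔ
    exact ⟨x, hs hx, h1⟩
  | @cut a h1 h2 =>
    by_cases h3 : C.cval a
    · obtain ⟨x, hx, h4⟩ := hP _ h2
      rcases hx with rfl | hx
      · exact absurd h3 (ctr_false.1 h4)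
      · exact ⟨x, hx, h4⟩
    · obtain ⟨x, hx, h4⟩ := hP _ h1
      rcases hx with rfl | hx
      · exact absurd (ctr_true.1 h4) h3
      · exact ⟨x, hx, h4⟩
  | @andI S a hS ha h1 =>
    by_cases h3 : C.cval a
    · exact ⟨_, ha, ctr_true.2 h3⟩
    · rw [cval_and hS] at h3
      push Not at h3
      obtain ⟨x, hx, h4⟩ := h3
      obtain ⟨y, hy, h5⟩ := hP _ (h1 x hx)
      rcases hy with rfl | hy
      · exact absurd h5 h4
      · exact ⟨y, hy, h5⟩
  | @andE S a hS ha h1 =>
    by_cases h3 : C.cval a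
    · obtain ⟨y, hy, h5⟩ := hP _ h1
      rcases hy with hy | ⟨x, hx, rfl⟩
      · exact ⟨y, hy, h5⟩
      · exact absurd ((cval_and hS).1 h3 x hx) (ctr_neg.1 h5)
    · exact ⟨_, ha, ctr_false.2 h3⟩
  | @total S h1 =>
    obtain ⟨a, ha, ha'⟩ := h1 (({x | x ∈ S ∧ C.ctr x}.ncard : ℕ) : ZMod m)
    exact ⟨_, ha', ctr_true.2 ((cval_mod ha).2 rfl)⟩
  | @excl S a b c d ha hb hcd ha' hb' =>
    by_cases h3 : C.cval a
    · refine ⟨_, hb', ctr_false.2 fun h4 => hcd ?_⟩
      rw [← (cval_mod ha).1 h3, ← (cval_mod hb).1 h4]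
    · exact ⟨_, ha', ctr_false.2 h3⟩
  | @one a x ha hx ha' =>
    by_cases h3 : C.ctr x
    · refine ⟨_, ha', ctr_true.2 ((cval_mod ha).2 ?_)⟩
      have h4 : {y | y ∈ ({x} : Set (Lit C.N)) ∧ C.ctr y} = {x} := by
        ext y
        constructor
        · rintro ⟨h5, -⟩
          exact h5
        · rintro rfl
          exact ⟨rfl, h3⟩
      rw [h4, Set.ncard_singleton, Nat.cast_one]
    · exact ⟨_, hx, ctr_neg.2 h3⟩
  | @zero a x ha hx ha' =>
    by_cases h3 : C.ctr x
    · exact ⟨_, hx, h3⟩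
    · refine ⟨_, ha', ctr_true.2 ((cval_mod ha).2 ?_)⟩
      have h4 : {y | y ∈ ({x} : Set (Lit C.N)) ∧ C.ctr y} = ∅ := by
        ext y
        constructor
        · rintro ⟨rfl, h6⟩
          exact absurd h6 h3
        · intro h5
          exact h5.elim
      rw [h4, Set.ncard_empty, Nat.cast_zero]
  | @sum a p T c S hT hd hp ha hp' ha' =>
    by_cases h3 : C.cval p
    · refine ⟨_, ha', ctr_true.2 ((cval_mod ha).2 ?_)⟩
      have h4 : ∀ b ∈ T, (({x | x ∈ S b ∧ C.ctr x}.ncard : ℕ) : ZMod m) = c b := by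
        intro b hb
        exact (cval_mod (hT b hb)).1 (ctr_true.1 ((cval_and hp).1 h3 _ ⟨b, hb, rfl⟩))
      have s5 : {x | x ∈ (⋃ b ∈ T, S b) ∧ C.ctr x}.ncard =
          ∑ᶠ b ∈ T, {x | x ∈ S b ∧ C.ctr x}.ncard := by
        rw [← Set.Finite.ncard_biUnion (Set.toFinite _) (fun _ _ => Set.toFinite _)]
        · congr 1
          ext x
          simp only [Set.mem_iUnion, Set.mem_ofPred_eq, exists_prop]
          constructor
          · rintro ⟨⟨b, hb, hx⟩, h2⟩
            exact ⟨b, hb, hx, h2⟩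
          · rintro ⟨b, hb, hx, h2⟩
            exact ⟨⟨b, hb, hx⟩, h2⟩
        · intro b hb b' hb' hne
          refine Set.disjoint_left.2 fun x hx hx' => ?_
          exact Set.disjoint_left.1 (hd hb hb' hne) hx.1 hx'.1
      have h1 := AddMonoidHom.map_finsum_mem (fun b => {x | x ∈ S b ∧ C.ctr x}.ncard)
        (Nat.castAddMonoidHom (ZMod m)) (Set.toFinite T)
      rw [Nat.coe_castAddMonoidHom] at h1
      rw [s5, h1]
      exact finsum_mem_congr rfl fun b hb => h4 b hb
    · exact ⟨_, hp', ctr_false.2 h3⟩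

end

theorem classical [L.IsRelational] [L.Structure (Fin s ⊕ Fin n)] (ψ : L.Sentence)
    {D : Set (Atom L (Fin s ⊕ Fin n) × Bool)}
    (hD : ∀ v b, (v, b) ∈ D → (Structure.RelMap v.2.1 (fun i => v.2.2 i) ↔ b = true))
    (R : Refutation ψ m s n D) : ¬ (Fin s ⊕ Fin n) ⊨ ψ := by
  intro hψ
  have hval : ∀ t, ∀ Γ ∈ R.lines, R.order Γ = t → ∃ x ∈ Γ, R.C.ctr x := by
    intro t
    induction t using Nat.strong_induction_on with
    | _ t ih =>
      intro Γ hΓ ht
      refine step_classical hψ hD ?_ (R.step Γ hΓ)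
      rintro Δ ⟨hΔ, hlt⟩
      exact ih _ (ht ▸ hlt) Δ hΔ rfl
  obtain ⟨x, hx, -⟩ := hval _ ∅ R.empty_mem rfl
  exact hx

end Pool.H93.SY
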