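import Pool.Agent.H93.SY.World
import Pool.Agent.H93.SY.PermExt

/-!
# The value of a node depends only on the restriction to its support

MODULE CG.

`args_mem`. Proof. Suppose `v.2.2 i = Sum.inr p`, `p ∉ supp n a`. Let `D = insert p (supp n a)`,
`D.card + 2 ≤ n`; choose a point `q ∉ D` and `τ = Function.update id p q`, which is injective on
`D`. By `exists_even_perm` there is an even `σ` with `σ p = q` and `σ j = j` for `j ∈ supp n a`. By
`supp_fix`, `σ • a = a`, so `C.gate_smul` gives `.var v = .var (v.act σ)`, `v = v.act σ`. By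
`Sigma` extensionality (`v = ⟨r, R, w⟩`, `v.act σ = ⟨r, R, fun i => Sum.map id σ (w i)⟩`, so `heq` is
`eq`; `cases v`, `injection`, `Prod.mk.injEq`) `w i = Sum.map id σ (w i)`, that is `p = q`, a
contradiction.

`val_congr`. Proof. By cases on `C.gate a` (no induction): for a variable by `val_var` and
`args_mem` (the two functions of `i` are equal, `funext`, cases on `v.2.2 i`); for the other two gates by `val_and`,
`val_mod`: the conditions on `f` are the same since `f i = e i ↔ f i = e' i` on the support.
-/

set_option autoImplicit false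

namespace Pool.H93.SY

open scoped Pointwise

variable {L : FirstOrder.Language.{0, 0}} {m s n : ℕ} {C : Circuit L m s n} {M : Type} [L.Structure (Fin s ⊕ M)]

theorem args_mem {a : C.N} (hn : (supp n a).card + 3 ≤ n) {v : Atom L (Fin s ⊕ Fin n)} (h : C.gate a = .var v)
    (i : Fin v.1) {p : Fin n} (hp : v.2.2 i = Sum.inr p) : p ∈ supp n a := by
  by_contra hpa
  have hD : (insert p (supp n a)).card + 2 ≤ n := by
    rw [Finset.card_insert_of_notMem hpa]
    omega
  obtain ⟨q, hq⟩ : ∃ q, q ∉ insert p (supp n a) := by
    by_contra hcon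
    push Not at hcon
    have h1 := Finset.card_le_card (fun x _ => hcon x : (Finset.univ : Finset (Fin n)) ⊆ _)
    rw [Finset.card_univ, Fintype.card_fin] at h1
    omega
  rw [Finset.mem_insert, not_or] at hq
  obtain ⟨σ, hσ1, hσ2⟩ := exists_even_perm (insert p (supp n a)) (Function.update id p q) (by
    intro x hx y hy hxy
    have hx' : x = p ∨ x ∈ supp n a := Finset.mem_insert.1 hx
    have hy' : y = p ∨ y ∈ supp n a := Finset.mem_insert.1 hy
    by_cases hxp : x = p
    · by_cases hyp : y = p
      · rw [hxp, hyp]
      · rw [hxp, Function.update_self, Function.update_of_ne hyp] at hxy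
        exact absurd (hy'.resolve_left hyp) (by rw [← show q = y from hxy]; exact hq.2)
    · by_cases hyp : y = p
      · rw [hyp, Function.update_self, Function.update_of_ne hxp] at hxy
        exact absurd (hx'.resolve_left hxp) (by rw [show x = q from hxy]; exact hq.2)
      · rw [Function.update_of_ne hxp, Function.update_of_ne hyp] at hxy
        exact hxy) hD
  have h1 : σ • a = a := by
    refine supp_fix (by omega) a σ hσ1 ?_
    intro j hj
    have hjp : j ≠ p := by
      rintro rfl
      exact hpa hj
    rw [hσ2 j (Finset.mem_insert_of_mem hj), Function.update_of_ne hjp]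
    rfl
  have h2 := C.gate_smul σ a
  rw [h1, h] at h2
  have h3 : (Gate.var v : Gate (Atom L (Fin s ⊕ Fin n)) C.N m) = .var (v.act σ) := h2
  injection h3 with h4
  have h5 : v.2.2 = fun i => Sum.map id σ (v.2.2 i) := by
    obtain ⟨r, R, w⟩ := v
    have h6 : (⟨r, R, w⟩ : Atom L (Fin s ⊕ Fin n)) = ⟨r, R, fun i => Sum.map id σ (w i)⟩ := h4
    injection h6 with h7 h8
    exact (Prod.mk.inj h8).2
  have h6 := congrFun h5 i
  rw [hp] at h6
  have h7 : (Sum.inr p : Fin s ⊕ Fin n) = Sum.inr (σ p) := h6
  injection h7 with h8
  rw [hσ2 p (Finset.mem_insert_self _ _), Function.update_self] at h8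
  exact hq.1 h8.symm

theorem val_congr {a : C.N} (hn : (supp n a).card + 3 ≤ n) {e e' : Fin n → M}
    (h : ∀ i ∈ supp n a, e i = e' i) : C.val M a e ↔ C.val M a e' := by
  have key : ∀ f : Fin n → M, (∀ i ∈ supp n a, f i = e i) ↔ (∀ i ∈ supp n a, f i = e' i) := by
    intro f
    constructor
    · intro h1 i hi
      rw [h1 i hi, h i hi]
    · intro h1 i hi
      rw [h1 i hi, h i hi]
  cases hg : C.gate a with
  | var v =>
    rw [val_var C M hg, val_var C M hg]
    have h1 : (fun i => Sum.map id e (v.2.2 i)) = fun i => Sum.map id e' (v.2.2 i) := by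
      funext i
      cases hw : v.2.2 i with
      | inl t => rfl
      | inr p =>
        show (Sum.inr (e p) : Fin s ⊕ M) = Sum.inr (e' p)
        rw [h p (args_mem hn hg i hw)]
    rw [h1]
  | and S =>
    rw [val_and C M hg, val_and C M hg]
    refine forall_congr' fun x => forall_congr' fun _ => forall_congr' fun f => ?_
    rw [key f]
  | mod c S =>
    rw [val_mod C M hg, val_mod C M hg]
    refine forall_congr' fun W => forall_congr' fun f => forall_congr' fun _ => ?_
    rw [key f]

theorem tr_congr {x : Lit C.N} (hn : (supp n x.node).card + 3 ≤ n) {e e' : Fin n → M}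
    (h : ∀ i ∈ supp n x.node, e i = e' i) : C.tr M x e ↔ C.tr M x e' := by
  unfold Circuit.tr
  rw [val_congr hn h]

end Pool.H93.SY
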