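import Mathlib

/-!
# Symmetric refutations in the sequent calculus with gates of unbounded fan-in

Propositional formulas are given by the nodes of a finite circuit (subformulas are shared) with
conjunctions and modular counting gates of unbounded fan-in; negation is a sign. The propositional
variables are the atomic statements `R (a 1, …, a k)` about the points of the universe
`Fin s ⊕ Fin n`. The permutations of the `n` points of `Fin n` act on the circuit and on the lines
of a refutation; the other `s` points are fixed (`s = 0`: full symmetry).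
-/

set_option autoImplicit false

namespace Pool.H93.SY

open scoped Pointwise

/-- A signed node: the node itself (`pos = true`) or its negation (`pos = false`). -/
@[ext] structure Lit (N : Type) where
  /-- the node -/
  node : N
  /-- the sign -/
  pos : Bool

/-- The negation of a signed node. -/
def Lit.neg {N : Type} (x : Lit N) : Lit N := ⟨x.node, !x.pos⟩

instance {G N : Type} [Monoid G] [MulAction G N] : MulAction G (Lit N) where
  smul g x := ⟨g • x.node, x.pos⟩
  one_smul x := Lit.ext (one_smul G x.node) rfl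
  mul_smul g h x := Lit.ext (mul_smul g h x.node) rfl

/-- Propositional variables: the atomic statements `R (a 1, …, a k)` about points of `P`. -/
abbrev Atom (L : FirstOrder.Language.{0, 0}) (P : Type) : Type :=
  Σ k : ℕ, L.Relations k × (Fin k → P)

/-- Renaming of the points in an atom by a permutation of `Fin n`. -/
def Atom.act {L : FirstOrder.Language.{0, 0}} {s n : ℕ} (σ : Equiv.Perm (Fin n))
    (v : Atom L (Fin s ⊕ Fin n)) : Atom L (Fin s ⊕ Fin n) :=
  ⟨v.1, v.2.1, fun i => Sum.map id σ (v.2.2 i)⟩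

/-- The label of a node: a variable, a conjunction of a set of signed nodes, or a gate `mod c S`:
the number of true members of `S` is congruent to `c` modulo `m`. -/
inductive Gate (V N : Type) (m : ℕ) : Type
  | var (v : V)
  | and (S : Set (Lit N))
  | mod (c : ZMod m) (S : Set (Lit N))

/-- The signed nodes that enter a gate. -/
def Gate.children {V N : Type} {m : ℕ} : Gate V N m → Set (Lit N)
  | .var _ => ∅
  | .and S => S
  | .mod _ S => S

/-- The action of a permutation of `Fin n` on labels. -/
def Gate.act {L : FirstOrder.Language.{0, 0}} {m s n : ℕ} {N : Type}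
    [MulAction (Equiv.Perm (Fin n)) N] (σ : Equiv.Perm (Fin n)) :
    Gate (Atom L (Fin s ⊕ Fin n)) N m → Gate (Atom L (Fin s ⊕ Fin n)) N m
  | .var v => .var (v.act σ)
  | .and S => .and (σ • S)
  | .mod c S => .mod c (σ • S)

/-- A symmetric circuit over the universe `Fin s ⊕ Fin n` with gates modulo `m`: a finite acyclic
circuit on which the permutations of `Fin n` act by automorphisms. -/
structure Circuit (L : FirstOrder.Language.{0, 0}) (m s n : ℕ) where
  /-- the nodes -/
  N : Type
  [fin : Finite N]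
  [act : MulAction (Equiv.Perm (Fin n)) N]
  /-- the label of a node -/
  gate : N → Gate (Atom L (Fin s ⊕ Fin n)) N m
  /-- the level of a node -/
  rank : N → ℕ
  rank_lt : ∀ a, ∀ x ∈ (gate a).children, rank x.node < rank a
  gate_smul : ∀ (σ : Equiv.Perm (Fin n)) (a : N), gate (σ • a) = (gate a).act σ

attribute [instance] Circuit.fin Circuit.act

/-- The value of a term of a relational language, that is, of a variable. -/
def tv {L : FirstOrder.Language.{0, 0}} [L.IsRelational] {P : Type} {k : ℕ} (v : Fin k → P) :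
    L.Term (Empty ⊕ Fin k) → P
  | .var (.inl e) => e.elim
  | .var (.inr i) => v i
  | .func f _ => isEmptyElim f

/-- The signed node `x` represents the propositional translation of the formula over the universe
`Fin s ⊕ Fin n` under the valuation `v`: a quantifier is the conjunction of the instances at all
points (an instance may be represented by several nodes), an equality is the truth constant (empty
conjunction) or its negation, `φ → θ` is `¬(φ ∧ ¬θ)`. -/
def Circuit.Rep {L : FirstOrder.Language.{0, 0}} [L.IsRelational] {m s n : ℕ}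
    (C : Circuit L m s n) :
    ∀ {k : ℕ}, L.BoundedFormula Empty k → (Fin k → Fin s ⊕ Fin n) → Lit C.N → Prop
  | _, .falsum, _, x => x.pos = false ∧ C.gate x.node = .and ∅
  | _, .equal t₁ t₂, v, x => (x.pos = true ↔ tv v t₁ = tv v t₂) ∧ C.gate x.node = .and ∅
  | _, .rel R ts, v, x => x.pos = true ∧ C.gate x.node = .var ⟨_, R, fun i => tv v (ts i)⟩
  | _, .imp φ θ, v, x => x.pos = false ∧
      ∃ y z, C.Rep φ v y ∧ C.Rep θ v z ∧ C.gate x.node = .and {y, z.neg}
  | _, .all φ, v, x => x.pos = true ∧ ∃ S : Set (Lit C.N), C.gate x.node = .and S ∧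
      (∀ b, ∃ y ∈ S, C.Rep φ (Fin.snoc v b) y) ∧ ∀ y ∈ S, ∃ b, C.Rep φ (Fin.snoc v b) y

/-- The rules. A line is a set `Γ` of signed nodes, read as the disjunction of its members; it
follows in one step from the lines in `P`. The hypotheses are `ψ` over the universe
`Fin s ⊕ Fin n` (`hyp`) and the atoms and negated atoms in `D` (`fact`). -/
inductive Step {L : FirstOrder.Language.{0, 0}} [L.IsRelational] (ψ : L.Sentence) {m s n : ℕ}
    (D : Set (Atom L (Fin s ⊕ Fin n) × Bool)) (C : Circuit L m s n) (P : Set (Set (Lit C.N))) :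
    Set (Lit C.N) → Prop
  | hyp {Γ : Set (Lit C.N)} {x : Lit C.N} : C.Rep ψ default x → x ∈ Γ → Step ψ D C P Γ
  | fact {Γ : Set (Lit C.N)} {a : C.N} {v : Atom L (Fin s ⊕ Fin n)} {b : Bool} :
      C.gate a = .var v → (v, b) ∈ D → ⟨a, b⟩ ∈ Γ → Step ψ D C P Γ
  | ident {Γ : Set (Lit C.N)} {a b : C.N} : C.gate a = C.gate b → ⟨a, true⟩ ∈ Γ →
      ⟨b, false⟩ ∈ Γ → Step ψ D C P Γ
  | weak {Γ Δ : Set (Lit C.N)} : Δ ∈ P → Δ ⊆ Γ → Step ψ D C P Γ
  | cut {Γ : Set (Lit C.N)} {a : C.N} : insert ⟨a, true⟩ Γ ∈ P → insert ⟨a, false⟩ Γ ∈ P →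
      Step ψ D C P Γ
  | andI {Γ S : Set (Lit C.N)} {a : C.N} : C.gate a = .and S → ⟨a, true⟩ ∈ Γ →
      (∀ x ∈ S, insert x Γ ∈ P) → Step ψ D C P Γ
  | andE {Γ S : Set (Lit C.N)} {a : C.N} : C.gate a = .and S → ⟨a, false⟩ ∈ Γ →
      Γ ∪ Lit.neg '' S ∈ P → Step ψ D C P Γ
  | total {Γ S : Set (Lit C.N)} : (∀ c, ∃ a, C.gate a = .mod c S ∧ ⟨a, true⟩ ∈ Γ) →
      Step ψ D C P Γ
  | excl {Γ S : Set (Lit C.N)} {a b : C.N} {c d : ZMod m} : C.gate a = .mod c S →
      C.gate b = .mod d S → c ≠ d → ⟨a, false⟩ ∈ Γ → ⟨b, false⟩ ∈ Γ → Step ψ D C P Γ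
  | one {Γ : Set (Lit C.N)} {a : C.N} {x : Lit C.N} : C.gate a = .mod 1 {x} → x.neg ∈ Γ →
      ⟨a, true⟩ ∈ Γ → Step ψ D C P Γ
  | zero {Γ : Set (Lit C.N)} {a : C.N} {x : Lit C.N} : C.gate a = .mod 0 {x} → x ∈ Γ →
      ⟨a, true⟩ ∈ Γ → Step ψ D C P Γ
  | sum {Γ : Set (Lit C.N)} {a p : C.N} {T : Set C.N} {c : C.N → ZMod m}
      {S : C.N → Set (Lit C.N)} : (∀ b ∈ T, C.gate b = .mod (c b) (S b)) →
      T.PairwiseDisjoint S → C.gate p = .and ((fun b => ⟨b, true⟩) '' T) →
      C.gate a = .mod (∑ᶠ b ∈ T, c b) (⋃ b ∈ T, S b) → ⟨p, false⟩ ∈ Γ → ⟨a, true⟩ ∈ Γ →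
      Step ψ D C P Γ

/-- A refutation of the translation of `ψ` over the universe `Fin s ⊕ Fin n` and of the facts in
`D`, symmetric under the permutations of `Fin n`: a symmetric circuit and a set of lines, closed
under these permutations, each of which follows in one step from earlier ones; the empty line is
among them. -/
structure Refutation {L : FirstOrder.Language.{0, 0}} [L.IsRelational] (ψ : L.Sentence)
    (m s n : ℕ) (D : Set (Atom L (Fin s ⊕ Fin n) × Bool)) where
  /-- the circuit -/
  C : Circuit L m s n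
  /-- the lines -/
  lines : Set (Set (Lit C.N))
  smul_mem : ∀ (σ : Equiv.Perm (Fin n)), ∀ Γ ∈ lines, σ • Γ ∈ lines
  /-- the order of the lines -/
  order : Set (Lit C.N) → ℕ
  step : ∀ Γ ∈ lines, Step ψ D C {Δ | Δ ∈ lines ∧ order Δ < order Γ} Γ
  empty_mem : ∅ ∈ lines

/-- The size of a refutation: the number of nodes of the circuit plus the number of lines. -/
noncomputable def Refutation.size {L : FirstOrder.Language.{0, 0}} [L.IsRelational]
    {ψ : L.Sentence} {m s n : ℕ} {D : Set (Atom L (Fin s ⊕ Fin n) × Bool)}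
    (R : Refutation ψ m s n D) : ℕ :=
  Nat.card R.C.N + R.lines.ncard

end Pool.H93.SY
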