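import Pool.Agent.H93.SY.World
import Pool.Agent.H93.SY.PermExt
import Pool.Agent.H93.SY.Bin

/-!
# Counting the members of an invariant set with support inside `W`

MODULE DR.

`X` is a finite set on which the permutations of `Fin n` act, `S` a subset which is mapped to itself
by the even permutations fixing the points of `A`, and `w : X → ZMod m` is a weight that is
invariant on `S` under them. All supports have less than `k` points. Then the total weight of the
members of `S` with support inside `W` is the total weight of `S`, if `A ⊆ W`, `N = W.card` and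
`m ∣ C(n - N, i)` for `0 < i < k`.

Proof. All sums may be written as `Finset` sums over `univ.filter` (`Fintype.ofFinite X`, `classical`,
`finsum_mem_eq_finite_toFinset_sum` or `finsum_mem_def`, `finsum_eq_sum_of_fintype`: it is convenient
to write both sides as `∑ x, if x ∈ S ∧ … then w x else 0`). For a set `D` of points outside `A` let
`F D = ∑ w x` over the `x ∈ S` with `supp n x \ A = D`.
(1) `F D = F D'` if `D`, `D'` are disjoint from `A`, `D.card = D'.card` and `D.card < k`: there is an even
`σ` fixing the points of `A` with `D.image σ = D'` (`exists_even_perm` for the map on `A ∪ D` which is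
the identity on `A` and a bijection from `D` to `D'` on `D`; `(A ∪ D).card + 2 ≤ n`). The map
`x ↦ σ • x` is a bijection between the two sets of indices: `σ • x ∈ S` iff `x ∈ S` as `σ • S = S`
(`Set.smul_mem_smul_set_iff`), `supp n (σ • x) \ A = (supp n x \ A).image σ` by `supp_smul` since
`A.image σ = A`, and `w (σ • x) = w x` (`hw`) (`Finset.sum_bij'` or `Finset.sum_nbij'` with `σ⁻¹`).
Therefore there is `G : ℕ → ZMod m` with `F D = G D.card` for all `D` disjoint from `A` with
`D.card < k` (choose a representative for every size for which there is one, otherwise `0`).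
(2) `∑_{x ∈ S} w x = ∑_{D ⊆ univ \ A, D.card < k} F D = ∑_{j < k} C(n - A.card, j) G j`
(`Finset.sum_fiberwise_of_maps_to`; `Finset.sum_powersetCard`-like; `Finset.card_powersetCard`,
`(univ \ A).card = n - A.card`): every `x` has `supp n x \ A` disjoint from `A` and of less than `k`
points. Similarly `∑_{x ∈ S, supp n x ⊆ W} w x = ∑_{D ⊆ W \ A, D.card < k} F D =
∑_{j < k} C(N - A.card, j) G j`: as `A ⊆ W`, `supp n x ⊆ W` iff `supp n x \ A ⊆ W \ A`, so the members
of `S` with `supp n x \ A = D` have their support inside `W` iff `D ⊆ W`.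
(3) `choose_cast_eq` with `s = A.card`.
-/

set_option autoImplicit false

namespace Pool.H93.SY

open scoped Pointwise

private theorem sum_sizes {n m k : ℕ} (U : Finset (Fin n)) (G : ℕ → ZMod m) :
    ∑ D ∈ U.powerset.filter (fun D => D.card < k), G D.card =
      ∑ j ∈ Finset.range k, ((U.card.choose j : ℕ) : ZMod m) * G j := by
  classical
  rw [← Finset.sum_fiberwise_of_maps_to (s := U.powerset.filter (fun D => D.card < k))
    (t := Finset.range k) (g := fun D => D.card)
    (fun D hD => Finset.mem_range.2 (Finset.mem_filter.1 hD).2)]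
  refine Finset.sum_congr rfl fun j hj => ?_
  have h1 : (U.powerset.filter (fun D => D.card < k)).filter (fun D => D.card = j) =
      Finset.powersetCard j U := by
    ext D
    rw [Finset.mem_filter, Finset.mem_filter, Finset.mem_powerset, Finset.mem_powersetCard]
    constructor
    · rintro ⟨⟨h2, _⟩, h4⟩; exact ⟨h2, h4⟩
    · rintro ⟨h2, h4⟩; exact ⟨⟨h2, h4 ▸ Finset.mem_range.1 hj⟩, h4⟩
  rw [h1, Finset.sum_congr rfl (g := fun _ => G j) (fun D hD => by
    rw [(Finset.mem_powersetCard.1 hD).2]), Finset.sum_const, Finset.card_powersetCard,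
    nsmul_eq_mul]

private theorem image_sdiff_perm {n : ℕ} {A : Finset (Fin n)} {σ : Equiv.Perm (Fin n)}
    (hA : ∀ i ∈ A, σ i = i) (B : Finset (Fin n)) : B.image σ \ A = (B \ A).image σ := by
  ext j
  simp only [Finset.mem_sdiff, Finset.mem_image]
  constructor
  · rintro ⟨⟨i, hi, rfl⟩, h⟩
    refine ⟨i, ⟨hi, fun hiA => h ?_⟩, rfl⟩
    rw [hA i hiA]
    exact hiA
  · rintro ⟨i, ⟨hi, hiA⟩, rfl⟩
    refine ⟨⟨i, hi, rfl⟩, fun h => hiA ?_⟩
    have h1 := hA _ h
    have h2 : σ i = i := σ.injective h1
    rw [← h2]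
    exact h

theorem drop {n m k : ℕ} {X : Type} [Finite X] [MulAction (Equiv.Perm (Fin n)) X]
    (hsupp : ∀ x : X, (supp n x).card < k) {S : Set X} {A W : Finset (Fin n)} (hS : Fixes A S)
    (hA : A ⊆ W) (hAk : A.card + k + 2 ≤ n) (w : X → ZMod m)
    (hw : ∀ σ : Equiv.Perm (Fin n), Equiv.Perm.sign σ = 1 → (∀ i ∈ A, σ i = i) →
      ∀ x ∈ S, w (σ • x) = w x)
    (hm : ∀ i, 0 < i → i < k → m ∣ (n - W.card).choose i) :
    ∑ᶠ x ∈ {x | x ∈ S ∧ supp n x ⊆ W}, w x = ∑ᶠ x ∈ S, w x := by
  classical
  have : Fintype X := Fintype.ofFinite X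
  set S' : Finset X := Finset.univ.filter (fun x => x ∈ S) with hS'
  have hmem : ∀ x, x ∈ S' ↔ x ∈ S := fun x => by simp [hS']
  obtain ⟨F, hF⟩ : ∃ F : Finset (Fin n) → ZMod m,
      F = fun D => ∑ x ∈ S'.filter (fun x => supp n x \ A = D), w x := ⟨_, rfl⟩
  -- invariance
  have hinv : ∀ D D' : Finset (Fin n), Disjoint D A → Disjoint D' A → D.card = D'.card →
      D.card < k → F D = F D' := by
    intro D D' hD hD' hc hk
    obtain ⟨τ, hτ⟩ : ∃ τ : Fin n → Fin n, τ = fun i =>
      if h : i ∈ D then ((Finset.equivOfCardEq hc ⟨i, h⟩ : D') : Fin n) else i := ⟨_, rfl⟩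
    have hτD : ∀ i ∈ D, τ i ∈ D' := by
      intro i hi
      rw [hτ]
      simp only [dif_pos hi]
      exact (Finset.equivOfCardEq hc ⟨i, hi⟩).2
    have hτA : ∀ i ∈ A, τ i = i := by
      intro i hi
      have h1 : i ∉ D := fun h => (Finset.disjoint_left.1 hD) h hi
      rw [hτ]
      simp only [dif_neg h1]
    have hinj : Set.InjOn τ (A ∪ D : Finset (Fin n)) := by
      intro i hi j hj hij
      rw [Finset.mem_coe, Finset.mem_union] at hi hj
      rcases hi with hi | hi <;> rcases hj with hj | hj
      · rw [hτA i hi, hτA j hj] at hij; exact hij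
      · have h1 := hτD j hj
        rw [← hij, hτA i hi] at h1
        exact absurd hi ((Finset.disjoint_left.1 hD') h1)
      · have h1 := hτD i hi
        rw [hij, hτA j hj] at h1
        exact absurd hj ((Finset.disjoint_left.1 hD') h1)
      · rw [hτ] at hij
        simp only [dif_pos hi, dif_pos hj] at hij
        have h1 := (Finset.equivOfCardEq hc).injective (Subtype.ext hij)
        exact congrArg Subtype.val h1
    have hcard : (A ∪ D).card + 2 ≤ n := by
      have := Finset.card_union_le A D
      omega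
    obtain ⟨σ, hσ1, hσ2⟩ := exists_even_perm (A ∪ D) τ hinj hcard
    have hσA : ∀ i ∈ A, σ i = i := fun i hi => by
      rw [hσ2 i (Finset.mem_union_left _ hi), hτA i hi]
    have hσA' : ∀ i ∈ A, σ⁻¹ i = i := fun i hi => by
      rw [Equiv.Perm.inv_eq_iff_eq]
      exact (hσA i hi).symm
    have hσ1' : Equiv.Perm.sign σ⁻¹ = 1 := by
      rw [Equiv.Perm.sign_inv]; exact hσ1
    have hDD' : D.image σ = D' := by
      refine Finset.eq_of_subset_of_card_le ?_ ?_
      · intro j hj
        obtain ⟨i, hi, rfl⟩ := Finset.mem_image.1 hj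
        rw [hσ2 i (Finset.mem_union_right _ hi)]
        exact hτD i hi
      · rw [Finset.card_image_of_injective _ σ.injective, hc]
    have hD'D : D'.image (σ⁻¹ : Equiv.Perm (Fin n)) = D := by
      rw [← hDD', Finset.image_image]
      have : ((σ⁻¹ : Equiv.Perm (Fin n)) : Fin n → Fin n) ∘ σ = id := by
        funext i; simp
      rw [this, Finset.image_id]
    rw [hF]
    refine Finset.sum_nbij' (fun x => σ • x) (fun x => σ⁻¹ • x) ?_ ?_ ?_ ?_ ?_
    · intro x hx
      rw [Finset.mem_filter, hmem] at hx ⊢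
      refine ⟨?_, ?_⟩
      · have h1 := hS σ hσ1 hσA
        rw [← h1]
        exact Set.smul_mem_smul_set hx.1
      · rw [supp_smul, image_sdiff_perm hσA, hx.2, hDD']
    · intro x hx
      rw [Finset.mem_filter, hmem] at hx ⊢
      refine ⟨?_, ?_⟩
      · have h1 := hS σ⁻¹ hσ1' hσA'
        rw [← h1]
        exact Set.smul_mem_smul_set hx.1
      · rw [supp_smul, image_sdiff_perm hσA', hx.2, hD'D]
    · intro x _; simp
    · intro x _; simp
    · intro x hx
      rw [Finset.mem_filter, hmem] at hx
      exact (hw σ hσ1 hσA x hx.1).symm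
  obtain ⟨G, hG⟩ : ∃ G : ℕ → ZMod m, G = fun j =>
      if h : ∃ D : Finset (Fin n), Disjoint D A ∧ D.card = j then F h.choose else 0 := ⟨_, rfl⟩
  have hFG : ∀ D : Finset (Fin n), Disjoint D A → D.card < k → F D = G D.card := by
    intro D hD hk
    have h : ∃ D' : Finset (Fin n), Disjoint D' A ∧ D'.card = D.card := ⟨D, hD, rfl⟩
    rw [hG]
    simp only [dif_pos h]
    exact hinv D _ hD h.choose_spec.1 h.choose_spec.2.symm hk
  -- the general count
  have key : ∀ U : Finset (Fin n), Disjoint U A →
      ∑ x ∈ S'.filter (fun x => supp n x \ A ⊆ U), w x =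
        ∑ j ∈ Finset.range k, ((U.card.choose j : ℕ) : ZMod m) * G j := by
    intro U hU
    rw [← sum_sizes U G]
    rw [← Finset.sum_fiberwise_of_maps_to (s := S'.filter (fun x => supp n x \ A ⊆ U))
      (t := U.powerset.filter (fun D => D.card < k)) (g := fun x => supp n x \ A)
      (fun x hx => by
        rw [Finset.mem_filter] at hx
        rw [Finset.mem_filter, Finset.mem_powerset]
        exact ⟨hx.2, lt_of_le_of_lt (Finset.card_le_card Finset.sdiff_subset) (hsupp x)⟩)]
    refine Finset.sum_congr rfl fun D hD => ?_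
    rw [Finset.mem_filter, Finset.mem_powerset] at hD
    rw [← hFG D (Finset.disjoint_of_subset_left hD.1 hU) hD.2, hF]
    refine Finset.sum_congr ?_ fun _ _ => rfl
    ext x
    simp only [Finset.mem_filter]
    constructor
    · rintro ⟨⟨h1, _⟩, h2⟩; exact ⟨h1, h2⟩
    · rintro ⟨h1, h2⟩; exact ⟨⟨h1, by rw [h2]; exact hD.1⟩, h2⟩
  have e1 : ∑ᶠ x ∈ S, w x = ∑ x ∈ S'.filter (fun x => supp n x \ A ⊆ Finset.univ \ A), w x := by
    have h1 : S = ((S'.filter (fun x => supp n x \ A ⊆ Finset.univ \ A) : Finset X) : Set X) := by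
      ext x
      rw [Finset.coe_filter, Set.mem_ofPred_eq, hmem]
      exact ⟨fun h => ⟨h, Finset.sdiff_subset_sdiff (Finset.subset_univ _) (le_refl _)⟩,
        fun h => h.1⟩
    conv_lhs => rw [h1]
    exact finsum_mem_coe_finset _ _
  have e2 : ∑ᶠ x ∈ {x | x ∈ S ∧ supp n x ⊆ W}, w x =
      ∑ x ∈ S'.filter (fun x => supp n x \ A ⊆ W \ A), w x := by
    have h1 : {x | x ∈ S ∧ supp n x ⊆ W} =
        ((S'.filter (fun x => supp n x \ A ⊆ W \ A) : Finset X) : Set X) := by
      ext x
      rw [Finset.coe_filter, Set.mem_ofPred_eq, Set.mem_ofPred_eq, hmem]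
      refine and_congr_right fun _ => ?_
      constructor
      · intro h; exact Finset.sdiff_subset_sdiff h (le_refl _)
      · intro h i hi
        by_cases hiA : i ∈ A
        · exact hA hiA
        · exact (Finset.mem_sdiff.1 (h (Finset.mem_sdiff.2 ⟨hi, hiA⟩))).1
    rw [h1]
    exact finsum_mem_coe_finset _ _
  rw [e1, e2, key _ Finset.sdiff_disjoint, key _ Finset.sdiff_disjoint]
  refine Finset.sum_congr rfl fun j hj => ?_
  have hWn : W.card ≤ n := by simpa using Finset.card_le_univ W
  rw [Finset.card_sdiff_of_subset hA, Finset.card_sdiff_of_subset (Finset.subset_univ A),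
    Finset.card_univ, Fintype.card_fin]
  rw [choose_cast_eq hWn (Finset.card_le_card hA) (Finset.mem_range.1 hj) hm]

end Pool.H93.SY
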