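import Pool.Agent.H93.SY.World

/-!
# The value is invariant under permutations of the points

MODULE EQ.

`val_smul`. Proof. Strong induction on `C.rank a`, for all `σ` and `e`
(`induction h : C.rank a using Nat.strong_induction_on generalizing a σ e`, or
`∀ r, ∀ a, C.rank a = r → …`). It is enough to prove `C.val M a e → C.val M (σ • a) (e ∘ σ⁻¹)` for
all `σ`, or to prove the equivalence directly. Put `e' = fun i => e (σ⁻¹ i)`. Use
`C.gate_smul σ a : C.gate (σ • a) = (C.gate a).act σ` and `supp_smul`.
- variable `v`: the label of `σ • a` is `v.act σ`, and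
  `Sum.map id e' (Sum.map id σ (v.2.2 i)) = Sum.map id e (v.2.2 i)` (cases on `v.2.2 i`).
- `and S`: the label of `σ • a` is `and (σ • S)`. The members of `σ • S` are the `σ • x`, `x ∈ S`
  (`Set.mem_smul_set`). The functions `f'` equal to `e'` on `supp n (σ • a) = (supp n a).image σ` are
  the `f ∘ σ⁻¹` with `f = f' ∘ σ` equal to `e` on `supp n a`; `f'` is injective on
  `supp n (σ • a) ∪ supp n (σ • x).node = (supp n a ∪ supp n x.node).image σ` if and only if `f` is
  injective on `supp n a ∪ supp n x.node`; and `C.tr M (σ • x) (f ∘ σ⁻¹) ↔ C.tr M x f` by the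
  induction hypothesis for `x.node` (`C.rank_lt a x`, with `Gate.children` of `.and S` equal to `S`)
  because `(σ • x).node = σ • x.node` and `(σ • x).pos = x.pos` by definition (`rfl`).
- `mod c S`: the label of `σ • a` is `mod c (σ • S)`. The pairs `(W', f')` for `σ • a` and `e'` are
  the `(W.image σ, f ∘ σ⁻¹)` for `(W, f)`, and
  `C.cnt M (σ • S) (W.image σ) (f ∘ σ⁻¹) = C.cnt M S W f`: the set on the left is the image of the
  set on the right under the injective map `x ↦ σ • x` (`Set.ncard_image_of_injective`,
  `MulAction.injective σ`), by the induction hypothesis for the nodes of members of `S` (the set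
  counts only members of `S`) and because `(supp n x.node).image σ ⊆ W.image σ ↔ supp n x.node ⊆ W`
  (`Finset.image_subset_image_iff`).
It is convenient to prove first the implication `C.val M a e → C.val M (σ • a) e'` for all `σ`
under the induction hypothesis in the form of an equivalence, and to get the converse from `σ⁻¹`
(`inv_smul_smul`; `e' ∘ σ = e`): but then the rank of `σ • a` is not controlled, so use the direct
equivalence.

`smul_node`, `smul_pos` are `rfl`.
-/

set_option autoImplicit false

namespace Pool.H93.SY

open scoped Pointwise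

variable {L : FirstOrder.Language.{0, 0}} {m s n : ℕ} {C : Circuit L m s n} {M : Type} [L.Structure (Fin s ⊕ M)]

theorem smul_node (σ : Equiv.Perm (Fin n)) (x : Lit C.N) : (σ • x).node = σ • x.node := rfl

theorem smul_pos (σ : Equiv.Perm (Fin n)) (x : Lit C.N) : (σ • x).pos = x.pos := rfl

private theorem ia (σ : Equiv.Perm (Fin n)) (x : Fin n) : σ⁻¹ (σ x) = x := σ.symm_apply_apply x

private theorem ai (σ : Equiv.Perm (Fin n)) (x : Fin n) : σ (σ⁻¹ x) = x := σ.apply_symm_apply x

private theorem injOn_iff (σ : Equiv.Perm (Fin n)) (B : Finset (Fin n)) (f : Fin n → M) :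
    Set.InjOn (fun i => f (σ⁻¹ i)) (B.image σ : Finset (Fin n)) ↔ Set.InjOn f B := by
  constructor
  · intro h x hx y hy hxy
    have h1 := h (Finset.mem_coe.2 (Finset.mem_image_of_mem σ hx))
      (Finset.mem_coe.2 (Finset.mem_image_of_mem σ hy)) (by
        show f (σ⁻¹ (σ x)) = f (σ⁻¹ (σ y))
        rw [ia, ia]
        exact hxy)
    exact σ.injective h1
  · intro h x hx y hy hxy
    obtain ⟨x', hx', rfl⟩ := Finset.mem_image.1 (Finset.mem_coe.1 hx)
    obtain ⟨y', hy', rfl⟩ := Finset.mem_image.1 (Finset.mem_coe.1 hy)
    have h1 : f (σ⁻¹ (σ x')) = f (σ⁻¹ (σ y')) := hxy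
    rw [ia, ia] at h1
    rw [h hx' hy' h1]

private theorem bijOn_iff (σ : Equiv.Perm (Fin n)) (B : Finset (Fin n)) (f : Fin n → M) :
    Set.BijOn (fun i => f (σ⁻¹ i)) (B.image σ : Finset (Fin n)) Set.univ ↔
      Set.BijOn f B Set.univ := by
  constructor
  · intro h
    refine ⟨fun _ _ => Set.mem_univ _, (injOn_iff σ B f).1 h.injOn, ?_⟩
    intro y hy
    obtain ⟨x, hx, hxy⟩ := h.surjOn hy
    obtain ⟨x', hx', rfl⟩ := Finset.mem_image.1 (Finset.mem_coe.1 hx)
    refine ⟨x', hx', ?_⟩
    have h1 : f (σ⁻¹ (σ x')) = y := hxy
    rwa [ia] at h1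
  · intro h
    refine ⟨fun _ _ => Set.mem_univ _, (injOn_iff σ B f).2 h.injOn, ?_⟩
    intro y hy
    obtain ⟨x, hx, hxy⟩ := h.surjOn hy
    refine ⟨σ x, Finset.mem_coe.2 (Finset.mem_image_of_mem σ hx), ?_⟩
    show f (σ⁻¹ (σ x)) = y
    rw [ia]
    exact hxy

theorem val_smul (σ : Equiv.Perm (Fin n)) (a : C.N) (e : Fin n → M) :
    C.val M (σ • a) (fun i => e (σ⁻¹ i)) ↔ C.val M a e := by
  have main : ∀ r, ∀ a : C.N, C.rank a = r → ∀ e : Fin n → M,
      (C.val M (σ • a) (fun i => e (σ⁻¹ i)) ↔ C.val M a e) := by
    intro r
    induction r using Nat.strong_induction_on with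
    | _ r ih =>
      intro a ha e
      have ihx : ∀ x ∈ (C.gate a).children, ∀ f : Fin n → M,
          C.tr M (σ • x) (fun i => f (σ⁻¹ i)) ↔ C.tr M x f := by
        intro x hx f
        unfold Circuit.tr
        rw [smul_node, smul_pos, ih _ (by rw [← ha]; exact C.rank_lt a x hx) x.node rfl f]
      have hsupp : ∀ b : C.N, supp n (σ • b) = (supp n b).image σ := fun b => supp_smul σ b
      have hg := C.gate_smul σ a
      have hfix : ∀ f : Fin n → M, (∀ i ∈ supp n (σ • a), f (σ⁻¹ i) = e (σ⁻¹ i)) ↔
          (∀ i ∈ supp n a, f i = e i) := by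
        intro f
        rw [hsupp]
        constructor
        · intro h i hi
          have h1 := h (σ i) (Finset.mem_image_of_mem σ hi)
          rwa [ia] at h1
        · intro h i hi
          obtain ⟨j, hj, rfl⟩ := Finset.mem_image.1 hi
          rw [ia]
          exact h j hj
      have hback : ∀ f : Fin n → M, (fun i => (fun j => f (σ j)) (σ⁻¹ i)) = f := by
        intro f
        funext i
        show f (σ (σ⁻¹ i)) = f i
        rw [ai]
      cases hga : C.gate a with
      | var v =>
        rw [hga] at hg
        have hg' : C.gate (σ • a) = .var (v.act σ) := hg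
        rw [val_var C M hg', val_var C M hga]
        have h1 : (fun i => Sum.map id (fun i => e (σ⁻¹ i)) ((v.act σ).2.2 i)) =
            fun i => Sum.map id e (v.2.2 i) := by
          funext i
          show Sum.map id (fun i => e (σ⁻¹ i)) (Sum.map id σ (v.2.2 i)) = Sum.map id e (v.2.2 i)
          cases v.2.2 i with
          | inl t => rfl
          | inr p =>
            show (Sum.inr (e (σ⁻¹ (σ p))) : Fin s ⊕ M) = Sum.inr (e p)
            rw [ia]
        rw [h1]
        exact Iff.rfl
      | and S =>
        rw [hga] at hg ihx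
        have hg' : C.gate (σ • a) = .and (σ • S) := hg
        rw [val_and C M hg', val_and C M hga]
        have hun : ∀ x : Lit C.N, supp n (σ • a) ∪ supp n (σ • x).node =
            (supp n a ∪ supp n x.node).image σ := by
          intro x
          rw [smul_node, hsupp, hsupp, Finset.image_union]
        constructor
        · intro h x hx f hf hi
          refine (ihx x hx f).1 (h (σ • x) (Set.smul_mem_smul_set hx) (fun i => f (σ⁻¹ i))
            ((hfix f).2 hf) ?_)
          rw [hun, injOn_iff]
          exact hi
        · intro h x' hx' f' hf' hi'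
          obtain ⟨x, hx, rfl⟩ := Set.mem_smul_set.1 hx'
          rw [← hback f'] at hf' hi' ⊢
          rw [hun] at hi'
          exact (ihx x hx _).2 (h x hx _ ((hfix (fun j => f' (σ j))).1 hf')
            ((injOn_iff σ _ (fun j => f' (σ j))).1 hi'))
      | mod c S =>
        rw [hga] at hg ihx
        have hg' : C.gate (σ • a) = .mod c (σ • S) := hg
        rw [val_mod C M hg', val_mod C M hga]
        have hcnt : ∀ (W : Finset (Fin n)) (f : Fin n → M),
            C.cnt M (σ • S) (W.image σ) (fun i => f (σ⁻¹ i)) = C.cnt M S W f := by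
          intro W f
          unfold Circuit.cnt
          have h1 : {x | x ∈ σ • S ∧ supp n x.node ⊆ W.image σ ∧
              C.tr M x (fun i => f (σ⁻¹ i))} =
              (fun x => σ • x) '' {x | x ∈ S ∧ supp n x.node ⊆ W ∧ C.tr M x f} := by
            ext y
            constructor
            · rintro ⟨h1, h2, h3⟩
              obtain ⟨x, hx, rfl⟩ := Set.mem_smul_set.1 h1
              refine ⟨x, ⟨hx, ?_, (ihx x hx f).1 h3⟩, rfl⟩
              rw [smul_node, hsupp, Finset.image_subset_image_iff σ.injective] at h2
              exact h2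
            · rintro ⟨x, ⟨h1, h2, h3⟩, rfl⟩
              refine ⟨Set.smul_mem_smul_set h1, ?_, (ihx x h1 f).2 h3⟩
              show supp n (σ • x.node) ⊆ W.image σ
              rw [hsupp, Finset.image_subset_image_iff σ.injective]
              exact h2
          rw [h1, Set.ncard_image_of_injective _ (MulAction.injective σ)]
        constructor
        · intro h W f hW hf hb
          rw [← hcnt W f]
          refine h (W.image σ) (fun i => f (σ⁻¹ i)) ?_ ((hfix f).2 hf) ((bijOn_iff σ W f).2 hb)
          rw [hsupp]
          exact Finset.image_subset_image hW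
        · intro h W' f' hW' hf' hb'
          obtain ⟨W, rfl⟩ : ∃ W : Finset (Fin n), W' = W.image σ := by
            refine ⟨W'.image (⇑(σ⁻¹)), ?_⟩
            rw [Finset.image_image]
            ext i
            rw [Finset.mem_image]
            constructor
            · intro hi
              exact ⟨i, hi, ai σ i⟩
            · rintro ⟨j, hj, rfl⟩
              show σ (σ⁻¹ j) ∈ W'
              rw [ai]
              exact hj
          rw [← hback f'] at hf' hb' ⊢
          rw [hcnt W (fun j => f' (σ j))]
          refine h W (fun j => f' (σ j)) ?_ ((hfix (fun j => f' (σ j))).1 hf')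
            ((bijOn_iff σ W (fun j => f' (σ j))).1 hb')
          rw [hsupp, Finset.image_subset_image_iff σ.injective] at hW'
          exact hW'
  exact main _ a rfl e

theorem tr_smul (σ : Equiv.Perm (Fin n)) (x : Lit C.N) (e : Fin n → M) :
    C.tr M (σ • x) (fun i => e (σ⁻¹ i)) ↔ C.tr M x e := by
  unfold Circuit.tr
  rw [smul_node, smul_pos, val_smul]

end Pool.H93.SY
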