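import Pool.Agent.H93.SY.LiftC

/-!
# Lemmas on placements, part 2

MODULE LB.

`plit_mem_lift`: by definition with `g = f` (`f` is injective on a set containing `A ∪ supp n x.node`).
`lift_insert`: a member of the left side is `plit C y g`, `y = x` or `y ∈ S`, `g = f` on `A`; for `y = x`:
`g = f` on `supp n x.node ⊆ A`, so `plit C x g = plit C x f` (`plit_congr`). Conversely `plit C x f` is a
member by `plit_mem_lift` (`A ∪ supp n x.node = A`).
`lift_union`, `lift_neg`, `lift_empty`, `lift_mono`: by definition (`plit_neg`; `Lit.neg` does not change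
the node). `lift_singleton`: `lift_insert` with `S = ∅` and `lift_empty`, or directly.
`liftL_eq`: `lift_up` with `fixes_supp`.
`liftL_insert`: `liftL_eq` for `insert x Γ` with `A'`, `lift_insert`, and `liftL_eq` for `Γ`.
`liftL_union_neg`: `liftL_eq` for `Γ ∪ Lit.neg '' S` with `A'`, `lift_union`, `lift_neg`, `liftL_eq` for `Γ`
and `lift_up` for `S` with `fixes_and`.
`gate_and_up`, `gate_mod_up`: `pgate0_and`, `pgate0_mod` and `lift_up` (`fixes_and`, `fixes_mod`).
-/

set_option autoImplicit false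

namespace Pool.H93.SY

open scoped Pointwise

variable {L : FirstOrder.Language.{0, 0}} {m s n : ℕ} {C : Circuit L m s n} {n' k : ℕ}

theorem plit_mem_lift {S : Set (Lit C.N)} {A A' : Finset (Fin n)} {f : Fin n → Fin n'}
    (hf : Set.InjOn f A') {x : Lit C.N} (hx : x ∈ S) (hA : A ⊆ A') (hx' : supp n x.node ⊆ A') :
    plit C x f ∈ lift C S A f := by
  refine ⟨x, hx, f, fun _ _ => rfl, hf.mono ?_, rfl⟩
  rw [Finset.coe_subset]
  exact Finset.union_subset hA hx'

theorem lift_insert {S : Set (Lit C.N)} {A : Finset (Fin n)} {f : Fin n → Fin n'}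
    (hf : Set.InjOn f A) {x : Lit C.N} (hx : supp n x.node ⊆ A) :
    lift C (insert x S) A f = insert (plit C x f) (lift C S A f) := by
  ext z
  constructor
  · rintro ⟨y, hy, g, h1, h2, h3⟩
    rcases hy with rfl | hy
    · left
      rw [h3]
      exact plit_congr fun i hi => h1 i (hx hi)
    · exact Or.inr ⟨y, hy, g, h1, h2, h3⟩
  · rintro (h | ⟨y, hy, g, h1, h2, h3⟩)
    · rw [h]
      exact plit_mem_lift hf (Set.mem_insert _ _) subset_rfl hx
    · exact ⟨y, Set.mem_insert_of_mem _ hy, g, h1, h2, h3⟩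

theorem lift_union (S T : Set (Lit C.N)) (A : Finset (Fin n)) (f : Fin n → Fin n') :
    lift C (S ∪ T) A f = lift C S A f ∪ lift C T A f := by
  ext z
  constructor
  · rintro ⟨y, hy | hy, g, h⟩
    · exact Or.inl ⟨y, hy, g, h⟩
    · exact Or.inr ⟨y, hy, g, h⟩
  · rintro (⟨y, hy, g, h⟩ | ⟨y, hy, g, h⟩)
    · exact ⟨y, Or.inl hy, g, h⟩
    · exact ⟨y, Or.inr hy, g, h⟩

theorem lift_neg (S : Set (Lit C.N)) (A : Finset (Fin n)) (f : Fin n → Fin n') :
    lift C (Lit.neg '' S) A f = Lit.neg '' lift C S A f := by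
  ext z
  constructor
  · rintro ⟨y, ⟨x, hx, rfl⟩, g, h1, h2, h3⟩
    exact ⟨plit C x g, ⟨x, hx, g, h1, h2, rfl⟩, by rw [h3, plit_neg]⟩
  · rintro ⟨w, ⟨x, hx, g, h1, h2, rfl⟩, rfl⟩
    exact ⟨x.neg, ⟨x, hx, rfl⟩, g, h1, h2, by rw [plit_neg]⟩

theorem lift_empty (A : Finset (Fin n)) (f : Fin n → Fin n') :
    lift C (∅ : Set (Lit C.N)) A f = ∅ := by
  ext z
  constructor
  · rintro ⟨x, hx, -⟩
    exact absurd hx (Set.notMem_empty x)
  · intro h
    exact absurd h (Set.notMem_empty z)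

theorem lift_singleton {A : Finset (Fin n)} {f : Fin n → Fin n'}
    (hf : Set.InjOn f A) {x : Lit C.N} (hx : supp n x.node ⊆ A) :
    lift C {x} A f = {plit C x f} := by
  have h1 := lift_insert (C := C) hf (S := ∅) hx
  rw [lift_empty] at h1
  simpa using h1

theorem lift_mono {S T : Set (Lit C.N)} (h : S ⊆ T) (A : Finset (Fin n)) (f : Fin n → Fin n') :
    lift C S A f ⊆ lift C T A f := by
  rintro z ⟨x, hx, g, h1⟩
  exact ⟨x, h hx, g, h1⟩

theorem liftL_eq (hC : Small C k) {Γ : Set (Lit C.N)} {A' : Finset (Fin n)}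
    (hA : supp n Γ ⊆ A') (hA' : A'.card ≤ 8 * k) {f : Fin n → Fin n'} (hf : Set.InjOn f A') :
    liftL C Γ f = lift C Γ A' f := by
  have hroom := hC.room
  exact lift_up hC (fixes_supp (by omega) Γ) hA hA' hf

theorem liftL_congr {Γ : Set (Lit C.N)} {f g : Fin n → Fin n'}
    (h : ∀ i ∈ supp n Γ, f i = g i) : liftL C Γ f = liftL C Γ g := lift_congr h

theorem liftL_insert (hC : Small C k) {Γ : Set (Lit C.N)} {x : Lit C.N} {A' : Finset (Fin n)}
    (h1 : supp n Γ ⊆ A') (h2 : supp n (insert x Γ : Set (Lit C.N)) ⊆ A')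
    (h3 : supp n x.node ⊆ A') (hA' : A'.card ≤ 8 * k) {f : Fin n → Fin n'}
    (hf : Set.InjOn f A') :
    liftL C (insert x Γ) f = insert (plit C x f) (liftL C Γ f) := by
  rw [liftL_eq hC h2 hA' hf, lift_insert hf h3, liftL_eq hC h1 hA' hf]

theorem liftL_union_neg (hC : Small C k) {Γ S : Set (Lit C.N)} {a : C.N}
    (hS : C.gate a = .and S) {A' : Finset (Fin n)} (h1 : supp n Γ ⊆ A')
    (h2 : supp n (Γ ∪ Lit.neg '' S : Set (Lit C.N)) ⊆ A') (h3 : supp n a ⊆ A')
    (hA' : A'.card ≤ 8 * k) {f : Fin n → Fin n'} (hf : Set.InjOn f A') :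
    liftL C (Γ ∪ Lit.neg '' S) f = liftL C Γ f ∪ Lit.neg '' lift C S (supp n a) f := by
  have hroom := hC.room
  rw [liftL_eq hC h2 hA' hf, lift_union, lift_neg, liftL_eq hC h1 hA' hf,
    lift_up hC (fixes_and (by omega) hS) h3 hA' hf]

theorem ext_gate (hC : Small C k) (a : C.N) (f : Fin n → Fin n') :
    (ext hC n').gate (pmk C a f) = pgate0 C a f := rfl

theorem gate_and_up (hC : Small C k) {a : C.N} {S : Set (Lit C.N)} (hS : C.gate a = .and S)
    {A' : Finset (Fin n)} (h : supp n a ⊆ A') (hA' : A'.card ≤ 8 * k) {f : Fin n → Fin n'}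
    (hf : Set.InjOn f A') : (ext hC n').gate (pmk C a f) = .and (lift C S A' f) := by
  have hroom := hC.room
  rw [ext_gate, pgate0_and hS, lift_up hC (fixes_and (by omega) hS) h hA' hf]
  rfl

theorem gate_mod_up (hC : Small C k) {a : C.N} {c : ZMod m} {S : Set (Lit C.N)}
    (hS : C.gate a = .mod c S) {A' : Finset (Fin n)} (h : supp n a ⊆ A')
    (hA' : A'.card ≤ 8 * k) {f : Fin n → Fin n'} (hf : Set.InjOn f A') :
    (ext hC n').gate (pmk C a f) = .mod c (lift C S A' f) := by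
  have hroom := hC.room
  rw [ext_gate, pgate0_mod hS, lift_up hC (fixes_mod (by omega) hS) h hA' hf]
  rfl

end Pool.H93.SY
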