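import Pool.Agent.H93.SY.LiftA
import Pool.Agent.H93.SY.Bin
import Pool.Agent.H88.SY.OrbitCount

/-!
# Counting placements

MODULE LD.

`choose_cast_eq'`: `choose_cast_eq`, by cases on `n ≤ n'` or `n' ≤ n` (`Nat.le_total`,
`max_eq_left`, …), with `.symm` in one case.

`pdrop`. The sum of the weights over all placements of the members of `T` (extending the placement `f`
of `A`) is the sum of the weights over `T`. Compare `drop` in `Drop.lean` (and
`Pool/Agent/H88/SY/OrbitCount.lean`), where the placements are the members with support inside `W`.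
Proof. Let `B b = supp n b \ A` (less than `k` points). For a set `D` of points of `Fin n` outside `A` let
`F D = ∑ c b` over the `b ∈ T` with `B b = D`. As in `drop`, `F D = F D₁` if `D`, `D₁` are disjoint from `A` and
have the same number `j < k` of elements (an even permutation fixing the points of `A` maps `D` to `D₁`),
so `F D = G D.card`, and `∑ᶠ b ∈ T, c b = ∑_{j < k} C(n - A.card, j) G j` (there are
`C(n - A.card, j)` sets `D ⊆ univ \ A` with `j` elements, and `n - A.card ≥ k`, so for each `j < k` there is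
one).
Let `T'` be the set of placements `z = pmk C b g`, `b ∈ T`, `g = f` on `A`, `g` injective on `A ∪ supp n b`. For
such `z` let `B' z = g '' (B b)`, a set of `(B b).card` points of `Fin n'` outside `f '' A`. It is well
defined: if `pmk C b g = pmk C b₁ g₁` then by `pmk_fix` there is `σ` fixing the points of `A` with
`σ • b = b₁`, `g₁ (σ i) = g i` on `supp n b`, so `B b₁ = σ (B b)` and `g₁ '' (B b₁) = g '' (B b)`.
Let `D' ⊆ Fin n' \ f '' A`, `D'.card = j < k`, and let `D ⊆ Fin n \ A` be any set with `D.card = j`. Choose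
`g₀` with `g₀ = f` on `A`, `g₀` a bijection from `D` to `D'`. Then `b ↦ pmk C b g₀` is a bijection from
`{b ∈ T | B b = D}` to `{z ∈ T' | B' z = D'}`:
 - it maps into this set: `A ∪ supp n b = A ∪ D`, `g₀` is injective there, and `g₀ '' D = D'`;
 - injective: if `pmk C b g₀ = pmk C b₁ g₀` with `B b = B b₁ = D`, then `pmk_fix` gives `σ` fixing the
   points of `A`, `σ • b = b₁` and `g₀ (σ i) = g₀ i` for `i ∈ supp n b`; `i` and `σ i` are in `A ∪ D`, so
   `σ i = i`; so `σ • b = b` (`supp_fix`);
 - surjective: let `z = pmk C b g`, `g '' (B b) = D'`. Let `τ` be the identity on `A` and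
   `τ i = (g₀ restricted to D)⁻¹ (g i)` for `i ∈ B b`; it is injective on `A ∪ supp n b`; extend it to an
   even `σ` (`exists_even_perm`). `σ • b ∈ T`, `supp n (σ • b) \ A = D`, and
   `pmk C b g = pmk C (σ • b) g₀` by `pmk_eq_iff` (`g₀ (σ i) = g i` for `i ∈ supp n b`).
The weights agree: `c' (pmk C b g₀) = c b`. So the sum of `c'` over `{z ∈ T' | B' z = D'}` is
`F D = G j`, and `∑ᶠ z ∈ T', c' z = ∑_{j < k} C(n' - A.card, j) G j`
(`(univ \ A.image f).card = n' - A.card`). Now `hm`.
All sums may be written as `Finset` sums with `classical`, `Fintype.ofFinite`,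
`finsum_mem_eq_finite_toFinset_sum`, and `Finset.sum_fiberwise_of_maps_to`.
-/

set_option autoImplicit false

namespace Pool.H93.SY

open scoped Pointwise

theorem choose_cast_eq' {m n n' k s j : ℕ} (hs : s ≤ n) (hs' : s ≤ n') (hj : j < k)
    (h : ∀ i, 0 < i → i < k → m ∣ (max n n' - min n n').choose i) :
    (((n - s).choose j : ℕ) : ZMod m) = (((n' - s).choose j : ℕ) : ZMod m) := by
  rcases Nat.le_total n n' with hle | hle
  · rw [max_eq_right hle, min_eq_left hle] at h
    exact (choose_cast_eq hle hs hj h).symm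
  · rw [max_eq_left hle, min_eq_right hle] at h
    exact choose_cast_eq hle hs' hj h

variable {L : FirstOrder.Language.{0, 0}} {m s n : ℕ} {C : Circuit L m s n} {n' k : ℕ}

/-- All placements of the nodes of `T` which extend the placement `f` of the points of `A`. -/
def liftN (C : Circuit L m s n) {n' : ℕ} (T : Set C.N) (A : Finset (Fin n))
    (f : Fin n → Fin n') : Set (PN C n') :=
  {z | ∃ b ∈ T, ∃ g : Fin n → Fin n', (∀ i ∈ A, g i = f i) ∧
    Set.InjOn g (A ∪ supp n b : Finset (Fin n)) ∧ z = pmk C b g}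

private theorem sum_powerset_trunc {α : Type*} [DecidableEq α] (U : Finset α) (k : ℕ)
    (G : ℕ → ZMod m) (hG : ∀ j, k ≤ j → G j = 0) :
    ∑ D ∈ U.powerset, G D.card = ∑ j ∈ Finset.range k, (U.card.choose j : ZMod m) * G j := by
  rw [Finset.sum_powerset_apply_card]
  have h1 : ∑ j ∈ Finset.range (U.card + 1), U.card.choose j • G j =
      ∑ j ∈ Finset.range (U.card + 1 + k), (U.card.choose j : ZMod m) * G j := by
    refine Finset.sum_subset_zero_on_sdiff
      (Finset.range_subset_range.2 (Nat.le_add_right _ _)) ?_ ?_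
    · intro j hj
      rw [Finset.mem_sdiff, Finset.mem_range, Finset.mem_range, not_lt] at hj
      rw [Nat.choose_eq_zero_of_lt (by omega), Nat.cast_zero, zero_mul]
    · intro j _
      rw [nsmul_eq_mul]
  have h2 : ∑ j ∈ Finset.range k, (U.card.choose j : ZMod m) * G j =
      ∑ j ∈ Finset.range (U.card + 1 + k), (U.card.choose j : ZMod m) * G j := by
    refine Finset.sum_subset_zero_on_sdiff
      (Finset.range_subset_range.2 (Nat.le_add_left _ _)) ?_ ?_
    · intro j hj
      rw [Finset.mem_sdiff, Finset.mem_range, Finset.mem_range, not_lt] at hj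
      rw [hG j hj.2, mul_zero]
    · intro j _
      rfl
  rw [h1, h2]

theorem pdrop (hC : Small C k) {T : Set C.N} {A : Finset (Fin n)} (hT : Fixes A T)
    (hA : A.card ≤ 8 * k) {f : Fin n → Fin n'} (hf : Set.InjOn f A) (c : C.N → ZMod m)
    (hc : ∀ σ : Equiv.Perm (Fin n), Equiv.Perm.sign σ = 1 → (∀ i ∈ A, σ i = i) →
      ∀ b ∈ T, c (σ • b) = c b)
    (c' : PN C n' → ZMod m)
    (hc' : ∀ b ∈ T, ∀ g : Fin n → Fin n', (∀ i ∈ A, g i = f i) →
      Set.InjOn g (A ∪ supp n b : Finset (Fin n)) → c' (pmk C b g) = c b)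
    (hm : ∀ j, j < k → (((n - A.card).choose j : ℕ) : ZMod m) =
      (((n' - A.card).choose j : ℕ) : ZMod m)) :
    ∑ᶠ z ∈ liftN C T A f, c' z = ∑ᶠ b ∈ T, c b := by
  classical
  have := Fintype.ofFinite C.N
  have := Fintype.ofFinite (PN C n')
  have hroom := hC.room
  have hn2 : 2 ≤ n := by omega
  obtain ⟨TF, hTF⟩ : ∃ TF : Finset C.N, TF = Finset.univ.filter (· ∈ T) := ⟨_, rfl⟩
  obtain ⟨LF, hLF⟩ : ∃ LF : Finset (PN C n'), LF = Finset.univ.filter (· ∈ liftN C T A f) :=
    ⟨_, rfl⟩
  have hmT : ∀ b, b ∈ TF ↔ b ∈ T := by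
    intro b
    rw [hTF, Finset.mem_filter]
    simp
  have hmL : ∀ z, z ∈ LF ↔ z ∈ liftN C T A f := by
    intro z
    rw [hLF, Finset.mem_filter]
    simp
  have hsT : ∑ᶠ b ∈ T, c b = ∑ b ∈ TF, c b := by
    rw [finsum_mem_eq_sum_of_inter_support_eq]
    ext b
    simp [hmT]
  have hsL : ∑ᶠ z ∈ liftN C T A f, c' z = ∑ z ∈ LF, c' z := by
    rw [finsum_mem_eq_sum_of_inter_support_eq]
    ext b
    simp [hmL]
  rw [hsT, hsL]
  have hTi : ∀ σ : Equiv.Perm (Fin n), Equiv.Perm.sign σ = 1 → (∀ i ∈ A, σ i = i) →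
      ∀ b ∈ T, σ • b ∈ T := by
    intro σ h1 h2 b hb
    have h3 := hT σ h1 h2
    rw [← h3]
    exact Set.smul_mem_smul_set hb
  -- the sum over the nodes with given support outside `A`
  obtain ⟨FD, hFD⟩ : ∃ FD : Finset (Fin n) → ZMod m, ∀ D, FD D =
      ∑ b ∈ TF.filter (fun b => supp n b \ A = D), c b := ⟨_, fun _ => rfl⟩
  have hFDinv : ∀ g : Equiv.Perm (Fin n), Equiv.Perm.sign g = 1 → (∀ a ∈ A, g a = a) →
      ∀ D, FD (D.image g) = FD D := by
    intro g hg1 hg2 D
    have hgA : A.image g = A := by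
      ext y
      rw [Finset.mem_image]
      constructor
      · rintro ⟨a, ha, rfl⟩
        rw [hg2 a ha]
        exact ha
      · intro hy
        exact ⟨y, hy, hg2 y hy⟩
    have himg : ∀ b : C.N, supp n (g • b) \ A = (supp n b \ A).image g := by
      intro b
      rw [supp_smul, Finset.image_sdiff _ _ g.injective, hgA]
    have hg1' : Equiv.Perm.sign g⁻¹ = 1 := by
      rw [Equiv.Perm.sign_inv]
      exact hg1
    have hg2' : ∀ a ∈ A, g⁻¹ a = a := by
      intro a ha
      rw [Equiv.Perm.inv_eq_iff_eq]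
      exact (hg2 a ha).symm
    rw [hFD, hFD]
    symm
    refine Finset.sum_bij (fun b _ => g • b) ?_ ?_ ?_ ?_
    · intro b hb
      rw [Finset.mem_filter, hmT] at hb ⊢
      exact ⟨hTi g hg1 hg2 b hb.1, by rw [himg, hb.2]⟩
    · intro x _ y _ hxy
      exact MulAction.injective g hxy
    · intro y hy
      rw [Finset.mem_filter, hmT] at hy
      refine ⟨g⁻¹ • y, ?_, smul_inv_smul g y⟩
      rw [Finset.mem_filter, hmT]
      refine ⟨hTi g⁻¹ hg1' hg2' y hy.1, ?_⟩
      have h1 := himg (g⁻¹ • y)
      rw [smul_inv_smul, hy.2] at h1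
      exact (Finset.image_injective g.injective h1).symm
    · intro b hb
      rw [Finset.mem_filter, hmT] at hb
      exact (hc g hg1 hg2 b hb.1).symm
  have hFDbig : ∀ D : Finset (Fin n), k ≤ D.card → FD D = 0 := by
    intro D hD
    rw [hFD, Finset.filter_eq_empty_iff.2, Finset.sum_empty]
    intro b _ hb
    have h1 := hC.node b
    have h2 := Finset.card_le_card (Finset.sdiff_subset : supp n b \ A ⊆ supp n b)
    rw [hb] at h2
    omega
  obtain ⟨G, hG, hG0⟩ : ∃ G : ℕ → ZMod m, (∀ D : Finset (Fin n), Disjoint D A →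
      FD D = G D.card) ∧ ∀ j, k ≤ j → G j = 0 := by
    have h1 : ∀ j : ℕ, ∃ v : ZMod m, (∀ D : Finset (Fin n), Disjoint D A → D.card = j →
        FD D = v) ∧ (k ≤ j → v = 0) := by
      intro j
      rcases Nat.lt_or_ge j k with hj | hj
      · obtain ⟨D0, hD0, hD0c⟩ : ∃ D0 : Finset (Fin n), D0 ⊆ Aᶜ ∧ D0.card = j := by
          apply Finset.exists_subset_card_eq
          rw [Finset.card_compl, Fintype.card_fin]
          omega
        have hD0' : Disjoint D0 A := by
          rw [Finset.disjoint_left]
          intro a ha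
          exact Finset.mem_compl.1 (hD0 ha)
        refine ⟨FD D0, fun D hD hDc => ?_, fun h => absurd h (by omega)⟩
        exact Pool.Agent.H88.SY.eq_of_card_eq hFDinv (j := j) (by omega) D D0 hD hD0' hDc hD0c
      · exact ⟨0, fun D _ hDc => hFDbig D (by omega), fun _ => rfl⟩
    choose G hG1 hG2 using h1
    exact ⟨G, fun D hD => hG1 _ D hD rfl, hG2⟩
  have hsum1 : ∑ b ∈ TF, c b =
      ∑ j ∈ Finset.range k, ((n - A.card).choose j : ZMod m) * G j := by
    have h1 : ∑ b ∈ TF, c b = ∑ D ∈ (Aᶜ : Finset (Fin n)).powerset, FD D := by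
      rw [← Finset.sum_fiberwise_of_maps_to (s := TF) (t := (Aᶜ : Finset (Fin n)).powerset)
        (g := fun b => supp n b \ A) (fun b _ => by
          rw [Finset.mem_powerset]
          intro i hi
          exact Finset.mem_compl.2 (Finset.mem_sdiff.1 hi).2)]
      exact Finset.sum_congr rfl fun D _ => (hFD D).symm
    rw [h1]
    have h2 : (Aᶜ : Finset (Fin n)).card = n - A.card := by
      rw [Finset.card_compl, Fintype.card_fin]
    rw [← h2, ← sum_powerset_trunc _ k G hG0]
    refine Finset.sum_congr rfl fun D hD => hG D ?_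
    rw [Finset.disjoint_left]
    intro a ha
    exact Finset.mem_compl.1 (Finset.mem_powerset.1 hD ha)
  -- the points of a placement outside the image of `A`
  have hBz : ∀ z : PN C n', ∃ D' : Finset (Fin n'), ∀ b ∈ T, ∀ g : Fin n → Fin n',
      (∀ i ∈ A, g i = f i) → Set.InjOn g (A ∪ supp n b : Finset (Fin n)) → z = pmk C b g →
      (supp n b \ A).image g = D' := by
    intro z
    by_cases hz : ∃ b ∈ T, ∃ g : Fin n → Fin n', (∀ i ∈ A, g i = f i) ∧
        Set.InjOn g (A ∪ supp n b : Finset (Fin n)) ∧ z = pmk C b g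
    · obtain ⟨b, hb, g, hg1, hg2, hg3⟩ := hz
      refine ⟨(supp n b \ A).image g, fun b₁ _ g₁ h1 h2 h3 => ?_⟩
      obtain ⟨σ, hσ1, hσ2, hσ3, hσ4⟩ := pmk_fix hC hA (g := g) (h := g₁)
        (fun i hi => (hg1 i hi).trans (h1 i hi).symm) hg2 h2 (hg3.symm.trans h3)
      have hσA : A.image σ = A := by
        ext y
        rw [Finset.mem_image]
        constructor
        · rintro ⟨a, ha, rfl⟩
          rw [hσ2 a ha]
          exact ha
        · intro hy
          exact ⟨y, hy, hσ2 y hy⟩
      have e1 : supp n b₁ \ A = (supp n b \ A).image σ := by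
        rw [← hσ3, supp_smul, Finset.image_sdiff _ _ σ.injective, hσA]
      rw [e1, Finset.image_image]
      refine Finset.image_congr ?_
      intro i hi
      exact hσ4 i (Finset.mem_sdiff.1 (Finset.mem_coe.1 hi)).1
    · refine ⟨∅, fun b hb g h1 h2 h3 => absurd ⟨b, hb, g, h1, h2, h3⟩ hz⟩
  choose Bz hBz using hBz
  have hfA : (A.image f).card = A.card := Finset.card_image_of_injOn hf
  have hmapB : ∀ b ∈ T, ∀ g : Fin n → Fin n', (∀ i ∈ A, g i = f i) →
      Set.InjOn g (A ∪ supp n b : Finset (Fin n)) →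
      (supp n b \ A).image g ⊆ ((A.image f)ᶜ : Finset (Fin n')) ∧
        ((supp n b \ A).image g).card = (supp n b \ A).card := by
    intro b hb g h1 h2
    constructor
    · intro y hy
      obtain ⟨i, hi, rfl⟩ := Finset.mem_image.1 hy
      rw [Finset.mem_compl, Finset.mem_image]
      rintro ⟨a, ha, hai⟩
      rw [← h1 a ha] at hai
      have h3 := h2 (Finset.mem_coe.2 (Finset.mem_union_left _ ha))
        (Finset.mem_coe.2 (Finset.mem_union_right _ (Finset.mem_sdiff.1 hi).1)) hai
      exact (Finset.mem_sdiff.1 hi).2 (h3 ▸ ha)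
    · refine Finset.card_image_of_injOn (h2.mono ?_)
      rw [Finset.coe_subset]
      exact Finset.sdiff_subset.trans Finset.subset_union_right
  have hfib : ∀ D' : Finset (Fin n'), D' ⊆ ((A.image f)ᶜ : Finset (Fin n')) →
      ∑ z ∈ LF.filter (fun z => Bz z = D'), c' z = G D'.card := by
    intro D' hD'
    rcases Nat.lt_or_ge D'.card k with hj | hj
    · obtain ⟨D, hD, hDc⟩ : ∃ D : Finset (Fin n), D ⊆ Aᶜ ∧ D.card = D'.card := by
        apply Finset.exists_subset_card_eq
        rw [Finset.card_compl, Fintype.card_fin]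
        omega
      have hDA : ∀ i ∈ D, i ∉ A := fun i hi => Finset.mem_compl.1 (hD hi)
      have hDdis : Disjoint D A := by
        rw [Finset.disjoint_left]
        exact hDA
      let e0 : {x // x ∈ D} ≃ {x // x ∈ D'} := Fintype.equivOfCardEq (by
        rw [Fintype.card_coe, Fintype.card_coe, hDc])
      let g₀ : Fin n → Fin n' := fun i => if h : i ∈ D then (e0 ⟨i, h⟩).1 else f i
      have hg₀D : ∀ i (h : i ∈ D), g₀ i = (e0 ⟨i, h⟩).1 := fun i h => dif_pos h
      have hg₀A : ∀ i ∈ A, g₀ i = f i := fun i hi => dif_neg fun h => hDA i h hi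
      have hg₀D' : ∀ i ∈ D, g₀ i ∈ D' := by
        intro i hi
        rw [hg₀D i hi]
        exact (e0 ⟨i, hi⟩).2
      have hg₀inj : Set.InjOn g₀ (A ∪ D : Finset (Fin n)) := by
        intro i hi j hj hij
        have hi' : i ∈ A ∨ i ∈ D := Finset.mem_union.1 hi
        have hj' : j ∈ A ∨ j ∈ D := Finset.mem_union.1 hj
        rcases hi' with hi' | hi'
        · rcases hj' with hj' | hj'
          · rw [hg₀A i hi', hg₀A j hj'] at hij
            exact hf hi' hj' hij
          · rw [hg₀A i hi'] at hij
            have h1 := Finset.mem_compl.1 (hD' (hg₀D' j hj'))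
            exact absurd (Finset.mem_image.2 ⟨i, hi', hij⟩) h1
        · rcases hj' with hj' | hj'
          · rw [hg₀A j hj'] at hij
            have h1 := Finset.mem_compl.1 (hD' (hg₀D' i hi'))
            exact absurd (Finset.mem_image.2 ⟨j, hj', hij.symm⟩) h1
          · rw [hg₀D i hi', hg₀D j hj'] at hij
            have h1 := e0.injective (Subtype.ext hij)
            exact congrArg Subtype.val h1
      have hg₀im : D.image g₀ = D' := by
        apply Finset.eq_of_subset_of_card_le
        · intro y hy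
          obtain ⟨i, hi, rfl⟩ := Finset.mem_image.1 hy
          exact hg₀D' i hi
        · rw [Finset.card_image_of_injOn (hg₀inj.mono (by
            rw [Finset.coe_subset]
            exact Finset.subset_union_right)), hDc]
      have hin : ∀ b : C.N, supp n b \ A = D →
          Set.InjOn g₀ (A ∪ supp n b : Finset (Fin n)) := by
        intro b hb
        rw [← Finset.union_sdiff_self_eq_union, hb]
        exact hg₀inj
      have hGD : G D'.card = FD D := by
        rw [← hDc]
        exact (hG D hDdis).symm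
      rw [hGD, hFD]
      symm
      refine Finset.sum_bij (fun b _ => pmk C b g₀) ?_ ?_ ?_ ?_
      · intro b hb
        rw [Finset.mem_filter, hmT] at hb
        rw [Finset.mem_filter, hmL]
        refine ⟨⟨b, hb.1, g₀, hg₀A, hin b hb.2, rfl⟩, ?_⟩
        rw [← hBz _ b hb.1 g₀ hg₀A (hin b hb.2) rfl, hb.2, hg₀im]
      · intro b hb b₁ hb₁ he
        rw [Finset.mem_filter, hmT] at hb hb₁
        obtain ⟨σ, hσ1, hσ2, hσ3, hσ4⟩ := pmk_fix hC hA (g := g₀) (h := g₀)
          (fun i _ => rfl) (hin b hb.2) (hin b₁ hb₁.2) he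
        rw [← hσ3]
        symm
        refine supp_fix hn2 b σ hσ1 fun i hi => ?_
        by_cases hiA : i ∈ A
        · exact hσ2 i hiA
        · have h1 : i ∈ D := by
            rw [← hb.2]
            exact Finset.mem_sdiff.2 ⟨hi, hiA⟩
          have h2 : σ i ∈ supp n b₁ := by
            rw [← hσ3, supp_smul]
            exact Finset.mem_image_of_mem _ hi
          have h3 : σ i ∈ A ∪ D := by
            rw [← hb₁.2, Finset.union_sdiff_self_eq_union]
            exact Finset.mem_union_right _ h2
          exact hg₀inj (Finset.mem_coe.2 h3) (Finset.mem_coe.2 (Finset.mem_union_right _ h1))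
            (hσ4 i hi)
      · intro z hz
        rw [Finset.mem_filter, hmL] at hz
        obtain ⟨⟨b, hb, g, hg1, hg2, rfl⟩, hz2⟩ := hz
        rw [← hBz _ b hb g hg1 hg2 rfl] at hz2
        have hback : ∀ y : Fin n', y ∈ D' → ∃ i ∈ D, g₀ i = y := by
          intro y hy
          rw [← hg₀im] at hy
          obtain ⟨i, hi, h1⟩ := Finset.mem_image.1 hy
          exact ⟨i, hi, h1⟩
        have hgD' : ∀ i ∈ supp n b \ A, g i ∈ D' := by
          intro i hi
          rw [← hz2]
          exact Finset.mem_image_of_mem g hi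
        have hτex : ∀ i : Fin n, ∃ j : Fin n, (i ∈ A → j = i) ∧
            (i ∈ supp n b \ A → j ∈ D ∧ g₀ j = g i) := by
          intro i
          by_cases hiA : i ∈ A
          · exact ⟨i, fun _ => rfl, fun h => absurd hiA (Finset.mem_sdiff.1 h).2⟩
          · by_cases hib : i ∈ supp n b \ A
            · obtain ⟨j, hj, hj2⟩ := hback (g i) (hgD' i hib)
              exact ⟨j, fun h => absurd h hiA, fun _ => ⟨hj, hj2⟩⟩
            · exact ⟨i, fun h => absurd h hiA, fun h => absurd h hib⟩
        choose τ hτ1 hτ2 using hτex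
        have hsplit : ∀ i ∈ A ∪ supp n b, i ∈ A ∨ i ∈ supp n b \ A := by
          intro i hi
          by_cases hiA : i ∈ A
          · exact Or.inl hiA
          · exact Or.inr (Finset.mem_sdiff.2 ⟨(Finset.mem_union.1 hi).resolve_left hiA, hiA⟩)
        have hgτ : ∀ i ∈ A ∪ supp n b, g₀ (τ i) = g i := by
          intro i hi
          rcases hsplit i hi with h | h
          · rw [hτ1 i h, hg₀A i h, hg1 i h]
          · exact (hτ2 i h).2
        obtain ⟨σ, hσ1, hσ2⟩ := exists_even_perm (A ∪ supp n b) τ (by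
          intro i hi j hj hij
          apply hg2 hi hj
          rw [← hgτ i hi, ← hgτ j hj, hij]) (by
          have := Finset.card_union_le A (supp n b)
          have := hC.node b
          omega)
        have hσA : ∀ i ∈ A, σ i = i := by
          intro i hi
          rw [hσ2 i (Finset.mem_union_left _ hi), hτ1 i hi]
        have hσAi : A.image σ = A := by
          ext y
          rw [Finset.mem_image]
          constructor
          · rintro ⟨a, ha, rfl⟩
            rw [hσA a ha]
            exact ha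
          · intro hy
            exact ⟨y, hy, hσA y hy⟩
        have hsub : (supp n b \ A).image σ = D := by
          apply Finset.eq_of_subset_of_card_le
          · intro y hy
            obtain ⟨i, hi, rfl⟩ := Finset.mem_image.1 hy
            rw [hσ2 i (Finset.mem_union_right _ (Finset.mem_sdiff.1 hi).1)]
            exact (hτ2 i hi).1
          · rw [Finset.card_image_of_injective _ σ.injective, hDc, ← hz2,
              (hmapB b hb g hg1 hg2).2]
        refine ⟨σ • b, ?_, ?_⟩
        · rw [Finset.mem_filter, hmT]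
          refine ⟨hTi σ hσ1 hσA b hb, ?_⟩
          have e1 : supp n (σ • b) \ A = (supp n b \ A).image σ := by
            rw [supp_smul, Finset.image_sdiff _ _ σ.injective, hσAi]
          rw [e1, hsub]
        · symm
          refine pmk_eq_iff.2 ⟨σ, hσ1, rfl, fun i hi => ?_⟩
          rw [hσ2 i (Finset.mem_union_right _ hi), hgτ i (Finset.mem_union_right _ hi)]
      · intro b hb
        rw [Finset.mem_filter, hmT] at hb
        exact (hc' b hb.1 g₀ hg₀A (hin b hb.2)).symm
    · rw [hG0 _ hj, Finset.filter_eq_empty_iff.2, Finset.sum_empty]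
      intro z hz hzD
      rw [hmL] at hz
      obtain ⟨b, hb, g, hg1, hg2, rfl⟩ := hz
      rw [← hBz _ b hb g hg1 hg2 rfl] at hzD
      have h1 := (hmapB b hb g hg1 hg2).2
      rw [hzD] at h1
      have h2 := hC.node b
      have h3 := Finset.card_le_card (Finset.sdiff_subset : supp n b \ A ⊆ supp n b)
      omega
  have hsum2 : ∑ z ∈ LF, c' z =
      ∑ j ∈ Finset.range k, ((n' - A.card).choose j : ZMod m) * G j := by
    have h1 : ∑ z ∈ LF, c' z = ∑ D' ∈ ((A.image f)ᶜ : Finset (Fin n')).powerset, G D'.card := by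
      rw [← Finset.sum_fiberwise_of_maps_to (s := LF)
        (t := ((A.image f)ᶜ : Finset (Fin n')).powerset) (g := Bz) (fun z hz => by
          rw [hmL] at hz
          obtain ⟨b, hb, g, hg1, hg2, rfl⟩ := hz
          rw [Finset.mem_powerset, ← hBz _ b hb g hg1 hg2 rfl]
          exact (hmapB b hb g hg1 hg2).1)]
      exact Finset.sum_congr rfl fun D' hD' => hfib D' (Finset.mem_powerset.1 hD')
    have h2 : ((A.image f)ᶜ : Finset (Fin n')).card = n' - A.card := by
      rw [Finset.card_compl, Fintype.card_fin, hfA]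
    rw [h1, sum_powerset_trunc _ k G hG0, h2]
  rw [hsum1, hsum2]
  refine Finset.sum_congr rfl fun j hj => ?_
  rw [hm j (Finset.mem_range.1 hj)]

end Pool.H93.SY
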