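import Pool.Agent.H93.SY.LiftB

/-!
# The rules lift, part 2: the simple rules for counting gates

MODULE LF.

In every lemma extend `f` from `supp n Γ` to `f'` injective on a larger set `A'` (`exists_extend`,
`8 k + 8 ≤ n'`); `liftL C Γ f = liftL C Γ f'` by `liftL_congr`. Labels by `gate_mod_up`, membership by
`plit_mem_lift`.
`ext_step_total`: let `a₀` be the gate for `c = 0`, `A' = supp n Γ ∪ supp n a₀`, `f'` injective on `A'`,
`T = lift C S A' f'`. For every `c` let `a` be the gate in `Γ` with label `mod c S`; extend `f'` from `A'` to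
`f_c` injective on `A' ∪ supp n a`. The label of `pmk C a f_c` is
`mod c (lift C S (A' ∪ supp n a) f_c)`, and `lift C S (A' ∪ supp n a) f_c = lift C S A' f_c` (`lift_up`;
`S` is fixed by the even permutations fixing the points of `supp n a₀ ⊆ A'`, `fixes_mod`,
`Fixes.mono`) `= lift C S A' f' = T` (`lift_congr`). And `⟨pmk C a f_c, true⟩ ∈ liftL C Γ f_c =
liftL C Γ f'`. Rule `total` with `T`.
`ext_step_excl`: `A' = supp n Γ ∪ supp n a ∪ supp n b`; both labels with `lift C S A' f'`. Rule `excl`.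
`ext_step_one`, `ext_step_zero`: `A' = supp n Γ ∪ supp n a ∪ supp n x.node`;
`lift C {x} A' f' = {plit C x f'}` (`lift_singleton`); `plit C x.neg f' = (plit C x f').neg` (`plit_neg`).
-/

set_option autoImplicit false

namespace Pool.H93.SY

open scoped Pointwise
open FirstOrder.Language

variable {L : FirstOrder.Language.{0, 0}} [L.IsRelational] {m s n : ℕ} {C : Circuit L m s n}
  {n' k : ℕ} {D' : Set (Atom L (Fin s ⊕ Fin n') × Bool)}

omit [L.IsRelational] in
private theorem grow {Γ : Set (Lit C.N)} {f : Fin n → Fin n'} (hf : Set.InjOn f (supp n Γ))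
    (A' : Finset (Fin n)) (hA : supp n Γ ⊆ A') (hA' : A'.card ≤ n') :
    ∃ f' : Fin n → Fin n', (∀ i ∈ supp n Γ, f' i = f i) ∧ Set.InjOn f' A' ∧
      liftL C Γ f = liftL C Γ f' := by
  obtain ⟨f', h1, h2⟩ := exists_extend (supp n Γ) A' hA f hf (Or.inr (by
    rw [Nat.card_fin]
    exact hA'))
  exact ⟨f', h1, h2, liftL_congr fun i hi => (h1 i hi).symm⟩

theorem ext_step_total (hC : Small C k) {ψ : L.Sentence} (h8 : 8 * k + 8 ≤ n')
    (P' : Set (Set (Lit (PN C n')))) {Γ : Set (Lit C.N)} (hΓ : (supp n Γ).card < k)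
    {f : Fin n → Fin n'} (hf : Set.InjOn f (supp n Γ)) {S : Set (Lit C.N)}
    (h1 : ∀ c, ∃ a, C.gate a = .mod c S ∧ ⟨a, true⟩ ∈ Γ) :
    Step ψ D' (ext hC n') P' (liftL C Γ f) := by
  have hroom := hC.room
  obtain ⟨a₀, ha₀, ha₀'⟩ := h1 0
  have hna := hC.node a₀
  have hc1 := Finset.card_union_le (supp n Γ) (supp n a₀)
  obtain ⟨f', hf1, hf2, hf3⟩ := grow hf (supp n Γ ∪ supp n a₀) Finset.subset_union_left
    (by omega)
  rw [hf3]
  refine .total (S := lift C S (supp n Γ ∪ supp n a₀) f') fun c => ?_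
  obtain ⟨a, ha, ha'⟩ := h1 c
  have hnc := hC.node a
  have hc2 := Finset.card_union_le (supp n Γ ∪ supp n a₀) (supp n a)
  obtain ⟨g, hg1, hg2⟩ := exists_extend (supp n Γ ∪ supp n a₀)
    (supp n Γ ∪ supp n a₀ ∪ supp n a) Finset.subset_union_left f' hf2
    (Or.inr (by rw [Nat.card_fin]; omega))
  have hS : Fixes (supp n Γ ∪ supp n a₀) S :=
    (fixes_mod (by omega) ha₀).mono Finset.subset_union_right
  refine ⟨pmk C a g, ?_, ?_⟩
  · rw [gate_mod_up hC ha (A' := supp n Γ ∪ supp n a₀ ∪ supp n a) Finset.subset_union_right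
      (by omega) hg2, ← lift_up hC hS (A' := supp n Γ ∪ supp n a₀ ∪ supp n a)
      Finset.subset_union_left (by omega) hg2, lift_congr hg1]
  · have e1 : liftL C Γ f' = liftL C Γ g :=
      liftL_congr fun i hi => (hg1 i (Finset.mem_union_left _ hi)).symm
    rw [e1]
    exact plit_mem_lift hg2 ha' (Finset.subset_union_left.trans Finset.subset_union_left)
      Finset.subset_union_right

theorem ext_step_excl (hC : Small C k) {ψ : L.Sentence} (h8 : 8 * k + 8 ≤ n')
    (P' : Set (Set (Lit (PN C n')))) {Γ : Set (Lit C.N)} (hΓ : (supp n Γ).card < k)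
    {f : Fin n → Fin n'} (hf : Set.InjOn f (supp n Γ)) {S : Set (Lit C.N)} {a b : C.N}
    {c d : ZMod m} (ha : C.gate a = .mod c S) (hb : C.gate b = .mod d S) (hcd : c ≠ d)
    (ha' : ⟨a, false⟩ ∈ Γ) (hb' : ⟨b, false⟩ ∈ Γ) :
    Step ψ D' (ext hC n') P' (liftL C Γ f) := by
  have hroom := hC.room
  have hna := hC.node a
  have hnb := hC.node b
  have h1 := Finset.card_union_le (supp n Γ) (supp n a)
  have h2 := Finset.card_union_le (supp n Γ ∪ supp n a) (supp n b)
  have hA1 : supp n Γ ⊆ supp n Γ ∪ supp n a ∪ supp n b :=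
    Finset.subset_union_left.trans Finset.subset_union_left
  have hA2 : supp n a ⊆ supp n Γ ∪ supp n a ∪ supp n b :=
    Finset.subset_union_right.trans Finset.subset_union_left
  have hA3 : supp n b ⊆ supp n Γ ∪ supp n a ∪ supp n b := Finset.subset_union_right
  obtain ⟨f', hf1, hf2, hf3⟩ := grow hf (supp n Γ ∪ supp n a ∪ supp n b) hA1 (by omega)
  rw [hf3]
  exact .excl (a := pmk C a f') (b := pmk C b f') (gate_mod_up hC ha hA2 (by omega) hf2)
    (gate_mod_up hC hb hA3 (by omega) hf2) hcd (plit_mem_lift hf2 ha' hA1 hA2)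
    (plit_mem_lift hf2 hb' hA1 hA3)

theorem ext_step_one (hC : Small C k) {ψ : L.Sentence} (h8 : 8 * k + 8 ≤ n')
    (P' : Set (Set (Lit (PN C n')))) {Γ : Set (Lit C.N)} (hΓ : (supp n Γ).card < k)
    {f : Fin n → Fin n'} (hf : Set.InjOn f (supp n Γ)) {a : C.N} {x : Lit C.N}
    (ha : C.gate a = .mod 1 {x}) (hx : x.neg ∈ Γ) (ha' : ⟨a, true⟩ ∈ Γ) :
    Step ψ D' (ext hC n') P' (liftL C Γ f) := by
  have hroom := hC.room
  have hna := hC.node a
  have hnx := hC.node x.node
  have h1 := Finset.card_union_le (supp n Γ) (supp n a)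
  have h2 := Finset.card_union_le (supp n Γ ∪ supp n a) (supp n x.node)
  have hA1 : supp n Γ ⊆ supp n Γ ∪ supp n a ∪ supp n x.node :=
    Finset.subset_union_left.trans Finset.subset_union_left
  have hA2 : supp n a ⊆ supp n Γ ∪ supp n a ∪ supp n x.node :=
    Finset.subset_union_right.trans Finset.subset_union_left
  have hA3 : supp n x.node ⊆ supp n Γ ∪ supp n a ∪ supp n x.node := Finset.subset_union_right
  obtain ⟨f', hf1, hf2, hf3⟩ := grow hf (supp n Γ ∪ supp n a ∪ supp n x.node) hA1 (by omega)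
  rw [hf3]
  refine .one (a := pmk C a f') (x := plit C x f') ?_ ?_ (plit_mem_lift hf2 ha' hA1 hA2)
  · rw [gate_mod_up hC ha hA2 (by omega) hf2, lift_singleton hf2 hA3]
    rfl
  · exact plit_mem_lift hf2 hx hA1 hA3

theorem ext_step_zero (hC : Small C k) {ψ : L.Sentence} (h8 : 8 * k + 8 ≤ n')
    (P' : Set (Set (Lit (PN C n')))) {Γ : Set (Lit C.N)} (hΓ : (supp n Γ).card < k)
    {f : Fin n → Fin n'} (hf : Set.InjOn f (supp n Γ)) {a : C.N} {x : Lit C.N}
    (ha : C.gate a = .mod 0 {x}) (hx : x ∈ Γ) (ha' : ⟨a, true⟩ ∈ Γ) :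
    Step ψ D' (ext hC n') P' (liftL C Γ f) := by
  have hroom := hC.room
  have hna := hC.node a
  have hnx := hC.node x.node
  have h1 := Finset.card_union_le (supp n Γ) (supp n a)
  have h2 := Finset.card_union_le (supp n Γ ∪ supp n a) (supp n x.node)
  have hA1 : supp n Γ ⊆ supp n Γ ∪ supp n a ∪ supp n x.node :=
    Finset.subset_union_left.trans Finset.subset_union_left
  have hA2 : supp n a ⊆ supp n Γ ∪ supp n a ∪ supp n x.node :=
    Finset.subset_union_right.trans Finset.subset_union_left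
  have hA3 : supp n x.node ⊆ supp n Γ ∪ supp n a ∪ supp n x.node := Finset.subset_union_right
  obtain ⟨f', hf1, hf2, hf3⟩ := grow hf (supp n Γ ∪ supp n a ∪ supp n x.node) hA1 (by omega)
  rw [hf3]
  refine .zero (a := pmk C a f') (x := plit C x f') ?_ ?_ (plit_mem_lift hf2 ha' hA1 hA2)
  · rw [gate_mod_up hC ha hA2 (by omega) hf2, lift_singleton hf2 hA3]
    rfl
  · exact plit_mem_lift hf2 hx hA1 hA3

end Pool.H93.SY
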