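import Pool.Agent.H93.SY.LiftB
import Pool.Agent.H93.SY.Cnt

/-!
# The size of the lift

MODULE LN.

`card_range_le` (Mathlib only). Proof. Every value `F i f` depends only on `i` and on the restriction of
`f` to `A i`, so the range is covered by the image of `Σ i, (A i → Fin n')` under
`(i, u) ↦ F i (extension of u by the point 0)` (`Fin n'` is nonempty). The number of these pairs is
`∑ i, n' ^ (A i).card ≤ Nat.card ι * n' ^ d` (`Nat.pow_le_pow_right`, `Nat.card_sigma`,
`Nat.card_fun`, or `Set.ncard_le_ncard`, `Nat.card_range_of_…`, `Nat.card_le_card_of_surjective`).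
`card_PN`: `ι = C.N`, `A = supp n`, `F = pmk C`, `d = k - 1`, the range is everything (`exists_pmk`);
`pmk_congr`.
`card_liftL`: `ι = Lns` (a finite set, as `Lit C.N` is finite), `F Γ f = liftL C Γ f`, `liftL_congr`; the set
is contained in the range.
-/

set_option autoImplicit false

namespace Pool.H93.SY

open scoped Pointwise

theorem card_range_le {ι Y : Type} [Finite ι] {n n' d : ℕ} (A : ι → Finset (Fin n))
    (hA : ∀ i, (A i).card ≤ d) (hn' : 1 ≤ n') (F : ι → (Fin n → Fin n') → Y)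
    (hF : ∀ i f g, (∀ j ∈ A i, f j = g j) → F i f = F i g) :
    (Set.range (fun p : ι × (Fin n → Fin n') => F p.1 p.2)).ncard ≤ Nat.card ι * n' ^ d := by
  classical
  have := Fintype.ofFinite ι
  let z : Fin n' := ⟨0, hn'⟩
  let G : (Σ i : ι, ({j // j ∈ A i} → Fin n')) → Y := fun q =>
    F q.1 (fun j => if h : j ∈ A q.1 then q.2 ⟨j, h⟩ else z)
  have h1 : Set.range (fun p : ι × (Fin n → Fin n') => F p.1 p.2) ⊆ Set.range G := by
    rintro _ ⟨⟨i, f⟩, rfl⟩
    refine ⟨⟨i, fun j => f j.1⟩, ?_⟩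
    refine hF i _ _ ?_
    intro j hj
    show (if h : j ∈ A i then f j else z) = f j
    rw [dif_pos hj]
  have h2 : (Set.range G).ncard ≤ Nat.card (Σ i : ι, ({j // j ∈ A i} → Fin n')) := by
    rw [← Set.image_univ, ← Set.ncard_univ (α := Σ i : ι, ({j // j ∈ A i} → Fin n'))]
    exact Set.ncard_image_le Set.finite_univ
  refine (Set.ncard_le_ncard h1 (Set.finite_range G)).trans (h2.trans ?_)
  rw [Nat.card_sigma]
  have h3 : ∀ i ∈ (Finset.univ : Finset ι), Nat.card ({j // j ∈ A i} → Fin n') ≤ n' ^ d := by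
    intro i _
    rw [Nat.card_fun, Nat.card_fin, Nat.card_eq_fintype_card, Fintype.card_coe]
    exact Nat.pow_le_pow_right hn' (hA i)
  refine (Finset.sum_le_sum h3).trans ?_
  rw [Finset.sum_const, Finset.card_univ, Nat.card_eq_fintype_card, smul_eq_mul]

variable {L : FirstOrder.Language.{0, 0}} {m s n : ℕ} {C : Circuit L m s n} {n' k : ℕ}

theorem card_PN (hC : Small C k) (hn' : 1 ≤ n') :
    Nat.card (PN C n') ≤ Nat.card C.N * n' ^ (k - 1) := by
  have h1 := card_range_le (fun a : C.N => supp n a)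
    (fun a => Nat.le_sub_one_of_lt (hC.node a)) hn' (fun a (f : Fin n → Fin n') => pmk C a f)
    (fun a f g h => pmk_congr h)
  have h2 : Set.range (fun p : C.N × (Fin n → Fin n') => pmk C p.1 p.2) = Set.univ := by
    rw [Set.eq_univ_iff_forall]
    intro z
    obtain ⟨a, f, rfl⟩ := exists_pmk z
    exact ⟨(a, f), rfl⟩
  rw [h2, Set.ncard_univ] at h1
  exact h1

theorem card_liftL (hC : Small C k) (hn' : 1 ≤ n') {Lns : Set (Set (Lit C.N))}
    (hL : ∀ Γ ∈ Lns, (supp n Γ).card < k) :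
    {Δ : Set (Lit (PN C n')) | ∃ Γ ∈ Lns, ∃ f : Fin n → Fin n', Set.InjOn f (supp n Γ) ∧
      Δ = liftL C Γ f}.ncard ≤ Lns.ncard * n' ^ (k - 1) := by
  have hfin : Finite Lns := (Set.toFinite Lns).to_subtype
  have h1 := card_range_le (fun Γ : Lns => supp n Γ.1)
    (fun Γ => Nat.le_sub_one_of_lt (hL Γ.1 Γ.2)) hn'
    (fun Γ (f : Fin n → Fin n') => liftL C Γ.1 f) (fun Γ f g h => liftL_congr h)
  rw [Nat.card_coe_set_eq] at h1
  refine (Set.ncard_le_ncard ?_ (Set.toFinite _)).trans h1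
  rintro Δ ⟨Γ, hΓ, f, -, rfl⟩
  exact ⟨(⟨Γ, hΓ⟩, f), rfl⟩

end Pool.H93.SY
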