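import Pool.Agent.H93.SY.LiftB
import Pool.Agent.H93.SY.LiftD

/-!
# The rules lift, part 3: addition

MODULE LS.

`Piece` collects the hypotheses of the rule `sum`: `hT`, `hd`, `hp`.
`piece_fix`. The set `(fun b => ⟨b, true⟩) '' T` is fixed by the even permutations fixing the points of
`supp n p` (`fixes_and`), and `σ • ⟨b, true⟩ = ⟨σ • b, true⟩` (`rfl`), so `σ • T = T`.
`piece_smul`. For an even `σ` fixing the points of `supp n p` and `b ∈ T`: `σ • b ∈ T` and
`C.gate (σ • b) = .mod (c b) (σ • S b)` (`C.gate_smul`, `Gate.act`), and `= .mod (c (σ • b)) (S (σ • b))`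
(`hT`), so `c (σ • b) = c b`, `S (σ • b) = σ • S b` (`Gate.mod.injEq`).
`piece_supp`. Let `b ∈ T`, `x ∈ S b`, `B = supp n p ∪ supp n x.node`, `2 * B.card + 3 ≤ n`. For an even `σ`
fixing the points of `B`: `σ • x = x`, `x ∈ σ • S b = S (σ • b)`, so `σ • b = b` (`hd`), hence
`supp n b ⊆ B` by `supp_min`.

`lift_pieces_disjoint`. Let `z₁ = pmk C b₁ g₁`, `z₂ = pmk C b₂ g₂` be in `liftN C T A' f`, and let
`w` be in `lift C (S b₁) (supp n b₁) g₁` and in `lift C (S b₂) (supp n b₂) g₂`. By `lift_up` (`S b` is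
fixed by the even permutations fixing the points of `supp n b`, `fixes_mod`; `g₁` is injective on
`A' ∪ supp n b₁`) `w ∈ lift C (S b₁) (A' ∪ supp n b₁) g₁`: `w = plit C x₁ h₁`, `x₁ ∈ S b₁`, `h₁ = g₁` on
`A' ∪ supp n b₁` and `h₁` is injective on `A' ∪ supp n b₁ ∪ supp n x₁.node`; the same for `b₂`. `h₁` and
`h₂` agree on `A'` (with `f`), so by `pmk_fix` there is an even `σ` fixing the points of `A'` with
`σ • x₁.node = x₂.node` and `h₂ (σ i) = h₁ i` on `supp n x₁.node`; so `σ • x₁ = x₂` (the signs are equal).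
By `piece_smul`, `σ • b₁ ∈ T` and `x₂ = σ • x₁ ∈ S (σ • b₁)`, so `σ • b₁ = b₂` by `hd`. For
`i ∈ supp n b₁ ⊆ A' ∪ supp n x₁.node` (`piece_supp`): `h₂ (σ i) = h₁ i` (on `A'`: `σ i = i` and both are
`f i`), and `g₂ (σ i) = h₂ (σ i)` (`σ i ∈ supp n b₂`), `h₁ i = g₁ i`. So `pmk C b₁ g₁ = pmk C b₂ g₂`
(`pmk_eq_iff`).
`lift_pieces_union`. `lift C (⋃ b ∈ T, S b) A' f = ⋃ z ∈ liftN C T A' f, ((ext hC n').gate z).children`.
(⊆) `plit C x h`, `x ∈ S b`, `h = f` on `A'`, injective on `A' ∪ supp n x.node ⊇ supp n b`: then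
`z = pmk C b h ∈ liftN`, the label of `z` is `mod (c b) (lift C (S b) (supp n b) h)` (`ext_gate`,
`pgate0_mod`), and `plit C x h` is a member of this set. (⊇) `z = pmk C b g`; its children are
`lift C (S b) (supp n b) g = lift C (S b) (A' ∪ supp n b) g` (`lift_up`), and a member of it is a
placement of a member of `S b` by a function equal to `g`, hence to `f`, on `A'`.
`ext_step_sum`. `A' = supp n Γ ∪ supp n a ∪ supp n p`, `f'` injective on `A'`, `T' = liftN C T A' f'`,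
`S' z = ((ext hC n').gate z).children`, `c' z = d` if the label of `z` is `mod d U` and `0` otherwise. The
label of `pmk C p f'` is `and (lift C ((fun b => ⟨b, true⟩) '' T) A' f')` (`gate_and_up`), and this set
is `(fun z => ⟨z, true⟩) '' T'` by definition. The label of `pmk C a f'` is
`mod (∑ᶠ b ∈ T, c b) (lift C (⋃ b ∈ T, S b) A' f')` (`gate_mod_up`), `lift_pieces_union`, and
`∑ᶠ z ∈ T', c' z = ∑ᶠ b ∈ T, c b` by `pdrop` with `A = A'` (`hc` by `piece_smul`, `hm` by `choose_cast_eq'`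
with `s = A'.card`, `A'.card ≤ n'` since `A'.card ≤ 3 k`). Rule `sum`.
-/

set_option autoImplicit false

namespace Pool.H93.SY

open scoped Pointwise
open FirstOrder.Language

variable {L : FirstOrder.Language.{0, 0}} {m s n : ℕ} {C : Circuit L m s n} {n' k : ℕ}

/-- The hypotheses of the rule `sum` on the summands. -/
structure Piece (C : Circuit L m s n) (p : C.N) (T : Set C.N) (c : C.N → ZMod m)
    (S : C.N → Set (Lit C.N)) : Prop where
  gate : ∀ b ∈ T, C.gate b = .mod (c b) (S b)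
  disj : T.PairwiseDisjoint S
  conj : C.gate p = .and ((fun b => ⟨b, true⟩) '' T)

theorem piece_fix (hC : Small C k) {p : C.N} {T : Set C.N} {c : C.N → ZMod m}
    {S : C.N → Set (Lit C.N)} (h : Piece C p T c S) : Fixes (supp n p) T := by
  intro σ h1 h2
  have hn : 2 ≤ n := by
    have := hC.room
    omega
  have h3 := fixes_and hn h.conj σ h1 h2
  ext b
  rw [Set.mem_smul_set_iff_inv_smul_mem]
  have h4 : (⟨b, true⟩ : Lit C.N) ∈ σ • ((fun b => (⟨b, true⟩ : Lit C.N)) '' T) ↔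
      (⟨b, true⟩ : Lit C.N) ∈ (fun b => (⟨b, true⟩ : Lit C.N)) '' T := by
    rw [h3]
  rw [Set.mem_smul_set_iff_inv_smul_mem] at h4
  constructor
  · intro hb
    obtain ⟨b', hb', hbb⟩ := h4.1 ⟨σ⁻¹ • b, hb, rfl⟩
    have h5 : b' = b := congrArg Lit.node hbb
    rwa [← h5]
  · intro hb
    obtain ⟨b', hb', hbb⟩ := h4.2 ⟨b, hb, rfl⟩
    have h5 : b' = σ⁻¹ • b := congrArg Lit.node hbb
    rwa [← h5]

theorem piece_smul (hC : Small C k) {p : C.N} {T : Set C.N} {c : C.N → ZMod m}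
    {S : C.N → Set (Lit C.N)} (h : Piece C p T c S) {σ : Equiv.Perm (Fin n)}
    (hσ : Equiv.Perm.sign σ = 1) (hσ' : ∀ i ∈ supp n p, σ i = i) {b : C.N} (hb : b ∈ T) :
    σ • b ∈ T ∧ c (σ • b) = c b ∧ S (σ • b) = σ • S b := by
  have h1 := piece_fix hC h σ hσ hσ'
  have h2 : σ • b ∈ T := by
    rw [← h1]
    exact Set.smul_mem_smul_set hb
  have h3 := C.gate_smul σ b
  rw [h.gate b hb, h.gate _ h2] at h3
  have h4 : (Gate.mod (c (σ • b)) (S (σ • b)) : Gate (Atom L (Fin s ⊕ Fin n)) C.N m) =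
      .mod (c b) (σ • S b) := h3
  injection h4 with h5 h6
  exact ⟨h2, h5, h6⟩

theorem piece_supp (hC : Small C k) {p : C.N} {T : Set C.N} {c : C.N → ZMod m}
    {S : C.N → Set (Lit C.N)} (h : Piece C p T c S) {b : C.N} (hb : b ∈ T) {x : Lit C.N}
    (hx : x ∈ S b) : supp n b ⊆ supp n p ∪ supp n x.node := by
  have hroom := hC.room
  have h1 := hC.node p
  have h2 := hC.node x.node
  have h3 := Finset.card_union_le (supp n p) (supp n x.node)
  apply supp_min b _ (by omega)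
  intro σ hσ hσ'
  obtain ⟨h4, -, h6⟩ := piece_smul hC h hσ
    (fun i hi => hσ' i (Finset.mem_union_left _ hi)) hb
  have h7 : σ • x = x := Lit.ext (supp_fix (by omega) x.node σ hσ
    (fun i hi => hσ' i (Finset.mem_union_right _ hi))) rfl
  have h8 : x ∈ S (σ • b) := by
    rw [h6, ← h7]
    exact Set.smul_mem_smul_set hx
  exact h.disj.elim h4 hb (Set.not_disjoint_iff.2 ⟨x, h8, hx⟩)

theorem lift_pieces_disjoint (hC : Small C k) {p : C.N} {T : Set C.N} {c : C.N → ZMod m}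
    {S : C.N → Set (Lit C.N)} (h : Piece C p T c S) {A' : Finset (Fin n)}
    (hp : supp n p ⊆ A') (hA' : A'.card ≤ 6 * k) (f : Fin n → Fin n') :
    (liftN C T A' f).PairwiseDisjoint (fun z => ((ext hC n').gate z).children) := by
  have hroom := hC.room
  rintro z₁ ⟨b₁, hb₁, g₁, hg₁, hi₁, rfl⟩ z₂ ⟨b₂, hb₂, g₂, hg₂, hi₂, rfl⟩ hne
  show Disjoint ((ext hC n').gate (pmk C b₁ g₁)).children
    ((ext hC n').gate (pmk C b₂ g₂)).children
  rw [Set.disjoint_left]
  intro w hw1 hw2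
  apply hne
  have hup : ∀ b ∈ T, ∀ g : Fin n → Fin n', Set.InjOn g (A' ∪ supp n b : Finset (Fin n)) →
      ((ext hC n').gate (pmk C b g)).children = lift C (S b) (A' ∪ supp n b) g := by
    intro b hb g hg
    have h1 := hC.node b
    have h2 := Finset.card_union_le A' (supp n b)
    rw [gate_mod_up hC (h.gate b hb) (A' := A' ∪ supp n b) Finset.subset_union_right
      (by omega) hg]
    rfl
  rw [hup b₁ hb₁ g₁ hi₁] at hw1
  rw [hup b₂ hb₂ g₂ hi₂] at hw2
  obtain ⟨x₁, hx₁, h₁, hh₁, hj₁, hw⟩ := hw1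
  obtain ⟨x₂, hx₂, h₂, hh₂, hj₂, hw'⟩ := hw2
  have hpl : plit C x₁ h₁ = plit C x₂ h₂ := hw.symm.trans hw'
  have hpos : (plit C x₁ h₁).pos = (plit C x₂ h₂).pos := by rw [hpl]
  have hnode : (plit C x₁ h₁).node = (plit C x₂ h₂).node := by rw [hpl]
  have hf₁ : ∀ i ∈ A', h₁ i = f i := fun i hi =>
    (hh₁ i (Finset.mem_union_left _ hi)).trans (hg₁ i hi)
  have hf₂ : ∀ i ∈ A', h₂ i = f i := fun i hi =>
    (hh₂ i (Finset.mem_union_left _ hi)).trans (hg₂ i hi)
  have hsub : ∀ (b : C.N) (x : Lit C.N), ((A' ∪ supp n x.node : Finset (Fin n)) : Set (Fin n)) ⊆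
      ((A' ∪ supp n b ∪ supp n x.node : Finset (Fin n)) : Set (Fin n)) := by
    intro b x
    rw [Finset.coe_subset]
    exact Finset.union_subset_union_left Finset.subset_union_left
  obtain ⟨σ, hσ, hσA, hσx, hσh⟩ := pmk_fix hC (A := A') (by omega)
    (fun i hi => (hf₁ i hi).trans (hf₂ i hi).symm) (hj₁.mono (hsub b₁ x₁))
    (hj₂.mono (hsub b₂ x₂)) hnode
  have hx : σ • x₁ = x₂ := Lit.ext hσx hpos
  obtain ⟨h4, -, h6⟩ := piece_smul hC h hσ (fun i hi => hσA i (hp hi)) hb₁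
  have h8 : x₂ ∈ S (σ • b₁) := by
    rw [h6, ← hx]
    exact Set.smul_mem_smul_set hx₁
  have hb : σ • b₁ = b₂ := h.disj.elim h4 hb₂ (Set.not_disjoint_iff.2 ⟨x₂, h8, hx₂⟩)
  refine pmk_eq_iff.2 ⟨σ, hσ, hb, ?_⟩
  intro i hi
  have h9 : σ i ∈ supp n b₂ := by
    rw [← hb, supp_smul]
    exact Finset.mem_image_of_mem _ hi
  rw [← hh₂ (σ i) (Finset.mem_union_right _ h9), ← hh₁ i (Finset.mem_union_right _ hi)]
  rcases Finset.mem_union.1 (piece_supp hC h hb₁ hx₁ hi) with h10 | h10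
  · rw [hσA i (hp h10), hf₁ i (hp h10), hf₂ i (hp h10)]
  · exact hσh i h10

theorem lift_pieces_union (hC : Small C k) {p : C.N} {T : Set C.N} {c : C.N → ZMod m}
    {S : C.N → Set (Lit C.N)} (h : Piece C p T c S) {A' : Finset (Fin n)}
    (hp : supp n p ⊆ A') (hA' : A'.card ≤ 6 * k) (f : Fin n → Fin n') :
    lift C (⋃ b ∈ T, S b) A' f =
      ⋃ z ∈ liftN C T A' f, ((ext hC n').gate z).children := by
  ext w
  constructor
  · rintro ⟨x, hx, g, hg, hi, rfl⟩
    obtain ⟨b, hb, hx⟩ := Set.mem_iUnion₂.1 hx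
    have h1 := piece_supp hC h hb hx
    have h2 : (A' ∪ supp n b : Finset (Fin n)) ⊆ A' ∪ supp n x.node :=
      Finset.union_subset Finset.subset_union_left
        (h1.trans (Finset.union_subset_union_left hp))
    refine Set.mem_iUnion₂.2
      ⟨pmk C b g, ⟨b, hb, g, hg, hi.mono (Finset.coe_subset.2 h2), rfl⟩, ?_⟩
    have h3 : (ext hC n').gate (pmk C b g) = .mod (c b) (lift C (S b) (supp n b) g) :=
      (ext_gate hC b g).trans (pgate0_mod (h.gate b hb) g)
    rw [h3]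
    refine ⟨x, hx, g, fun _ _ => rfl, hi.mono (Finset.coe_subset.2 ?_), rfl⟩
    exact Finset.union_subset (Finset.subset_union_right.trans h2) Finset.subset_union_right
  · intro hw
    obtain ⟨z, ⟨b, hb, g, hg, hi, rfl⟩, hw⟩ := Set.mem_iUnion₂.1 hw
    have h1 := hC.node b
    have h2 := Finset.card_union_le A' (supp n b)
    rw [gate_mod_up hC (h.gate b hb) (A' := A' ∪ supp n b) Finset.subset_union_right
      (by omega) hi] at hw
    obtain ⟨x, hx, u, hu, hui, rfl⟩ := hw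
    refine ⟨x, ?_, u, fun i hi' => (hu i (Finset.mem_union_left _ hi')).trans (hg i hi'), ?_,
      rfl⟩
    · exact Set.mem_iUnion₂.2 ⟨b, hb, hx⟩
    · refine hui.mono (Finset.coe_subset.2 ?_)
      exact Finset.union_subset_union_left Finset.subset_union_left

theorem ext_step_sum [L.IsRelational] (hC : Small C k) {ψ : L.Sentence}
    {D' : Set (Atom L (Fin s ⊕ Fin n') × Bool)} (h8 : 8 * k + 8 ≤ n')
    (hm : ∀ i, 0 < i → i < k → m ∣ (max n n' - min n n').choose i)
    (P' : Set (Set (Lit (PN C n')))) {Γ : Set (Lit C.N)} (hΓ : (supp n Γ).card < k)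
    {f : Fin n → Fin n'} (hf : Set.InjOn f (supp n Γ)) {a p : C.N} {T : Set C.N}
    {c : C.N → ZMod m} {S : C.N → Set (Lit C.N)} (hT : ∀ b ∈ T, C.gate b = .mod (c b) (S b))
    (hd : T.PairwiseDisjoint S) (hp : C.gate p = .and ((fun b => ⟨b, true⟩) '' T))
    (ha : C.gate a = .mod (∑ᶠ b ∈ T, c b) (⋃ b ∈ T, S b)) (hp' : ⟨p, false⟩ ∈ Γ)
    (ha' : ⟨a, true⟩ ∈ Γ) : Step ψ D' (ext hC n') P' (liftL C Γ f) := by
  classical
  have hroom := hC.room
  have hk := hC.kpos
  have hpc : Piece C p T c S := ⟨hT, hd, hp⟩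
  have ha1 := hC.node a
  have hp1 := hC.node p
  have hc1 := Finset.card_union_le (supp n Γ) (supp n a)
  have hc2 := Finset.card_union_le (supp n Γ ∪ supp n a) (supp n p)
  set A' : Finset (Fin n) := supp n Γ ∪ supp n a ∪ supp n p with hA'
  have hAc : A'.card ≤ 3 * k := by omega
  have hΓA : supp n Γ ⊆ A' := Finset.subset_union_left.trans Finset.subset_union_left
  have haA : supp n a ⊆ A' := Finset.subset_union_right.trans Finset.subset_union_left
  have hpA : supp n p ⊆ A' := Finset.subset_union_right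
  obtain ⟨f', hff, hfi⟩ := exists_extend (supp n Γ) A' hΓA f hf (Or.inr (by
    rw [Nat.card_fin]
    omega))
  rw [liftL_congr (g := f') (fun i hi => (hff i hi).symm)]
  let c' : PN C n' → ZMod m := fun z =>
    match (ext hC n').gate z with
    | .mod d _ => d
    | _ => 0
  have hgz : ∀ z ∈ liftN C T A' f', (ext hC n').gate z =
      .mod (c' z) ((ext hC n').gate z).children := by
    rintro z ⟨b, hb, g, hg, hi, rfl⟩
    have h1 : (ext hC n').gate (pmk C b g) = .mod (c b) (lift C (S b) (supp n b) g) :=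
      (ext_gate hC b g).trans (pgate0_mod (hT b hb) g)
    have h2 : c' (pmk C b g) = c b := by
      show (match (ext hC n').gate (pmk C b g) with
        | .mod d _ => d
        | _ => 0) = c b
      rw [h1]
    rw [h2, h1]
    rfl
  have hsum : ∑ᶠ z ∈ liftN C T A' f', c' z = ∑ᶠ b ∈ T, c b := by
    refine pdrop hC ((piece_fix hC hpc).mono hpA) (by omega) hfi c ?_ c' ?_ ?_
    · intro σ hσ hσ' b hb
      exact (piece_smul hC hpc hσ (fun i hi => hσ' i (hpA hi)) hb).2.1
    · intro b hb g hg hi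
      have h1 : (ext hC n').gate (pmk C b g) = .mod (c b) (lift C (S b) (supp n b) g) :=
        (ext_gate hC b g).trans (pgate0_mod (hT b hb) g)
      show (match (ext hC n').gate (pmk C b g) with
        | .mod d _ => d
        | _ => 0) = c b
      rw [h1]
    · intro j hj
      exact choose_cast_eq' (by omega) (by omega) hj hm
  refine Step.sum (a := pmk C a f') (p := pmk C p f') (T := liftN C T A' f') (c := c')
    (S := fun z => ((ext hC n').gate z).children) hgz
    (lift_pieces_disjoint hC hpc hpA (by omega) f') ?_ ?_ ?_ ?_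
  · rw [gate_and_up hC hp hpA (by omega) hfi]
    congr 1
    ext w
    constructor
    · rintro ⟨x, ⟨b, hb, rfl⟩, g, hg, hi, rfl⟩
      exact ⟨pmk C b g, ⟨b, hb, g, hg, hi, rfl⟩, rfl⟩
    · rintro ⟨z, ⟨b, hb, g, hg, hi, rfl⟩, rfl⟩
      exact ⟨⟨b, true⟩, ⟨b, hb, rfl⟩, g, hg, hi, rfl⟩
  · have e1 := gate_mod_up hC ha haA (by omega) hfi
    exact e1.trans (congrArg₂ Gate.mod hsum.symm
      (lift_pieces_union hC hpc hpA (by omega) f'))
  · exact plit_mem_lift hfi hp' hΓA hpA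
  · exact plit_mem_lift hfi ha' hΓA haA

end Pool.H93.SY
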