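import Pool.Agent.H93.SY.Rep

/-!
# Soundness of the rules without counting gates, part 2

MODULE RB.

In all lemmas `Std C M k` gives `(supp n a).card < k` for the nodes, `32 k + 16 ≤ n` and
`Big M (8 k + 8)`, and the supports of the lines have less than `k` points. Use `valid_of` with a set
`A'` containing `supp n Γ`, `Valid.at` for the premises, `Finset.card_union_le`.

`sound_andI`. `A' = supp n Γ ∪ supp n a`. If `C.val M a e`, `⟨a, true⟩` is a witness. Otherwise by
`val_and_iff` there are `x ∈ S` and `f = e` on `A'`, injective on `A' ∪ supp n x.node`, with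
`¬ C.tr M x f`. Let `A'' = A' ∪ supp n x.node ∪ supp n (insert x Γ)` and extend `f` from
`A' ∪ supp n x.node` to `f'` injective on `A''` (`exists_extend`; `A''.card ≤ 4 k`). The premise
gives (`Valid.at`) a witness `(y, g)`, `y ∈ insert x Γ`, `g = f'` on `A''`, `C.tr M y g`. If `y = x`:
`C.tr M x g ↔ C.tr M x f` by `tr_congr`, a contradiction. So `y ∈ Γ`, and this is a witness of `Γ`
over `A'` (`g = f' = f = e` on `A'`).
`sound_andE`. `A' = supp n Γ ∪ supp n a ∪ supp n (Γ ∪ Lit.neg '' S)`. Take the witness `(y, g)` of the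
premise over `A'`. If `y ∈ Γ` we are done. If `y = x.neg`, `x ∈ S`: `¬ C.tr M x g` (`tr_neg`),
`g = e` on `A'`, injective on `A' ∪ supp n x.node`, so `¬ C.val M a e` by `val_and_iff`, and
`⟨a, false⟩` with `e` is a witness.
`sound_hyp`. `A' = supp n Γ ∪ supp n x.node`, and `x` with `e` is a witness by `rep_val` with `j = 0`
(`pts (default : Fin 0 → _) = ∅`, `Sum.map id e ∘ default = default`, `Sentence.Realize`,
`Formula.Realize`; the two `default`s are equal by `Subsingleton.elim`).
-/

set_option autoImplicit false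

namespace Pool.H93.SY

open scoped Pointwise
open FirstOrder.Language

variable {L : FirstOrder.Language.{0, 0}} {m s n k : ℕ} {C : Circuit L m s n}
  {M : Type} [L.Structure (Fin s ⊕ M)]

theorem sound_andI (h : Std C M k) {Γ S : Set (Lit C.N)} (hΓ : (supp n Γ).card < k) {a : C.N}
    (hS : C.gate a = .and S) (ha : ⟨a, true⟩ ∈ Γ)
    (h1 : ∀ x ∈ S, (supp n (insert x Γ : Set (Lit C.N))).card < k ∧ Valid C M (insert x Γ)) :
    Valid C M Γ := by
  have hnode : ∀ a : C.N, (supp n a).card ≤ k := fun a => (h.node a).le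
  have hroom := h.room
  have hu1 := Finset.card_union_le (supp n Γ) (supp n a)
  have hna := h.node a
  refine valid_of (A' := supp n Γ ∪ supp n a) Finset.subset_union_left
    (h.big.mono (by omega)) ?_
  intro e he
  by_cases hv : C.val M a e
  · refine ⟨⟨a, true⟩, ha, e, fun _ _ => rfl, he.mono ?_, tr_true.2 hv⟩
    rw [Finset.coe_subset]
    exact Finset.union_subset (Finset.Subset.refl _) Finset.subset_union_right
  · rw [val_and_iff hnode hS Finset.subset_union_right (by omega) he] at hv
    push Not at hv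
    obtain ⟨x, hx, f, hf, hi, ht⟩ := hv
    obtain ⟨hc1, hval⟩ := h1 x hx
    have hnx := h.node x.node
    have hu2 := Finset.card_union_le (supp n Γ ∪ supp n a) (supp n x.node)
    have hu3 := Finset.card_union_le (supp n Γ ∪ supp n a ∪ supp n x.node)
      (supp n (insert x Γ : Set (Lit C.N)))
    obtain ⟨f', hf', hi'⟩ := exists_extend (supp n Γ ∪ supp n a ∪ supp n x.node)
      (supp n Γ ∪ supp n a ∪ supp n x.node ∪ supp n (insert x Γ : Set (Lit C.N)))
      Finset.subset_union_left f hi (h.big.mono (by omega))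
    obtain ⟨y, hy, g, hg1, hg2, hg3⟩ := Valid.at hnode hval
      (A' := supp n Γ ∪ supp n a ∪ supp n x.node ∪ supp n (insert x Γ : Set (Lit C.N)))
      Finset.subset_union_right (by omega) hi'
    rcases hy with rfl | hy
    · exfalso
      apply ht
      refine (tr_congr (by omega) ?_).1 hg3
      intro i hi2
      have h3 : i ∈ supp n Γ ∪ supp n a ∪ supp n y.node := Finset.mem_union_right _ hi2
      rw [hg1 i (Finset.mem_union_left _ h3), hf' i h3]
    · refine ⟨y, hy, g, ?_, ?_, hg3⟩
      · intro i hi2
        have h3 : i ∈ supp n Γ ∪ supp n a ∪ supp n x.node := Finset.mem_union_left _ hi2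
        rw [hg1 i (Finset.mem_union_left _ h3), hf' i h3, hf i hi2]
      · refine hg2.mono ?_
        rw [Finset.coe_subset]
        refine Finset.union_subset_union_left ?_
        exact Finset.Subset.trans Finset.subset_union_left Finset.subset_union_left

theorem sound_andE (h : Std C M k) {Γ S : Set (Lit C.N)} (hΓ : (supp n Γ).card < k) {a : C.N}
    (hS : C.gate a = .and S) (ha : ⟨a, false⟩ ∈ Γ)
    (h1 : (supp n (Γ ∪ Lit.neg '' S : Set (Lit C.N))).card < k)
    (hv : Valid C M (Γ ∪ Lit.neg '' S)) : Valid C M Γ := by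
  have hnode : ∀ a : C.N, (supp n a).card ≤ k := fun a => (h.node a).le
  have hroom := h.room
  have hu1 := Finset.card_union_le (supp n Γ) (supp n a)
  have hu2 := Finset.card_union_le (supp n Γ ∪ supp n a)
    (supp n (Γ ∪ Lit.neg '' S : Set (Lit C.N)))
  have hna := h.node a
  refine valid_of (A' := supp n Γ ∪ supp n a ∪ supp n (Γ ∪ Lit.neg '' S : Set (Lit C.N)))
    (Finset.Subset.trans Finset.subset_union_left Finset.subset_union_left)
    (h.big.mono (by omega)) ?_
  intro e he
  obtain ⟨y, hy, g, hg1, hg2, hg3⟩ := Valid.at hnode hv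
    (A' := supp n Γ ∪ supp n a ∪ supp n (Γ ∪ Lit.neg '' S : Set (Lit C.N)))
    Finset.subset_union_right (by omega) he
  rcases hy with hy | ⟨x, hx, rfl⟩
  · exact ⟨y, hy, g, hg1, hg2, hg3⟩
  · have hnv : ¬ C.val M a e := by
      intro hva
      rw [val_and_iff hnode hS
        (A' := supp n Γ ∪ supp n a ∪ supp n (Γ ∪ Lit.neg '' S : Set (Lit C.N)))
        (Finset.Subset.trans Finset.subset_union_right Finset.subset_union_left)
        (by omega) he] at hva
      exact (tr_neg.1 hg3) (hva x hx g hg1 hg2)
    refine ⟨⟨a, false⟩, ha, e, fun _ _ => rfl, he.mono ?_, tr_false.2 hnv⟩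
    rw [Finset.coe_subset]
    exact Finset.union_subset (Finset.Subset.refl _)
      (Finset.Subset.trans Finset.subset_union_right Finset.subset_union_left)

theorem sound_hyp [L.IsRelational] (h : Std C M k) {r : ℕ} {ψ : L.Sentence} (hr : qd ψ ≤ r)
    (hn : 3 * k + r + 4 ≤ n) (hbig : Big M (2 * k + r + 1)) (hψ : (Fin s ⊕ M) ⊨ ψ) {Γ : Set (Lit C.N)}
    (hΓ : (supp n Γ).card < k) {x : Lit C.N} (hx : C.Rep ψ default x) (hxΓ : x ∈ Γ) :
    Valid C M Γ := by
  have hnode : ∀ a : C.N, (supp n a).card ≤ k := fun a => (h.node a).le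
  have hroom := h.room
  have hu1 := Finset.card_union_le (supp n Γ) (supp n x.node)
  have hnx := h.node x.node
  refine valid_of (A' := supp n Γ ∪ supp n x.node) Finset.subset_union_left
    (h.big.mono (by omega)) ?_
  intro e he
  have hp : pts (default : Fin 0 → Fin s ⊕ Fin n) = ∅ := by
    ext p
    rw [mem_pts]
    constructor
    · rintro ⟨i, -⟩
      exact i.elim0
    · intro hp
      simp at hp
  have he1 : Set.InjOn e (supp n x.node ∪ pts (default : Fin 0 → Fin s ⊕ Fin n) :
      Finset (Fin n)) := by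
    rw [hp]
    refine he.mono ?_
    rw [Finset.coe_subset, Finset.union_empty]
    exact Finset.subset_union_right
  have h2 := rep_val hnode hn hbig (ψ : L.BoundedFormula Empty 0) (by omega)
    (default : Fin 0 → Fin s ⊕ Fin n) x hx e he1
  have h3 : C.tr M x e := by
    rw [h2, Subsingleton.elim (Sum.map id e ∘ (default : Fin 0 → Fin s ⊕ Fin n)) default]
    exact hψ
  refine ⟨x, hxΓ, e, fun _ _ => rfl, he.mono ?_, h3⟩
  rw [Finset.coe_subset]
  exact Finset.union_subset (Finset.Subset.refl _) Finset.subset_union_right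

end Pool.H93.SY
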