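import Pool.Agent.H93.SY.Cnt

/-!
# Soundness of the simple rules for counting gates

MODULE RM.

`Std.cond` has two cases. If `m = 1` (`subst`) every counting gate is true (`val_mod`: an equation in
`ZMod 1`, `Subsingleton.elim`): `val_mod_one`. Otherwise `M` is finite, `Nat.card M + 2 ≤ n`; for `e`
injective on a set `A'` there are `W ⊇ A'` and `f = e` on `A'`, bijective from `W` to `M` (`exists_bij`),
and for a gate `a` with `supp n a ⊆ A'`: `C.val M a e ↔ C.val M a f` (`val_congr`), and `val_mod_iff`.
Use `valid_of` with the given `A'` (at most `3 k` points).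

`sound_total`. If `m = 1`: take `c = 0`, the gate `a`, `A' = supp n Γ ∪ supp n a`, `⟨a, true⟩` is a
witness. Otherwise let `a₀` be the gate for `c = 0` and start with `valid_of` for
`A' = supp n Γ ∪ supp n a₀`, `e` injective on `A'`; take `W ⊇ A'`, `f`, and let
`c = (C.cnt M S W f : ZMod m)`, `a` the gate for this `c`. The support of `a` need not be inside `W`:
extend `e` from `A'` to `e'` injective on `A' ∪ supp n a` (`exists_extend`), take `W' ⊇ A' ∪ supp n a`
and `f' = e'` there (`exists_bij`). By `cnt_eq` with `A = supp n a₀` (`fixes_mod`)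
`C.cnt M S W' f' = C.cnt M S W f`, so `C.val M a f'` by `val_mod_iff`, hence `C.val M a e'`
(`val_congr`), and `(⟨a, true⟩, e')` is a witness: `e' = e` on `A'`, injective on
`A' ∪ supp n a`.
`sound_excl`. `m ≠ 1` since `c ≠ d` (`ZMod 1` is a subsingleton). `A' = supp n Γ ∪ supp n a ∪ supp n b`.
`C.cnt M S W f` cannot be both `c` and `d`, so one of `C.val M a e`, `C.val M b e` fails; this is the
witness (`tr_false`).
`sound_one`. `A' = supp n Γ ∪ supp n a ∪ supp n x.node`. If `¬ C.tr M x e`, `x.neg` is a witness
(`tr_neg`; `x.neg.node = x.node`). Otherwise `{y | y ∈ {x} ∧ supp ⊆ W ∧ tr y f} = {x}` (`tr_congr`: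
`f = e` on `supp n x.node ⊆ A'`), its `ncard` is `1` (`Set.ncard_singleton`), so `C.val M a e` and
`⟨a, true⟩` is a witness.
`sound_zero`. If `C.tr M x e`, `x` is a witness. Otherwise the set is empty, `ncard = 0`.
-/

set_option autoImplicit false

namespace Pool.H93.SY

open scoped Pointwise
open FirstOrder.Language

variable {L : FirstOrder.Language.{0, 0}} {m s n k : ℕ} {C : Circuit L m s n}
  {M : Type} [L.Structure (Fin s ⊕ M)]

private theorem val_mod_one' (hm : m = 1) {a : C.N} {c : ZMod m} {S : Set (Lit C.N)}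
    (hg : C.gate a = .mod c S) (e : Fin n → M) : C.val M a e := by
  subst hm
  rw [val_mod C M hg]
  intro W f _ _ _
  exact Subsingleton.elim _ _

private theorem node_three (h : Std C M k) : ∀ a : C.N, (supp n a).card + 3 ≤ n := by
  intro a
  have h1 := h.node a
  have h2 := h.room
  omega

private theorem val_cnt [Finite M] (h : Std C M k) (hM : Nat.card M + 2 ≤ n) {a : C.N}
    {c : ZMod m} {S : Set (Lit C.N)} (hg : C.gate a = .mod c S) {A' W : Finset (Fin n)}
    (hA : supp n a ⊆ A') (hW : A' ⊆ W) {e f : Fin n → M} (hf : ∀ i ∈ A', f i = e i)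
    (hb : Set.BijOn f W Set.univ) :
    C.val M a e ↔ ((C.cnt M S W f : ℕ) : ZMod m) = c := by
  rw [← val_mod_iff (node_three h) hM hg (hA.trans hW) hb]
  exact val_congr (node_three h a) fun i hi => (hf i (hA hi)).symm

private theorem wit_self {Γ : Set (Lit C.N)} {A' : Finset (Fin n)} {e : Fin n → M}
    (he : Set.InjOn e A') {x : Lit C.N} (hx : x ∈ Γ) (hA : supp n x.node ⊆ A')
    (ht : C.tr M x e) : Wit C M Γ A' e := by
  refine ⟨x, hx, e, fun _ _ => rfl, he.mono ?_, ht⟩
  rw [Finset.coe_subset]
  exact Finset.union_subset (Finset.Subset.refl _) hA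

theorem sound_total (h : Std C M k) {Γ S : Set (Lit C.N)} (hΓ : (supp n Γ).card < k)
    (h1 : ∀ c, ∃ a, C.gate a = .mod c S ∧ ⟨a, true⟩ ∈ Γ) : Valid C M Γ := by
  have hroom := h.room
  rcases h.cond with hm | ⟨hfin, hM, -⟩
  · obtain ⟨a, ha, haΓ⟩ := h1 0
    have hu := Finset.card_union_le (supp n Γ) (supp n a)
    have hna := h.node a
    refine valid_of (A' := supp n Γ ∪ supp n a) Finset.subset_union_left
      (h.big.mono (by omega)) ?_
    intro e he
    exact wit_self he haΓ Finset.subset_union_right (tr_true.2 (val_mod_one' hm ha e))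
  · haveI := hfin
    obtain ⟨a₀, ha₀, -⟩ := h1 0
    have hu := Finset.card_union_le (supp n Γ) (supp n a₀)
    have hna := h.node a₀
    refine valid_of (A' := supp n Γ ∪ supp n a₀) Finset.subset_union_left
      (h.big.mono (by omega)) ?_
    intro e he
    obtain ⟨W, f, hW, -, hf, hb⟩ := exists_bij (supp n Γ ∪ supp n a₀) e he (by omega)
    obtain ⟨a, ha, haΓ⟩ := h1 ((C.cnt M S W f : ℕ) : ZMod m)
    have hu2 := Finset.card_union_le (supp n Γ ∪ supp n a₀) (supp n a)
    have hna2 := h.node a
    obtain ⟨e', he1, he2⟩ := exists_extend (supp n Γ ∪ supp n a₀)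
      (supp n Γ ∪ supp n a₀ ∪ supp n a) Finset.subset_union_left e he
      (h.big.mono (by omega))
    obtain ⟨W', f', hW', -, hf', hb'⟩ := exists_bij (supp n Γ ∪ supp n a₀ ∪ supp n a) e' he2
      (by omega)
    have hsub : supp n a₀ ⊆ supp n Γ ∪ supp n a₀ := Finset.subset_union_right
    have hcnt : C.cnt M S W' f' = C.cnt M S W f := by
      refine cnt_eq (node_three h) hM (fixes_mod (by omega) ha₀)
        ((hsub.trans Finset.subset_union_left).trans hW') (hsub.trans hW) ?_ hb' hb
      intro i hi
      rw [hf' i (Finset.mem_union_left _ (hsub hi)), he1 i (hsub hi), hf i (hsub hi)]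
    have hv : C.val M a e' := by
      rw [val_cnt h hM ha Finset.subset_union_right hW' hf' hb', hcnt]
    exact ⟨⟨a, true⟩, haΓ, e', he1, he2, tr_true.2 hv⟩

theorem sound_excl (h : Std C M k) {Γ S : Set (Lit C.N)} (hΓ : (supp n Γ).card < k)
    {a b : C.N} {c d : ZMod m} (ha : C.gate a = .mod c S) (hb : C.gate b = .mod d S)
    (hcd : c ≠ d) (ha' : ⟨a, false⟩ ∈ Γ) (hb' : ⟨b, false⟩ ∈ Γ) : Valid C M Γ := by
  have hroom := h.room
  have hu := Finset.card_union_le (supp n Γ) (supp n a)
  have hu2 := Finset.card_union_le (supp n Γ ∪ supp n a) (supp n b)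
  have hna := h.node a
  have hnb := h.node b
  rcases h.cond with hm | ⟨hfin, hM, -⟩
  · subst hm
    exact absurd (Subsingleton.elim c d) hcd
  · haveI := hfin
    have hsa : supp n a ⊆ supp n Γ ∪ supp n a ∪ supp n b :=
      Finset.Subset.trans Finset.subset_union_right Finset.subset_union_left
    have hsb : supp n b ⊆ supp n Γ ∪ supp n a ∪ supp n b := Finset.subset_union_right
    refine valid_of (A' := supp n Γ ∪ supp n a ∪ supp n b)
      (Finset.Subset.trans Finset.subset_union_left Finset.subset_union_left)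
      (h.big.mono (by omega)) ?_
    intro e he
    obtain ⟨W, f, hW, -, hf, hb2⟩ := exists_bij (supp n Γ ∪ supp n a ∪ supp n b) e he (by omega)
    have hva := val_cnt h hM ha hsa hW hf hb2
    have hvb := val_cnt h hM hb hsb hW hf hb2
    by_cases hv : C.val M a e
    · refine wit_self he hb' hsb (tr_false.2 ?_)
      rw [hvb]
      rw [hva] at hv
      rw [hv]
      exact hcd
    · exact wit_self he ha' hsa (tr_false.2 hv)

theorem sound_one (h : Std C M k) {Γ : Set (Lit C.N)} (hΓ : (supp n Γ).card < k)
    {a : C.N} {x : Lit C.N} (ha : C.gate a = .mod 1 {x}) (hx : x.neg ∈ Γ)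
    (ha' : ⟨a, true⟩ ∈ Γ) : Valid C M Γ := by
  have hroom := h.room
  have hu := Finset.card_union_le (supp n Γ) (supp n a)
  have hu2 := Finset.card_union_le (supp n Γ ∪ supp n a) (supp n x.node)
  have hna := h.node a
  have hnx := h.node x.node
  have hsa : supp n a ⊆ supp n Γ ∪ supp n a ∪ supp n x.node :=
    Finset.Subset.trans Finset.subset_union_right Finset.subset_union_left
  have hsx : supp n x.node ⊆ supp n Γ ∪ supp n a ∪ supp n x.node := Finset.subset_union_right
  refine valid_of (A' := supp n Γ ∪ supp n a ∪ supp n x.node)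
    (Finset.Subset.trans Finset.subset_union_left Finset.subset_union_left)
    (h.big.mono (by omega)) ?_
  intro e he
  by_cases ht : C.tr M x e
  · refine wit_self he ha' hsa (tr_true.2 ?_)
    rcases h.cond with hm | ⟨hfin, hM, -⟩
    · exact val_mod_one' hm ha e
    · haveI := hfin
      obtain ⟨W, f, hW, -, hf, hb2⟩ := exists_bij (supp n Γ ∪ supp n a ∪ supp n x.node) e he
        (by omega)
      rw [val_cnt h hM ha hsa hW hf hb2]
      have h1 : C.cnt M {x} W f = 1 := by
        unfold Circuit.cnt
        have h2 : {y | y ∈ ({x} : Set (Lit C.N)) ∧ supp n y.node ⊆ W ∧ C.tr M y f} = {x} := by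
          ext y
          constructor
          · rintro ⟨h3, -, -⟩
            exact h3
          · intro h3
            have h4 : y = x := h3
            subst h4
            exact ⟨rfl, hsx.trans hW,
              (tr_congr (node_three h _) fun i hi => hf i (hsx hi)).2 ht⟩
        rw [h2, Set.ncard_singleton]
      rw [h1, Nat.cast_one]
  · exact wit_self (x := x.neg) he hx hsx (tr_neg.2 ht)

theorem sound_zero (h : Std C M k) {Γ : Set (Lit C.N)} (hΓ : (supp n Γ).card < k)
    {a : C.N} {x : Lit C.N} (ha : C.gate a = .mod 0 {x}) (hx : x ∈ Γ)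
    (ha' : ⟨a, true⟩ ∈ Γ) : Valid C M Γ := by
  have hroom := h.room
  have hu := Finset.card_union_le (supp n Γ) (supp n a)
  have hu2 := Finset.card_union_le (supp n Γ ∪ supp n a) (supp n x.node)
  have hna := h.node a
  have hnx := h.node x.node
  have hsa : supp n a ⊆ supp n Γ ∪ supp n a ∪ supp n x.node :=
    Finset.Subset.trans Finset.subset_union_right Finset.subset_union_left
  have hsx : supp n x.node ⊆ supp n Γ ∪ supp n a ∪ supp n x.node := Finset.subset_union_right
  refine valid_of (A' := supp n Γ ∪ supp n a ∪ supp n x.node)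
    (Finset.Subset.trans Finset.subset_union_left Finset.subset_union_left)
    (h.big.mono (by omega)) ?_
  intro e he
  by_cases ht : C.tr M x e
  · exact wit_self he hx hsx ht
  · refine wit_self he ha' hsa (tr_true.2 ?_)
    rcases h.cond with hm | ⟨hfin, hM, -⟩
    · exact val_mod_one' hm ha e
    · haveI := hfin
      obtain ⟨W, f, hW, -, hf, hb2⟩ := exists_bij (supp n Γ ∪ supp n a ∪ supp n x.node) e he
        (by omega)
      rw [val_cnt h hM ha hsa hW hf hb2]
      have h1 : C.cnt M {x} W f = 0 := by
        unfold Circuit.cnt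
        have h2 : {y | y ∈ ({x} : Set (Lit C.N)) ∧ supp n y.node ⊆ W ∧ C.tr M y f} = ∅ := by
          ext y
          constructor
          · rintro ⟨h3, -, h5⟩
            have h4 : y = x := h3
            subst h4
            exact absurd ((tr_congr (node_three h _) fun i hi => hf i (hsx hi)).1 h5) ht
          · intro h3
            exact absurd h3 (Set.notMem_empty y)
        rw [h2, Set.ncard_empty]
      rw [h1, Nat.cast_zero]

end Pool.H93.SY
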