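import Pool.Agent.H93.SY.RuleM
import Pool.Agent.H93.SY.Drop

/-!
# Soundness of the addition rule for counting gates

MODULE RS.

`sound_sum`. If `m = 1` the gate `a` is true (`val_mod`, `Subsingleton.elim` in `ZMod 1`) and
`⟨a, true⟩` is a witness over `A' = supp n Γ ∪ supp n a`. Otherwise `M` is finite,
`Nat.card M + 2 ≤ n` and `hm : m ∣ C(n - Nat.card M, i)` for `0 < i < k`. Let
`A' = supp n Γ ∪ supp n a ∪ supp n p` (`valid_of`), `e` injective on `A'`. If `¬ C.val M p e`,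
`⟨p, false⟩` is a witness (`tr_false`). Assume `C.val M p e`; we show `C.val M a e`.
Take `W ⊇ A'`, `W.card = Nat.card M`, and `f = e` on `A'`, bijective from `W` to `M` (`exists_bij`); by
`val_congr`, `C.val M p f`, and we have to show (`val_mod_iff`) that
`(C.cnt M (⋃ b ∈ T, S b) W f : ZMod m) = ∑ᶠ b ∈ T, c b`.
(1) For every `b ∈ T` with `supp n b ⊆ W`: `C.val M b f` (`val_and` for `p`, applied to
`⟨b, true⟩` and `f`: `f` is injective on `supp n p ∪ supp n b ⊆ W`), so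
`(C.cnt M (S b) W f : ZMod m) = c b` by `val_mod_iff`.
(2) `T` is fixed by the even permutations `σ` fixing the points of `supp n p`: by `fixes_and` the set
`(fun b => ⟨b, true⟩) '' T` is fixed, and `σ • ⟨b, true⟩ = ⟨σ • b, true⟩` (`rfl`); so `σ • b ∈ T` for
`b ∈ T`. Further, for such `σ` and `b ∈ T`, `C.gate (σ • b) = .mod (c b) (σ • S b)` (`C.gate_smul`,
`Gate.act`), and `= .mod (c (σ • b)) (S (σ • b))`, so `c (σ • b) = c b`, `S (σ • b) = σ • S b`.
(3) If `b ∈ T`, `x ∈ S b` and `supp n x.node ⊆ W` then `supp n b ⊆ W`: let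
`B = supp n p ∪ supp n x.node`, `2 * B.card + 3 ≤ n`; for an even `σ` fixing the points of `B`,
`σ • x = x` (`Lit.ext`, `supp_fix` for `x.node`), `x = σ • x ∈ σ • S b = S (σ • b)`, `σ • b ∈ T`, so
`σ • b = b` by pairwise disjointness (`Set.PairwiseDisjoint.elim` or
`Set.PairwiseDisjoint.eq_of_mem`-like: `hT.elim hb hσb (Set.not_disjoint_iff.2 ⟨x, _, _⟩)`). By
`supp_min`, `supp n b ⊆ B ⊆ W`.
(4) The set counted by `C.cnt M (⋃ b ∈ T, S b) W f` is the disjoint union over the `b ∈ T` with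
`supp n b ⊆ W` of the sets counted by `C.cnt M (S b) W f` (by (3)); so
`C.cnt M (⋃ b ∈ T, S b) W f = ∑ᶠ b ∈ {b | b ∈ T ∧ supp n b ⊆ W}, C.cnt M (S b) W f`
(for example with `Finset.card_biUnion` after `classical`, `Fintype.ofFinite`, or
`Set.Finite.ncard_biUnion`-like lemmas; it is convenient to prove it as a separate lemma
`ncard_biUnion` about a finite type, a finite set `T'` of indices and pairwise disjoint sets:
`(⋃ b ∈ T', U b).ncard = ∑ᶠ b ∈ T', (U b).ncard`).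
(5) Cast to `ZMod m` (`Nat.cast_finsum_mem`-like, or `map_finsum_mem (Nat.castAddMonoidHom _)`), use
(1), and `drop` with `X = C.N`, `S = T`, `A = supp n p`, `w = c`, `W` (note `W.card = Nat.card M`):
`∑ᶠ b ∈ {b | b ∈ T ∧ supp n b ⊆ W}, c b = ∑ᶠ b ∈ T, c b`.
-/

set_option autoImplicit false

namespace Pool.H93.SY

open scoped Pointwise
open FirstOrder.Language

variable {L : FirstOrder.Language.{0, 0}} {m s n k : ℕ} {C : Circuit L m s n}
  {M : Type} [L.Structure (Fin s ⊕ M)]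

theorem sound_sum (h : Std C M k) {Γ : Set (Lit C.N)} (hΓ : (supp n Γ).card < k)
    {a p : C.N} {T : Set C.N} {c : C.N → ZMod m} {S : C.N → Set (Lit C.N)}
    (hT : ∀ b ∈ T, C.gate b = .mod (c b) (S b)) (hd : T.PairwiseDisjoint S)
    (hp : C.gate p = .and ((fun b => ⟨b, true⟩) '' T))
    (ha : C.gate a = .mod (∑ᶠ b ∈ T, c b) (⋃ b ∈ T, S b)) (hp' : ⟨p, false⟩ ∈ Γ)
    (ha' : ⟨a, true⟩ ∈ Γ) : Valid C M Γ := by
  have hkpos := h.kpos
  have hroom := h.room
  have hna := h.node a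
  have hnp := h.node p
  have hnode3 : ∀ a : C.N, (supp n a).card + 3 ≤ n := fun b => by
    have := h.node b
    omega
  have hn2 : 2 ≤ n := by omega
  set A' := supp n Γ ∪ supp n a ∪ supp n p with hA'
  have hA'c : A'.card ≤ 3 * k := by
    rw [hA']
    have h1 := Finset.card_union_le (supp n Γ ∪ supp n a) (supp n p)
    have h2 := Finset.card_union_le (supp n Γ) (supp n a)
    omega
  have hΓA : supp n Γ ⊆ A' := fun i hi =>
    Finset.mem_union_left _ (Finset.mem_union_left _ hi)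
  have haA : supp n a ⊆ A' := fun i hi =>
    Finset.mem_union_left _ (Finset.mem_union_right _ hi)
  have hpA : supp n p ⊆ A' := fun i hi => Finset.mem_union_right _ hi
  refine valid_of hΓA (h.big.mono (by omega)) fun e he => ?_
  have wit : ∀ x ∈ Γ, supp n x.node ⊆ A' → C.tr M x e → Wit C M Γ A' e := by
    intro x hx hxA hxt
    refine ⟨x, hx, e, fun i _ => rfl, ?_, hxt⟩
    rw [Finset.union_eq_left.2 hxA]
    exact he
  by_cases hpv : C.val M p e
  swap
  · exact wit ⟨p, false⟩ hp' hpA (tr_false.2 hpv)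
  refine wit ⟨a, true⟩ ha' haA (tr_true.2 ?_)
  rcases h.cond with hm1 | ⟨hfin, hM, hdiv⟩
  · subst hm1
    rw [val_mod C M ha]
    intro W f _ _ _
    exact Subsingleton.elim _ _
  have := hfin
  obtain ⟨W, f, hAW, hWc, hfe, hbij⟩ := exists_bij A' e he (by omega)
  rw [val_congr (hnode3 a) (e' := f) (fun i hi => (hfe i (haA hi)).symm),
    val_mod_iff hnode3 hM ha (haA.trans hAW) hbij]
  rw [val_congr (hnode3 p) (e' := f) (fun i hi => (hfe i (hpA hi)).symm)] at hpv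
  -- (1)
  have s1 : ∀ b ∈ T, supp n b ⊆ W → ((C.cnt M (S b) W f : ℕ) : ZMod m) = c b := by
    intro b hb hbW
    have h1 : C.tr M ⟨b, true⟩ f := by
      refine (val_and C M hp f).1 hpv ⟨b, true⟩ ⟨b, hb, rfl⟩ f (fun i _ => rfl) ?_
      apply hbij.injOn.mono
      rw [Finset.coe_subset]
      exact Finset.union_subset (hpA.trans hAW) hbW
    exact (val_mod_iff hnode3 hM (hT b hb) hbW hbij).1 (tr_true.1 h1)
  -- (2)
  have s2 : ∀ σ : Equiv.Perm (Fin n), Equiv.Perm.sign σ = 1 → (∀ i ∈ supp n p, σ i = i) →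
      ∀ b ∈ T, σ • b ∈ T := by
    intro σ h1 h2 b hb
    have h3 := fixes_and hn2 hp σ h1 h2
    have h4 : σ • (⟨b, true⟩ : Lit C.N) ∈ σ • ((fun b => (⟨b, true⟩ : Lit C.N)) '' T) :=
      Set.smul_mem_smul_set ⟨b, hb, rfl⟩
    rw [h3] at h4
    obtain ⟨b', hb', h5⟩ := h4
    have h6 : b' = σ • b := congrArg Lit.node h5
    rw [← h6]
    exact hb'
  have s3 : ∀ σ : Equiv.Perm (Fin n), Equiv.Perm.sign σ = 1 → (∀ i ∈ supp n p, σ i = i) →
      ∀ b ∈ T, c (σ • b) = c b ∧ S (σ • b) = σ • S b := by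
    intro σ h1 h2 b hb
    have h3 := C.gate_smul σ b
    rw [hT _ (s2 σ h1 h2 b hb), hT b hb] at h3
    have h4 : (Gate.mod (c (σ • b)) (S (σ • b)) : Gate (Atom L (Fin s ⊕ Fin n)) C.N m) =
      .mod (c b) (σ • S b) := h3
    injection h4 with h5 h6
    exact ⟨h5, h6⟩
  -- (3)
  have s4 : ∀ b ∈ T, ∀ x ∈ S b, supp n x.node ⊆ W → supp n b ⊆ W := by
    intro b hb x hx hxW
    refine (supp_min b (supp n p ∪ supp n x.node) ?_ ?_).trans
      (Finset.union_subset (hpA.trans hAW) hxW)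
    · have h1 := Finset.card_union_le (supp n p) (supp n x.node)
      have h2 := h.node x.node
      omega
    · intro σ h1 h2
      have h3 : ∀ i ∈ supp n p, σ i = i := fun i hi => h2 i (Finset.mem_union_left _ hi)
      have hσb := s2 σ h1 h3 b hb
      have hσx : σ • x = x := Lit.ext (supp_fix hn2 x.node σ h1
        (fun i hi => h2 i (Finset.mem_union_right _ hi))) rfl
      have hS := (s3 σ h1 h3 b hb).2
      have h4 : x ∈ S (σ • b) := by
        rw [hS]
        have h5 := Set.smul_mem_smul_set (a := σ) hx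
        rwa [hσx] at h5
      by_contra hne
      exact Set.disjoint_left.1 (hd hσb hb hne) h4 hx
  -- (4)
  have s5 : C.cnt M (⋃ b ∈ T, S b) W f =
      ∑ᶠ b ∈ {b | b ∈ T ∧ supp n b ⊆ W}, C.cnt M (S b) W f := by
    unfold Circuit.cnt
    rw [← Set.Finite.ncard_biUnion (Set.toFinite _) (fun _ _ => Set.toFinite _)]
    · congr 1
      ext x
      simp only [Set.mem_iUnion, Set.mem_ofPred_eq, exists_prop]
      constructor
      · rintro ⟨⟨b, hb, hx⟩, h2, h3⟩
        exact ⟨b, ⟨hb, s4 b hb x hx h2⟩, hx, h2, h3⟩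
      · rintro ⟨b, ⟨hb, hbW⟩, hx, h2, h3⟩
        exact ⟨⟨b, hb, hx⟩, h2, h3⟩
    · intro b hb b' hb' hne
      refine Set.disjoint_left.2 fun x hx hx' => ?_
      exact Set.disjoint_left.1 (hd hb.1 hb'.1 hne) hx.1 hx'.1
  have s6 : ((∑ᶠ b ∈ {b | b ∈ T ∧ supp n b ⊆ W}, C.cnt M (S b) W f : ℕ) : ZMod m) =
      ∑ᶠ b ∈ {b | b ∈ T ∧ supp n b ⊆ W}, c b := by
    have h1 := AddMonoidHom.map_finsum_mem (fun b => C.cnt M (S b) W f)
      (Nat.castAddMonoidHom (ZMod m)) (Set.toFinite {b | b ∈ T ∧ supp n b ⊆ W})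
    rw [Nat.coe_castAddMonoidHom] at h1
    rw [h1]
    refine finsum_mem_congr rfl fun b hb => ?_
    exact s1 b hb.1 hb.2
  rw [s5, s6]
  refine drop (k := k) h.node (S := T) (A := supp n p) (W := W) ?_ (hpA.trans hAW) (by omega) c
    (fun σ h1 h2 b hb => (s3 σ h1 h2 b hb).1) (by rw [hWc]; exact hdiv)
  intro σ h1 h2
  apply Set.Subset.antisymm
  · rintro x ⟨b, hb, rfl⟩
    exact s2 σ h1 h2 b hb
  · intro b hb
    have h3 : Equiv.Perm.sign σ⁻¹ = 1 := by rw [Equiv.Perm.sign_inv, h1]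
    have h4 : ∀ i ∈ supp n p, σ⁻¹ i = i := fun i hi => by
      rw [Equiv.Perm.inv_eq_iff_eq, h2 i hi]
    exact ⟨σ⁻¹ • b, s2 σ⁻¹ h3 h4 b hb, smul_inv_smul σ b⟩

end Pool.H93.SY
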