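import Pool.Agent.H93.SY.RuleA
import Pool.Agent.H93.SY.RuleB
import Pool.Agent.H93.SY.RuleM
import Pool.Agent.H93.SY.RuleS

/-!
# The lower bound

MODULE LO.

`step_sound`: by cases on the rule, `sound_hyp`, `sound_ident`, …, `sound_sum`.

`lower_sum`. Proof. Suppose `R.size < C(n, k)`. If `k = 0` then `R.size < 1`, but
`R.lines` is finite (`Lit C.N` is finite, so `Set (Lit C.N)` is finite) and contains `∅`, so
`1 ≤ R.lines.ncard`. So `0 < k`, `n ≥ 64 k + 16`. By `choose_le_two_pow`, `R.size < 2 ^ (n / 8)`.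
Nodes: the orbit of a node is a subset of `univ`, so its `ncard` is at most `Nat.card C.N ≤ R.size`
(`Set.ncard_le_ncard`, `Set.ncard_univ`); `supp_card_lt` gives `(supp n a).card < k`. Lines: the orbit
of `Γ ∈ R.lines` is a subset of `R.lines` (`R.smul_mem`), the same. So `Std R.C M k` holds
(`Big M (8 k + 8)`, the condition). By strong induction on `R.order Γ` all lines are valid
(`step_sound`, `R.step`). So `∅` is valid; there is `e` injective on `supp n ∅`
(`exists_extend` with `A = ∅` and any function; `M` is nonempty), a contradiction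
(`Set.notMem_empty`).

`lower`. Proof. Take `v = qd ψ + 16`. `M` has an injection `i₀ : Fin s → M` (`Infinite.natEmbedding` or
`Finite.equivFin`; `s ≤ Nat.card M`). Let `M' = {y : M // y ∉ Set.range i₀}` and let
`w : Fin s ⊕ M' ≃ M` be the equivalence (`Equiv.ofInjective` and `Equiv.Set.sumCompl` or
`Equiv.sumCompl`). Give `Fin s ⊕ M'` the structure `w.symm.inducedStructure`
(`Equiv.inducedStructure`, `Equiv.inducedStructureEquiv`), so that `w` is an isomorphism and
`Fin s ⊕ M' ⊨ ψ` (`FirstOrder.Language.StrongHomClass.realize_sentence`). `Big M' (v + 8 k)`: if `M` is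
infinite `M'` is infinite, otherwise `Nat.card M' = Nat.card M - s`. The condition: for finite `M`,
`Nat.card M' + 2 ≤ n`, `n - Nat.card M' = s + n - Nat.card M`. Apply `lower_sum`.
-/

set_option autoImplicit false

namespace Pool.H93.SY

open scoped Pointwise
open FirstOrder.Language

variable {L : FirstOrder.Language.{0, 0}} [L.IsRelational]

/-- The facts in `D` are true in the structure on `Fin s ⊕ M`, under all injective maps of their
points of `Fin n` to `M`. -/
def Holds {s n : ℕ} (D : Set (Atom L (Fin s ⊕ Fin n) × Bool)) (M : Type)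
    [L.Structure (Fin s ⊕ M)] : Prop :=
  ∀ v b, (v, b) ∈ D → ∀ f : Fin n → M, Set.InjOn f {p | ∃ i, v.2.2 i = Sum.inr p} →
    (Structure.RelMap v.2.1 (fun i => Sum.map id f (v.2.2 i)) ↔ b = true)

omit [L.IsRelational] in
theorem sound_fact {m s n k : ℕ} {C : Circuit L m s n} {M : Type} [L.Structure (Fin s ⊕ M)]
    (h : Std C M k) {D : Set (Atom L (Fin s ⊕ Fin n) × Bool)} (hD : Holds D M)
    {Γ : Set (Lit C.N)} (hΓ : (supp n Γ).card < k) {a : C.N} {v : Atom L (Fin s ⊕ Fin n)}
    {b : Bool} (ha : C.gate a = .var v) (hv : (v, b) ∈ D) (hx : ⟨a, b⟩ ∈ Γ) : Valid C M Γ := by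
  have h1 := h.node a
  have h2 := h.room
  have h3 := Finset.card_union_le (supp n Γ) (supp n a)
  refine valid_of (A' := supp n Γ ∪ supp n a) Finset.subset_union_left
    (h.big.mono (by omega)) ?_
  intro e he
  refine ⟨⟨a, b⟩, hx, e, fun _ _ => rfl, ?_, ?_⟩
  · show Set.InjOn e ((supp n Γ ∪ supp n a) ∪ supp n a : Finset (Fin n))
    rw [Finset.union_assoc, Finset.union_self]
    exact he
  · show C.val M a e ↔ b = true
    rw [val_var C M ha]
    refine hD v b hv e (he.mono ?_)
    rintro p ⟨i, hi⟩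
    exact Finset.mem_coe.2 (Finset.mem_union_right _ (args_mem (by omega) ha i hi))

theorem step_sound {m s n k r : ℕ} {C : Circuit L m s n} {M : Type} [L.Structure (Fin s ⊕ M)]
    (h : Std C M k) {ψ : L.Sentence} (hr : qd ψ ≤ r) (hn : 3 * k + r + 4 ≤ n)
    (hbig : Big M (2 * k + r + 1)) (hψ : (Fin s ⊕ M) ⊨ ψ)
    {D : Set (Atom L (Fin s ⊕ Fin n) × Bool)} (hD : Holds D M) {P : Set (Set (Lit C.N))}
    (hP : ∀ Δ ∈ P, (supp n Δ).card < k ∧ Valid C M Δ) {Γ : Set (Lit C.N)}
    (hΓ : (supp n Γ).card < k) (hs : Step ψ D C P Γ) : Valid C M Γ := by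
  cases hs with
  | fact ha hv hx => exact sound_fact h hD hΓ ha hv hx
  | hyp hx hxΓ => exact sound_hyp h hr hn hbig hψ hΓ hx hxΓ
  | ident hab ha hb => exact sound_ident h hΓ hab ha hb
  | weak hΔ hs => exact sound_weak h hΓ (hP _ hΔ).1 (hP _ hΔ).2 hs
  | cut h1 h2 => exact sound_cut h hΓ (hP _ h1).1 (hP _ h2).1 (hP _ h1).2 (hP _ h2).2
  | andI hS ha h1 => exact sound_andI h hΓ hS ha fun x hx => hP _ (h1 x hx)
  | andE hS ha h1 => exact sound_andE h hΓ hS ha (hP _ h1).1 (hP _ h1).2
  | total h1 => exact sound_total h hΓ h1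
  | excl ha hb hcd ha' hb' => exact sound_excl h hΓ ha hb hcd ha' hb'
  | one ha hx ha' => exact sound_one h hΓ ha hx ha'
  | zero ha hx ha' => exact sound_zero h hΓ ha hx ha'
  | sum hT hd hp ha hp' ha' => exact sound_sum h hΓ hT hd hp ha hp' ha'

theorem lower_sum (ψ : L.Sentence) (m s n k : ℕ) (D : Set (Atom L (Fin s ⊕ Fin n) × Bool))
    (M : Type) [L.Structure (Fin s ⊕ M)] (hψ : (Fin s ⊕ M) ⊨ ψ) (hD : Holds D M)
    (hn : qd ψ + 16 + 64 * k ≤ n) (hM : Big M (qd ψ + 16 + 8 * k))
    (hc : ModCond m n k M) (R : Refutation ψ m s n D) : n.choose k ≤ R.size := by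
  by_contra hlt
  push Not at hlt
  have hfin : R.lines.Finite := Set.toFinite _
  have h1 : 1 ≤ R.lines.ncard := by
    rw [Nat.succ_le_iff, Set.ncard_pos hfin]
    exact ⟨∅, R.empty_mem⟩
  have hN : Nat.card R.C.N ≤ R.size := Nat.le_add_right _ _
  have hL : R.lines.ncard ≤ R.size := Nat.le_add_left _ _
  have hk : 0 < k := by
    rcases Nat.eq_zero_or_pos k with rfl | h
    · rw [Nat.choose_zero_right] at hlt
      omega
    · exact h
  have h2 : n.choose k ≤ 2 ^ (n / 8) := choose_le_two_pow (by omega)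
  have hnode : ∀ a : R.C.N, (supp n a).card < k := by
    intro a
    have h3 : (MulAction.orbit (Equiv.Perm (Fin n)) a).ncard ≤ Nat.card R.C.N := by
      rw [← Set.ncard_univ]
      exact Set.ncard_le_ncard (Set.subset_univ _) (Set.toFinite _)
    exact supp_card_lt a k (by omega) (by omega) (by omega)
  have hline : ∀ Γ ∈ R.lines, (supp n Γ).card < k := by
    intro Γ hΓ
    have h3 : (MulAction.orbit (Equiv.Perm (Fin n)) Γ).ncard ≤ R.lines.ncard := by
      apply Set.ncard_le_ncard _ hfin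
      rintro _ ⟨σ, rfl⟩
      exact R.smul_mem σ Γ hΓ
    exact supp_card_lt Γ k (by omega) (by omega) (by omega)
  have hstd : Std R.C M k := ⟨hk, by omega, hM.mono (by omega), hnode, hc⟩
  have hval : ∀ t, ∀ Γ ∈ R.lines, R.order Γ = t → Valid R.C M Γ := by
    intro t
    induction t using Nat.strong_induction_on with
    | _ t ih =>
      intro Γ hΓ ht
      refine step_sound hstd le_rfl (by omega) (hM.mono (by omega)) hψ hD ?_ (hline Γ hΓ)
        (R.step Γ hΓ)
      rintro Δ ⟨hΔ, hlt⟩
      exact ⟨hline Δ hΔ, ih _ (ht ▸ hlt) Δ hΔ rfl⟩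
  have h3 := hval _ ∅ R.empty_mem rfl
  have hne : Nonempty M := by
    rcases hM with h | h
    · infer_instance
    · exact (Nat.card_pos_iff.1 (by omega)).1
  obtain ⟨y⟩ := hne
  obtain ⟨e, -, he⟩ := exists_extend ∅ (supp n (∅ : Set (Lit R.C.N))) (Finset.empty_subset _)
    (fun _ => y) (by simp) (hM.imp id fun h => by
      have := hline ∅ R.empty_mem
      omega)
  obtain ⟨x, hx, -⟩ := h3 e he
  exact hx

theorem lower_expl (ψ : L.Sentence) (m s n k : ℕ) (M : Type) [L.Structure M]
    (hψ : M ⊨ ψ) (hn : qd ψ + 16 + 64 * k ≤ n)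
    (hM : Infinite M ∨ s + (qd ψ + 16) + 8 * k ≤ Nat.card M)
    (hc : m = 1 ∨ (Finite M ∧ Nat.card M + 2 ≤ s + n ∧
      ∀ i, 0 < i → i < k → m ∣ (s + n - Nat.card M).choose i))
    (R : Refutation ψ m s n ∅) : n.choose k ≤ R.size := by
  classical
  have hinj : ∃ i₀ : Fin s → M, Function.Injective i₀ := by
    rcases hM with h | h
    · exact ⟨fun i => Infinite.natEmbedding M i.1, fun i j hij =>
        Fin.ext ((Infinite.natEmbedding M).injective hij)⟩
    · have hf : Finite M := (Nat.card_pos_iff.1 (by omega)).2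
      exact ⟨fun i => (Finite.equivFin M).symm (Fin.castLE (by omega) i), fun i j hij => by
        have := (Finite.equivFin M).symm.injective hij
        exact Fin.castLE_injective _ this⟩
  obtain ⟨i₀, hi₀⟩ := hinj
  let M' : Type := {y : M // ¬ y ∈ Set.range i₀}
  let w : Fin s ⊕ M' ≃ M :=
    (Equiv.sumCongr (Equiv.ofInjective i₀ hi₀) (Equiv.refl _)).trans
      (Equiv.sumCompl (fun y : M => y ∈ Set.range i₀))
  let _ : L.Structure (Fin s ⊕ M') := w.symm.inducedStructure
  have hψ' : (Fin s ⊕ M') ⊨ ψ :=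
    (StrongHomClass.realize_sentence w.symm.inducedStructureEquiv ψ).1 hψ
  have hcard : Finite M → Nat.card M = s + Nat.card M' := by
    intro hf
    have : Finite M' := inferInstanceAs (Finite {y : M // ¬ y ∈ Set.range i₀})
    rw [← Nat.card_congr w, Nat.card_sum, Nat.card_fin]
  have hM' : Big M' (qd ψ + 16 + 8 * k) := by
    rcases hM with h | h
    · left
      by_contra hc'
      rw [not_infinite_iff_finite] at hc'
      have : Finite (Fin s ⊕ M') := inferInstance
      exact (Finite.of_equiv _ w).false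
    · right
      have hf : Finite M := (Nat.card_pos_iff.1 (by omega)).2
      have := hcard hf
      omega
  refine lower_sum ψ m s n k ∅ M' hψ' (fun v b hv => absurd hv (Set.notMem_empty _)) hn hM' ?_ R
  rcases hc with h | ⟨hf, h1, h2⟩
  · exact Or.inl h
  · have h3 := hcard hf
    refine Or.inr ⟨inferInstanceAs (Finite {y : M // ¬ y ∈ Set.range i₀}), by omega, ?_⟩
    intro i hi hik
    have h4 := h2 i hi hik
    have h5 : s + n - Nat.card M = n - Nat.card M' := by omega
    rwa [h5] at h4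

end Pool.H93.SY
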