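import Pool.Agent.H93.SY.LiftE
import Pool.Agent.H93.SY.LiftF
import Pool.Agent.H93.SY.LiftS
import Pool.Agent.H93.SY.LiftN
import Pool.Agent.H93.SY.Lower
import Pool.Agent.H93.SY.Classic

/-!
# The lifting theorem and the lower bound for all models

MODULE LM.

`ext_step`: by cases on the rule.
`lift_main`. Let `C = R.C`. As in `lower_sum` (`Lower.lean`), `0 < k` and all supports of nodes and lines
have less than `k` points, so `Small C k`. The lines of `R'` are the `liftL C Γ f`, `Γ ∈ R.lines`, `f`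
injective on `supp n Γ`; `order' Δ` is the smallest `R.order Γ` with `Δ = liftL C Γ f`.
`final_lower`. For infinite `M`, `m = 1`: `lower`. For finite `M` let `n' = Nat.card M - s`; if
`R.size < n.choose k` then `lift_main` gives a refutation over `Fin s ⊕ Fin n'`, and `M` gives a
structure on `Fin s ⊕ Fin n'` satisfying `ψ`, a contradiction to `classical`.
-/

set_option autoImplicit false

namespace Pool.H93.SY

open scoped Pointwise
open FirstOrder.Language

variable {L : FirstOrder.Language.{0, 0}} [L.IsRelational]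

/-- The facts in `D`, placed by all injective maps of their points. -/
def liftD {s n : ℕ} (D : Set (Atom L (Fin s ⊕ Fin n) × Bool)) (n' : ℕ) :
    Set (Atom L (Fin s ⊕ Fin n') × Bool) :=
  {x | ∃ v b, (v, b) ∈ D ∧ ∃ f : Fin n → Fin n', Set.InjOn f {p | ∃ i, v.2.2 i = Sum.inr p} ∧
    x = (⟨v.1, v.2.1, fun i => Sum.map id f (v.2.2 i)⟩, b)}

theorem ext_step_fact {m s n n' k : ℕ} {C : Circuit L m s n} (hC : Small C k) {ψ : L.Sentence}
    (h8 : 8 * k + 8 ≤ n') {D : Set (Atom L (Fin s ⊕ Fin n) × Bool)}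
    (P' : Set (Set (Lit (PN C n')))) {Γ : Set (Lit C.N)} (hΓ : (supp n Γ).card < k)
    {f : Fin n → Fin n'} (hf : Set.InjOn f (supp n Γ)) {a : C.N} {v : Atom L (Fin s ⊕ Fin n)}
    {b : Bool} (ha : C.gate a = .var v) (hv : (v, b) ∈ D) (hx : ⟨a, b⟩ ∈ Γ) :
    Step ψ (liftD D n') (ext hC n') P' (liftL C Γ f) := by
  have hroom := hC.room
  have hna := hC.node a
  have h1 := Finset.card_union_le (supp n Γ) (supp n a)
  obtain ⟨f', hf1, hf2⟩ := exists_extend (supp n Γ) (supp n Γ ∪ supp n a)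
    Finset.subset_union_left f hf (Or.inr (by rw [Nat.card_fin]; omega))
  rw [liftL_congr (g := f') (fun i hi => (hf1 i hi).symm)]
  refine .fact (a := pmk C a f') (v := ⟨v.1, v.2.1, fun i => Sum.map id f' (v.2.2 i)⟩) (b := b)
    ?_ ?_ ?_
  · rw [ext_gate, pgate0_var ha]
    rfl
  · refine ⟨v, b, hv, f', hf2.mono ?_, rfl⟩
    rintro p ⟨i, hi⟩
    exact Finset.mem_coe.2 (Finset.mem_union_right _ (args_mem (by omega) ha i hi))
  · exact plit_mem_lift hf2 hx Finset.subset_union_left Finset.subset_union_right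

theorem ext_step {m s n n' k : ℕ} {C : Circuit L m s n} (hC : Small C k) {ψ : L.Sentence}
    {D : Set (Atom L (Fin s ⊕ Fin n) × Bool)}
    (hn : 3 * k + qd ψ + 4 ≤ n) (hn' : 3 * k + qd ψ + 1 ≤ n') (h8 : 8 * k + 8 ≤ n')
    (hm : ∀ i, 0 < i → i < k → m ∣ (max n n' - min n n').choose i)
    {P : Set (Set (Lit C.N))} {P' : Set (Set (Lit (PN C n')))}
    (hP : ∀ Δ ∈ P, (supp n Δ).card < k)
    (hP' : ∀ Δ ∈ P, ∀ g : Fin n → Fin n', Set.InjOn g (supp n Δ) → liftL C Δ g ∈ P')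
    {Γ : Set (Lit C.N)} (hΓ : (supp n Γ).card < k) {f : Fin n → Fin n'}
    (hf : Set.InjOn f (supp n Γ)) (hs : Step ψ D C P Γ) :
    Step ψ (liftD D n') (ext hC n') P' (liftL C Γ f) := by
  cases hs with
  | fact ha hv hx => exact ext_step_fact hC h8 P' hΓ hf ha hv hx
  | hyp hx hxΓ => exact ext_step_hyp hC hn hn' h8 P' hΓ hf hx hxΓ
  | ident hab ha hb => exact ext_step_ident hC h8 P' hΓ hf hab ha hb
  | weak hΔ hs => exact ext_step_weak hC h8 hP hP' hΓ hf hΔ hs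
  | cut h1 h2 => exact ext_step_cut hC h8 hP hP' hΓ hf h1 h2
  | andI hS ha h1 => exact ext_step_andI hC h8 hP hP' hΓ hf hS ha h1
  | andE hS ha h1 => exact ext_step_andE hC h8 hP hP' hΓ hf hS ha h1
  | total h1 => exact ext_step_total hC h8 P' hΓ hf h1
  | excl ha hb hcd ha' hb' => exact ext_step_excl hC h8 P' hΓ hf ha hb hcd ha' hb'
  | one ha hx ha' => exact ext_step_one hC h8 P' hΓ hf ha hx ha'
  | zero ha hx ha' => exact ext_step_zero hC h8 P' hΓ hf ha hx ha'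
  | sum hT hd hp ha hp' ha' => exact ext_step_sum hC h8 hm P' hΓ hf hT hd hp ha hp' ha'

/-- Small refutations have small supports. -/
theorem small_of_size {ψ : L.Sentence} {m s n k : ℕ} {D : Set (Atom L (Fin s ⊕ Fin n) × Bool)}
    (hn : 16 + 64 * k ≤ n) (R : Refutation ψ m s n D) (hlt : R.size < n.choose k) :
    Small R.C k ∧ ∀ Γ ∈ R.lines, (supp n Γ).card < k := by
  have hfin : R.lines.Finite := Set.toFinite _
  have h1 : 1 ≤ R.lines.ncard := by
    rw [Nat.succ_le_iff, Set.ncard_pos hfin]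
    exact ⟨∅, R.empty_mem⟩
  have hN : Nat.card R.C.N ≤ R.size := Nat.le_add_right _ _
  have hL : R.lines.ncard ≤ R.size := Nat.le_add_left _ _
  have hk : 0 < k := by
    rcases Nat.eq_zero_or_pos k with rfl | h
    · rw [Nat.choose_zero_right] at hlt
      omega
    · exact h
  have h2 : n.choose k ≤ 2 ^ (n / 8) := choose_le_two_pow (by omega)
  have hnode : ∀ a : R.C.N, (supp n a).card < k := by
    intro a
    have h3 : (MulAction.orbit (Equiv.Perm (Fin n)) a).ncard ≤ Nat.card R.C.N := by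
      rw [← Set.ncard_univ]
      exact Set.ncard_le_ncard (Set.subset_univ _) (Set.toFinite _)
    exact supp_card_lt a k (by omega) (by omega) (by omega)
  refine ⟨⟨hk, by omega, hnode⟩, ?_⟩
  intro Γ hΓ
  have h3 : (MulAction.orbit (Equiv.Perm (Fin n)) Γ).ncard ≤ R.lines.ncard := by
    apply Set.ncard_le_ncard _ hfin
    rintro _ ⟨σ, rfl⟩
    exact R.smul_mem σ Γ hΓ
  exact supp_card_lt Γ k (by omega) (by omega) (by omega)

theorem lift_main (ψ : L.Sentence) (m s n n' k : ℕ)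
    (D : Set (Atom L (Fin s ⊕ Fin n) × Bool)) (hn : qd ψ + 16 + 64 * k ≤ n)
    (hn' : qd ψ + 16 + 8 * k ≤ n')
    (hm : ∀ i, 0 < i → i < k → m ∣ (max n n' - min n n').choose i)
    (R : Refutation ψ m s n D) (hlt : R.size < n.choose k) :
    ∃ R' : Refutation ψ m s n' (liftD D n'), R'.size ≤ R.size * n' ^ (k - 1) ∧
      (∀ d, (∀ a, R.C.rank a ≤ d) → ∀ a, R'.C.rank a ≤ d) ∧
      ((∀ a c S, R.C.gate a ≠ .mod c S) → ∀ a c S, R'.C.gate a ≠ .mod c S) := by
  obtain ⟨hC, hline⟩ := small_of_size (by omega) R hlt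
  let Lns : Set (Set (Lit (PN R.C n'))) := {Δ | ∃ Γ ∈ R.lines, ∃ f : Fin n → Fin n',
    Set.InjOn f (supp n Γ) ∧ Δ = liftL R.C Γ f}
  let ord : Set (Lit (PN R.C n')) → ℕ := fun Δ => sInf {t | ∃ Γ ∈ R.lines,
    ∃ f : Fin n → Fin n', Set.InjOn f (supp n Γ) ∧ Δ = liftL R.C Γ f ∧ R.order Γ = t}
  have hord : ∀ Γ ∈ R.lines, ∀ f : Fin n → Fin n', Set.InjOn f (supp n Γ) →
      ord (liftL R.C Γ f) ≤ R.order Γ := fun Γ hΓ f hf => Nat.sInf_le ⟨Γ, hΓ, f, hf, rfl, rfl⟩
  have hord' : ∀ Δ ∈ Lns, ∃ Γ ∈ R.lines, ∃ f : Fin n → Fin n', Set.InjOn f (supp n Γ) ∧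
      Δ = liftL R.C Γ f ∧ R.order Γ = ord Δ := by
    rintro Δ ⟨Γ, hΓ, f, hf, rfl⟩
    exact Nat.sInf_mem (s := {t | ∃ Γ' ∈ R.lines, ∃ f' : Fin n → Fin n',
      Set.InjOn f' (supp n Γ') ∧ liftL R.C Γ f = liftL R.C Γ' f' ∧ R.order Γ' = t})
      ⟨_, Γ, hΓ, f, hf, rfl, rfl⟩
  have hpos : 0 < n' := by omega
  refine ⟨⟨ext hC n', Lns, ?_, ord, ?_, ?_⟩, ?_, ?_, ?_⟩
  · rintro τ Δ ⟨Γ, hΓ, f, hf, rfl⟩
    refine ⟨Γ, hΓ, fun i => τ (f i), ?_, ?_⟩
    · intro i hi j hj hij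
      exact hf hi hj (τ.injective hij)
    · exact smul_lift τ Γ (supp n Γ) f
  · intro Δ hΔ
    obtain ⟨Γ, hΓ, f, hf, rfl, hor⟩ := hord' Δ hΔ
    refine ext_step hC (by omega) (by omega) (by omega) hm (P := {Δ | Δ ∈ R.lines ∧
      R.order Δ < R.order Γ}) (fun Δ hΔ => hline Δ hΔ.1) ?_ (hline Γ hΓ) hf (R.step Γ hΓ)
    rintro Δ ⟨hΔ1, hΔ2⟩ g hg
    exact ⟨⟨Δ, hΔ1, g, hg, rfl⟩, (hord Δ hΔ1 g hg).trans_lt (hΔ2.trans_eq hor)⟩
  · obtain ⟨e, -, he⟩ := exists_extend ∅ (supp n (∅ : Set (Lit R.C.N)))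
      (Finset.empty_subset _) (fun _ => (⟨0, hpos⟩ : Fin n')) (by simp) (Or.inr (by
        have := hline ∅ R.empty_mem
        rw [Nat.card_fin]
        omega))
    refine ⟨∅, R.empty_mem, e, he, ?_⟩
    exact (lift_empty _ _).symm
  · have h1 := card_PN (n' := n') hC hpos
    have h2 := card_liftL (n' := n') hC hpos hline
    show Nat.card (PN R.C n') + Lns.ncard ≤ (Nat.card R.C.N + R.lines.ncard) * n' ^ (k - 1)
    rw [add_mul]
    exact Nat.add_le_add h1 h2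
  · intro d hd z
    obtain ⟨a, f, rfl⟩ := exists_pmk z
    exact (prank_le R.C a f).trans (hd a)
  · intro hno z c S
    obtain ⟨a, f, rfl⟩ := exists_pmk z
    show pgate0 R.C a f ≠ .mod c S
    cases hg : R.C.gate a with
    | var v =>
      rw [pgate0_var hg]
      intro h
      cases h
    | and T =>
      rw [pgate0_and hg]
      intro h
      cases h
    | mod d T => exact absurd hg (hno a d T)

theorem final_lower (ψ : L.Sentence) (m s n k : ℕ) (D : Set (Atom L (Fin s ⊕ Fin n) × Bool))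
    (M : Type) [L.Structure (Fin s ⊕ M)] (hψ : (Fin s ⊕ M) ⊨ ψ) (hD : Holds D M)
    (hn : qd ψ + 16 + 64 * k ≤ n)
    (hM : (m = 1 ∧ Infinite M) ∨ (Finite M ∧ qd ψ + 16 + 8 * k ≤ Nat.card M ∧
      ∀ i, 0 < i → i < k → m ∣ (max n (Nat.card M) - min n (Nat.card M)).choose i))
    (R : Refutation ψ m s n D) : n.choose k ≤ R.size := by
  rcases hM with ⟨hm, hi⟩ | ⟨hf, hc, hd⟩
  · exact lower_sum ψ m s n k D M hψ hD hn (Or.inl hi) (Or.inl hm) R
  · by_contra hlt
    push Not at hlt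
    obtain ⟨n', hn'⟩ : ∃ n', Nat.card M = n' := ⟨_, rfl⟩
    rw [hn'] at hd hc
    obtain ⟨R', -, -, -⟩ := lift_main ψ m s n n' k D hn (by omega) hd R hlt
    let e : M ≃ Fin n' := Finite.equivFinOfCardEq hn'
    let w : Fin s ⊕ M ≃ Fin s ⊕ Fin n' := Equiv.sumCongr (Equiv.refl _) e
    let _ : L.Structure (Fin s ⊕ Fin n') := w.inducedStructure
    refine classical ψ ?_ R' ((StrongHomClass.realize_sentence w.inducedStructureEquiv ψ).1 hψ)
    rintro v' b' ⟨v, b, hv, f, hf1, hvb⟩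
    rw [Prod.mk.injEq] at hvb
    obtain ⟨h1, h2⟩ := hvb
    subst h1 h2
    rw [← hD v b' hv (fun i => e.symm (f i)) (fun i hi j hj hij => hf1 hi hj (e.symm.injective hij))]
    show Structure.RelMap v.2.1 (w.symm ∘ fun i => Sum.map id f (v.2.2 i)) ↔ _
    have h3 : (w.symm ∘ fun i => Sum.map id f (v.2.2 i) : Fin v.1 → Fin s ⊕ M) =
        fun i => Sum.map id (fun i => e.symm (f i)) (v.2.2 i) := by
      funext i
      cases hvi : v.2.2 i with
      | inl t => simp [w, hvi]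
      | inr p => simp [w, hvi]
    rw [h3]

end Pool.H93.SY
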