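import Pool.Agent.H93.SY.LiftB
import Pool.Agent.H93.SY.Rep

/-!
# The lift of a node representing a formula represents the formula

MODULE LR.

`rep_lift`. Proof by induction on `φ` (`induction φ generalizing x f with …`, compare `rep_val` in
`Rep.lean`), with `j + qd φ ≤ r`. Let `F f = Sum.map id f : Fin s ⊕ Fin n → Fin s ⊕ Fin n'`,
`g = x.node`. The label of `pmk C g f` is `pgate0 C g f`.
- `falsum`: `pgate0_and`, `lift_empty`.
- `equal t₁ t₂`: the same, and `tv (F f ∘ v) t = F f (tv v t)` (`tv_comp`), and `F f` is injective on the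
  values of `v` (`tv_mem`; `f` is injective on `pts v`).
- `rel R ts`: `pgate0_var`, `tv_comp`.
- `imp φ θ`: the gate of `g` is `and {y, z.neg}`. Let `A' = supp n g ∪ supp n y.node ∪ supp n z.node`
  and extend `f` from `supp n g ∪ pts v` to `f'` injective on `A' ∪ pts v` (`exists_extend`;
  `3 k + r ≤ n'`). `pmk C g f = pmk C g f'` (`pmk_congr`), `F f ∘ v = F f' ∘ v`; the label of
  `pmk C g f'` is `and (lift C {y, z.neg} A' f')` by `gate_and_up` (`f'` is injective on `A'`), and
  this is `and {plit C y f', (plit C z f').neg}` by `lift_insert`, `lift_singleton`, `plit_neg`. By the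
  induction hypotheses `plit C y f'`, `plit C z f'` represent `φ`, `θ` under `F f' ∘ v`.
- `all φ`: the gate of `g` is `and S`. Let `A' = supp n g ∪ pts v` (at most `k + r` points; `f` is
  injective on it), `T = lift C S A' f`, so that the label of `pmk C g f` is `and T` (`gate_and_up`
  needs `A'.card ≤ 8 k`; as `r` may be larger than `k`, use instead `lift_up'` below, the same as
  `lift_up` with the weaker condition `A'.card + k + 2 ≤ n`).
  (1) For `b' : Fin s ⊕ Fin n'` there are `f'` and `b` with `f' = f` on `A'`, `F f' b = b'`, and for any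
  `y` with `(supp n y.node).card < k` we can take `f'` injective on `A' ∪ supp n y.node ∪ B b`
  (`B b = {p}` for `b = Sum.inr p`, `∅` otherwise): if `b' = Sum.inl t` take `b = Sum.inl t`; if
  `b' = Sum.inr q`, `q = f p` with `p ∈ A'`, take `b = Sum.inr p`; otherwise choose `p ∉ A'`,
  `b = Sum.inr p`, and `f' p = q` (extend `Function.update f p q`, injective on `insert p A'`, by
  `exists_extend`; first choose `b`, then `y ∈ S` representing `φ` under `Fin.snoc v b`, then `f'`).
  Then `plit C y f' ∈ T`, and by the induction hypothesis it represents `φ` under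
  `F f' ∘ Fin.snoc v b = Fin.snoc (F f ∘ v) b'` (`snoc_comp`).
  (2) A member of `T` is `plit C y f₁` with `y ∈ S`, `f₁ = f` on `A'`, `f₁` injective on
  `A' ∪ supp n y.node`; `y` represents `φ` under `Fin.snoc v b` for some `b`. Extend `f₁` to `f₂`
  injective on `A' ∪ supp n y.node ∪ B b`; `plit C y f₁ = plit C y f₂` (`plit_congr`), and by the
  induction hypothesis it represents `φ` under `Fin.snoc (F f ∘ v) (F f₂ b)`.
`lift_up'`: the proof of `lift_up` (in `LiftA.lean`; `transfer_even` needs `A'.card + k + 2 ≤ n`).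
-/

set_option autoImplicit false

namespace Pool.H93.SY

open scoped Pointwise
open FirstOrder.Language

variable {L : FirstOrder.Language.{0, 0}} {m s n : ℕ} {C : Circuit L m s n} {n' k : ℕ}

theorem lift_up' (hC : Small C k) {S : Set (Lit C.N)} {A A' : Finset (Fin n)} (hS : Fixes A S)
    (hA : A ⊆ A') (hA' : A'.card + k + 2 ≤ n) {f : Fin n → Fin n'} (hf : Set.InjOn f A') :
    lift C S A f = lift C S A' f := by
  ext z
  constructor
  · rintro ⟨x, hx, g, h1, h2, h3⟩
    obtain ⟨x', hx', g', h4, h5, h6⟩ := transfer_even (M := Fin n')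
      (Q := fun y h => z = plit C y h) (fun a => (hC.node a).le) hS hA hA' hf
      (by
        intro x f f' hff hz
        rw [hz]
        exact plit_congr hff)
      (by
        intro σ x f hσ hz
        rw [hz, plit_smul hσ]) ⟨x, hx, g, h1, h2, h3⟩
    exact ⟨x', hx', g', h4, h5, h6⟩
  · rintro ⟨x, hx, g, h1, h2, h3⟩
    refine ⟨x, hx, g, fun i hi => h1 i (hA hi), h2.mono ?_, h3⟩
    rw [Finset.coe_subset]
    exact Finset.union_subset_union_left hA

theorem tv_comp [L.IsRelational] {P Q : Type} {j : ℕ} (v : Fin j → P) (e : P → Q)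
    (t : L.Term (Empty ⊕ Fin j)) : tv (e ∘ v) t = e (tv v t) := by
  cases t with
  | var a =>
    cases a with
    | inl e => exact e.elim
    | inr i => rfl
  | func f _ => exact isEmptyElim f

private theorem comp_eq' {s n j : ℕ} {M : Type} {v : Fin j → Fin s ⊕ Fin n} {e f : Fin n → M}
    (h : ∀ i ∈ pts v, f i = e i) : (Sum.map id f ∘ v : Fin j → Fin s ⊕ M) = Sum.map id e ∘ v := by
  funext i
  show Sum.map id f (v i) = Sum.map id e (v i)
  cases hv : v i with
  | inl t => rfl
  | inr p =>
    show (Sum.inr (f p) : Fin s ⊕ M) = Sum.inr (e p)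
    rw [h p (mem_pts.2 ⟨i, hv⟩)]

/-- the point of `b` -/
private def pb {s n : ℕ} (b : Fin s ⊕ Fin n) : Finset (Fin n) :=
  Sum.elim (fun _ => ∅) (fun p => {p}) b

private theorem pb_card {s n : ℕ} (b : Fin s ⊕ Fin n) : (pb b).card ≤ 1 := by
  cases b with
  | inl t => exact Nat.zero_le _
  | inr p => exact (Finset.card_singleton p).le

private theorem pts_snoc_sub {s n j : ℕ} (v : Fin j → Fin s ⊕ Fin n) (b : Fin s ⊕ Fin n) :
    pts (Fin.snoc v b : Fin (j + 1) → Fin s ⊕ Fin n) ⊆ pts v ∪ pb b := by
  intro p hp
  rcases mem_pts_snoc.1 hp with h | h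
  · exact Finset.mem_union_left _ h
  · subst h
    exact Finset.mem_union_right _ (Finset.mem_singleton_self p)

private theorem map_pb {s n n' : ℕ} {f g : Fin n → Fin n'} {b : Fin s ⊕ Fin n}
    (h : ∀ i ∈ pb b, f i = g i) : Sum.map id f b = Sum.map id g b := by
  cases b with
  | inl t => rfl
  | inr p =>
    show (Sum.inr (f p) : Fin s ⊕ Fin n') = Sum.inr (g p)
    rw [h p (Finset.mem_singleton_self p)]

private theorem exists_pre {s n n' : ℕ} {A : Finset (Fin n)} (hA : A.card < n) {f : Fin n → Fin n'}
    (hf : Set.InjOn f A) (b' : Fin s ⊕ Fin n') :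
    ∃ (b : Fin s ⊕ Fin n) (g : Fin n → Fin n'), (∀ i ∈ A, g i = f i) ∧ Sum.map id g b = b' ∧
      Set.InjOn g (A ∪ pb b : Finset (Fin n)) := by
  classical
  cases b' with
  | inl t =>
    refine ⟨Sum.inl t, f, fun _ _ => rfl, rfl, ?_⟩
    have h1 : A ∪ pb (Sum.inl t : Fin s ⊕ Fin n) = A := Finset.union_empty A
    rw [h1]
    exact hf
  | inr q =>
    by_cases hq : ∃ p ∈ A, f p = q
    · obtain ⟨p, hp, hpq⟩ := hq
      refine ⟨Sum.inr p, f, fun _ _ => rfl, ?_, ?_⟩
      · show (Sum.inr (f p) : Fin s ⊕ Fin n') = Sum.inr q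
        rw [hpq]
      · have h1 : A ∪ pb (Sum.inr p : Fin s ⊕ Fin n) = A := by
          refine Finset.union_eq_left.2 ?_
          intro i hi
          rw [Finset.mem_singleton.1 hi]
          exact hp
        rw [h1]
        exact hf
    · obtain ⟨p, hp⟩ : ∃ p, p ∉ A := by
        by_contra hcon
        push Not at hcon
        have h3 := Finset.card_le_card (fun x _ => hcon x : (Finset.univ : Finset (Fin n)) ⊆ _)
        rw [Finset.card_univ, Fintype.card_fin] at h3
        omega
      refine ⟨Sum.inr p, Function.update f p q, ?_, ?_, ?_⟩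
      · intro i hi
        have hip : i ≠ p := by
          rintro rfl
          exact hp hi
        rw [Function.update_of_ne hip]
      · show (Sum.inr (Function.update f p q p) : Fin s ⊕ Fin n') = Sum.inr q
        rw [Function.update_self]
      · intro a ha b hb hab
        have ha' : a = p ∨ a ∈ A := (Finset.mem_union.1 ha).symm.imp
          (fun h => Finset.mem_singleton.1 h) id
        have hb' : b = p ∨ b ∈ A := (Finset.mem_union.1 hb).symm.imp
          (fun h => Finset.mem_singleton.1 h) id
        by_cases hap : a = p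
        · by_cases hbp : b = p
          · rw [hap, hbp]
          · rw [hap, Function.update_self, Function.update_of_ne hbp] at hab
            exact absurd ⟨b, hb'.resolve_left hbp, hab.symm⟩ hq
        · by_cases hbp : b = p
          · rw [hbp, Function.update_self, Function.update_of_ne hap] at hab
            exact absurd ⟨a, ha'.resolve_left hap, hab⟩ hq
          · rw [Function.update_of_ne hap, Function.update_of_ne hbp] at hab
            exact hf (ha'.resolve_left hap) (hb'.resolve_left hbp) hab

theorem rep_lift [L.IsRelational] (hC : Small C k) {r : ℕ} (hn : 3 * k + r + 4 ≤ n)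
    (hn' : 3 * k + r + 1 ≤ n') {j : ℕ} (φ : L.BoundedFormula Empty j) (hr : j + qd φ ≤ r)
    (v : Fin j → Fin s ⊕ Fin n) (x : Lit C.N) (hx : C.Rep φ v x) (f : Fin n → Fin n')
    (hf : Set.InjOn f (supp n x.node ∪ pts v : Finset (Fin n))) :
    (ext hC n').Rep φ (Sum.map id f ∘ v) (plit C x f) := by
  classical
  have hn2 : 2 ≤ n := by omega
  have hext : ∀ (A A' : Finset (Fin n)), A ⊆ A' → A'.card ≤ n' → ∀ f : Fin n → Fin n',
      Set.InjOn f A → ∃ g : Fin n → Fin n', (∀ i ∈ A, g i = f i) ∧ Set.InjOn g A' := by
    intro A A' hA hc f hf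
    refine exists_extend A A' hA f hf (Or.inr ?_)
    rw [Nat.card_eq_fintype_card, Fintype.card_fin]
    exact hc
  have hnode : ∀ a : C.N, (supp n a).card ≤ k := fun a => (hC.node a).le
  induction φ generalizing x f with
  | falsum =>
    obtain ⟨h1, h2⟩ := hx
    refine ⟨h1, ?_⟩
    show pgate0 C x.node f = _
    rw [pgate0_and h2, lift_empty]
    rfl
  | equal t₁ t₂ =>
    obtain ⟨h1, h2⟩ := hx
    have hg : (ext hC n').gate (plit C x f).node = .and ∅ := by
      show pgate0 C x.node f = _
      rw [pgate0_and h2, lift_empty]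
      rfl
    refine ⟨?_, hg⟩
    show x.pos = true ↔ tv (Sum.map id f ∘ v) t₁ = tv (Sum.map id f ∘ v) t₂
    rw [h1, tv_comp, tv_comp]
    constructor
    · intro h
      rw [h]
    · intro h
      obtain ⟨i₁, hi₁⟩ := tv_mem v t₁
      obtain ⟨i₂, hi₂⟩ := tv_mem v t₂
      rw [hi₁, hi₂] at h ⊢
      cases hv₁ : v i₁ with
      | inl a₁ =>
        cases hv₂ : v i₂ with
        | inl a₂ =>
          rw [hv₁, hv₂] at h
          have h4 : (Sum.inl a₁ : Fin s ⊕ Fin n') = Sum.inl a₂ := h
          injection h4 with h5
          rw [h5]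
        | inr p₂ =>
          rw [hv₁, hv₂] at h
          have h4 : (Sum.inl a₁ : Fin s ⊕ Fin n') = Sum.inr (f p₂) := h
          cases h4
      | inr p₁ =>
        cases hv₂ : v i₂ with
        | inl a₂ =>
          rw [hv₁, hv₂] at h
          have h4 : (Sum.inr (f p₁) : Fin s ⊕ Fin n') = Sum.inl a₂ := h
          cases h4
        | inr p₂ =>
          rw [hv₁, hv₂] at h
          have h4 : (Sum.inr (f p₁) : Fin s ⊕ Fin n') = Sum.inr (f p₂) := h
          injection h4 with h5
          have h6 := hf (Finset.mem_coe.2 (Finset.mem_union_right _ (mem_pts.2 ⟨i₁, hv₁⟩)))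
            (Finset.mem_coe.2 (Finset.mem_union_right _ (mem_pts.2 ⟨i₂, hv₂⟩))) h5
          rw [h6]
  | rel R ts =>
    obtain ⟨h1, h2⟩ := hx
    refine ⟨h1, ?_⟩
    show pgate0 C x.node f = _
    rw [pgate0_var h2]
    congr 1
    congr 1
    congr 1
    funext i
    rw [tv_comp]
  | @imp j φ θ ih1 ih2 =>
    obtain ⟨h1, y, z, hy, hz, h2⟩ := hx
    have hq : qd (φ.imp θ) = max (qd φ) (qd θ) := rfl
    rw [hq] at hr
    have hj := pts_card v
    obtain ⟨A, hA⟩ : ∃ A, A = supp n x.node ∪ supp n y.node ∪ supp n z.node := ⟨_, rfl⟩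
    have hAc : A.card ≤ 3 * k := by
      rw [hA]
      have h3 := Finset.card_union_le (supp n x.node ∪ supp n y.node) (supp n z.node)
      have h4 := Finset.card_union_le (supp n x.node) (supp n y.node)
      have h5 := hnode x.node
      have h6 := hnode y.node
      have h7 := hnode z.node
      omega
    have hxA : supp n x.node ⊆ A := by
      rw [hA]
      exact Finset.subset_union_left.trans Finset.subset_union_left
    have hyA : supp n y.node ⊆ A := by
      rw [hA]
      exact Finset.subset_union_right.trans Finset.subset_union_left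
    have hzA : supp n z.node ⊆ A := by
      rw [hA]
      exact Finset.subset_union_right
    obtain ⟨g, hg1, hg2⟩ := hext (supp n x.node ∪ pts v) (A ∪ pts v)
      (Finset.union_subset_union_left hxA) (by
        have h3 := Finset.card_union_le A (pts v)
        omega) f hf
    have hgA : Set.InjOn g A := hg2.mono (by
      rw [Finset.coe_subset]
      exact Finset.subset_union_left)
    have hcomp : (Sum.map id g ∘ v : Fin j → Fin s ⊕ Fin n') = Sum.map id f ∘ v :=
      comp_eq' (fun i hi => hg1 i (Finset.mem_union_right _ hi))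
    have hroom := hC.room
    refine ⟨h1, plit C y g, plit C z g, ?_, ?_, ?_⟩
    · have h3 := ih1 (by omega) v y hy g (hg2.mono (by
        rw [Finset.coe_subset]
        exact Finset.union_subset_union_left hyA))
      rwa [hcomp] at h3
    · have h3 := ih2 (by omega) v z hz g (hg2.mono (by
        rw [Finset.coe_subset]
        exact Finset.union_subset_union_left hzA))
      rwa [hcomp] at h3
    · show pgate0 C x.node f = _
      have h3 : lift C {y, z.neg} (supp n x.node) f = lift C {y, z.neg} (supp n x.node) g :=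
        lift_congr (fun i hi => (hg1 i (Finset.mem_union_left _ hi)).symm)
      have h4 : lift C {y, z.neg} (supp n x.node) g = lift C {y, z.neg} A g :=
        lift_up' hC (fixes_and hn2 h2) hxA (by omega) hgA
      have h5 : supp n z.neg.node ⊆ A := hzA
      rw [pgate0_and h2, h3, h4, lift_insert hgA hyA, lift_singleton hgA h5]
      rfl
  | @all j φ ih =>
    obtain ⟨h1, S, h2, hS1, hS2⟩ := hx
    have hq : qd φ.all = qd φ + 1 := rfl
    rw [hq] at hr
    have hj := pts_card v
    obtain ⟨A, hA⟩ : ∃ A, A = supp n x.node ∪ pts v := ⟨_, rfl⟩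
    rw [← hA] at hf
    have hAc : A.card ≤ k + j := by
      rw [hA]
      exact (Finset.card_union_le _ _).trans (Nat.add_le_add (hnode _) hj)
    have hxA : supp n x.node ⊆ A := by
      rw [hA]
      exact Finset.subset_union_left
    have hvA : pts v ⊆ A := by
      rw [hA]
      exact Finset.subset_union_right
    -- the main step
    have key : ∀ (b : Fin s ⊕ Fin n) (y : Lit C.N), C.Rep φ (Fin.snoc v b) y →
        ∀ g : Fin n → Fin n', (∀ i ∈ A, g i = f i) →
        Set.InjOn g (A ∪ pb b ∪ supp n y.node : Finset (Fin n)) →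
        (ext hC n').Rep φ (Fin.snoc (Sum.map id f ∘ v) (Sum.map id g b) : Fin (j + 1) → _)
          (plit C y g) := by
      intro b y hy g hg1 hg2
      have h3 := ih (by omega) (Fin.snoc v b) y hy g (hg2.mono (by
        rw [Finset.coe_subset]
        refine Finset.union_subset Finset.subset_union_right ?_
        refine (pts_snoc_sub v b).trans ?_
        refine (Finset.union_subset_union_left hvA).trans Finset.subset_union_left))
      rw [snoc_comp, comp_eq' (fun i hi => hg1 i (hvA hi))] at h3
      exact h3
    have hcard : ∀ (b : Fin s ⊕ Fin n) (y : Lit C.N),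
        (A ∪ pb b ∪ supp n y.node).card ≤ n' := by
      intro b y
      have h3 := Finset.card_union_le (A ∪ pb b) (supp n y.node)
      have h4 := Finset.card_union_le A (pb b)
      have h5 := pb_card b
      have h6 := hnode y.node
      omega
    refine ⟨h1, lift C S A f, ?_, ?_, ?_⟩
    · show pgate0 C x.node f = _
      rw [pgate0_and h2, lift_up' hC (fixes_and hn2 h2) hxA (by omega) hf]
      rfl
    · intro b'
      obtain ⟨b, g0, hg1, hg2, hg3⟩ := exists_pre (A := A) (by omega) hf b'
      obtain ⟨y, hyS, hy⟩ := hS1 b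
      obtain ⟨g, hg4, hg5⟩ := hext (A ∪ pb b) (A ∪ pb b ∪ supp n y.node)
        Finset.subset_union_left (hcard b y) g0 hg3
      have hgf : ∀ i ∈ A, g i = f i := fun i hi =>
        (hg4 i (Finset.mem_union_left _ hi)).trans (hg1 i hi)
      refine ⟨plit C y g, ⟨y, hyS, g, hgf, hg5.mono ?_, rfl⟩, ?_⟩
      · rw [Finset.coe_subset]
        exact Finset.union_subset_union_left Finset.subset_union_left
      · have h3 := key b y hy g hgf hg5
        have h4 : Sum.map id g b = b' := by
          rw [← hg2]
          exact map_pb (fun i hi => hg4 i (Finset.mem_union_right _ hi))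
        rwa [h4] at h3
    · rintro y' ⟨y, hyS, g0, hg1, hg2, rfl⟩
      obtain ⟨b, hb⟩ := hS2 y hyS
      obtain ⟨g, hg3, hg4⟩ := hext (A ∪ supp n y.node) (A ∪ pb b ∪ supp n y.node)
        (Finset.union_subset_union_left Finset.subset_union_left) (hcard b y) g0 hg2
      refine ⟨Sum.map id g b, ?_⟩
      have h3 : plit C y g0 = plit C y g :=
        plit_congr (fun i hi => (hg3 i (Finset.mem_union_right _ hi)).symm)
      rw [h3]
      exact key b y hb g (fun i hi => (hg3 i (Finset.mem_union_left _ hi)).trans (hg1 i hi)) hg4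

end Pool.H93.SY
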