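import Pool.Agent.H93.SY.Cnt

/-!
# Soundness of the rules without counting gates, part 1

MODULE RA.

In all lemmas `Std C M k` gives `(supp n a).card < k` for the nodes, `32 k + 16 ≤ n` and
`Big M (8 k + 8)`, and the supports of the lines have less than `k` points. Use `valid_of` with a set
`A'` containing `supp n Γ`, `Valid.at` for the premises, `Finset.card_union_le`.

`val_eq_of_gate_eq`. By cases on the common label: variable: `val_var`; conjunction: `val_and_iff` for
both with the same `A'`; `mod c S`: if `m = 1` (`Std.cond`), both are true (`val_mod`,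
`Subsingleton.elim` in `ZMod 1`); otherwise `M` is finite, `Nat.card M + 2 ≤ n`; by `exists_bij` there
are `W ⊇ A'` and `f` with `f = e` on `A'`, `f` bijective from `W` to `M`; `C.val M a e ↔ C.val M a f`
(`val_congr`) and `val_mod_iff` for both.
`sound_ident`. `A' = supp n Γ ∪ supp n a ∪ supp n b`, `e` injective on `A'`. By `val_eq_of_gate_eq`,
`C.val M a e ↔ C.val M b e`. If it is true, `⟨a, true⟩` with `f = e` is a witness (`supp n a ⊆ A'`),
otherwise `⟨b, false⟩` with `f = e` (`tr_true`, `tr_false`).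
`sound_weak`. `A' = supp n Γ ∪ supp n Δ`, `Valid.at`, `Wit.mono`.
`sound_cut`. `A' = supp n Γ ∪ supp n Δ₁ ∪ supp n Δ₂ ∪ supp n a`, `Δ₁ = insert ⟨a, true⟩ Γ`,
`Δ₂ = insert ⟨a, false⟩ Γ`. If `C.val M a e` holds take the witness `(x, f)` of `Δ₂` over `A'`: if
`x = ⟨a, false⟩` then `¬ C.val M a f`, but `f = e` on `supp n a ⊆ A'` (`val_congr`), a contradiction;
so `x ∈ Γ`. Otherwise use `Δ₁`.
-/

set_option autoImplicit false

namespace Pool.H93.SY

open scoped Pointwise
open FirstOrder.Language

variable {L : FirstOrder.Language.{0, 0}} {m s n k : ℕ} {C : Circuit L m s n}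
  {M : Type} [L.Structure (Fin s ⊕ M)]

theorem val_eq_of_gate_eq (h : Std C M k) {a b : C.N} (hab : C.gate a = C.gate b)
    {A' : Finset (Fin n)} (ha : supp n a ⊆ A') (hb : supp n b ⊆ A') (hA' : A'.card ≤ 6 * k)
    {e : Fin n → M} (he : Set.InjOn e A') : C.val M a e ↔ C.val M b e := by
  have hroom := h.room
  have hnode : ∀ a : C.N, (supp n a).card ≤ k := fun a => (h.node a).le
  have hnode3 : ∀ a : C.N, (supp n a).card + 3 ≤ n := by
    intro a
    have h1 := hnode a
    omega
  cases hg : C.gate b with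
  | var v =>
    rw [hg] at hab
    rw [val_var C M hab, val_var C M hg]
  | and S =>
    rw [hg] at hab
    rw [val_and_iff hnode hab ha (by omega) he, val_and_iff hnode hg hb (by omega) he]
  | mod c S =>
    rw [hg] at hab
    rcases h.cond with hm | ⟨hfin, hM, -⟩
    · subst hm
      rw [val_mod C M hab, val_mod C M hg]
      constructor
      · intro _ W f _ _ _
        exact Subsingleton.elim _ _
      · intro _ W f _ _ _
        exact Subsingleton.elim _ _
    · obtain ⟨W, f, hW, -, hf, hbij⟩ := exists_bij A' e he (by omega)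
      have h1 : C.val M a e ↔ C.val M a f :=
        val_congr (hnode3 a) fun i hi => (hf i (ha hi)).symm
      have h2 : C.val M b e ↔ C.val M b f :=
        val_congr (hnode3 b) fun i hi => (hf i (hb hi)).symm
      rw [h1, h2, val_mod_iff hnode3 hM hab (ha.trans hW) hbij,
        val_mod_iff hnode3 hM hg (hb.trans hW) hbij]

theorem sound_ident (h : Std C M k) {Γ : Set (Lit C.N)} (hΓ : (supp n Γ).card < k) {a b : C.N}
    (hab : C.gate a = C.gate b) (ha : ⟨a, true⟩ ∈ Γ) (hb : ⟨b, false⟩ ∈ Γ) : Valid C M Γ := by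
  have h1 := h.node a
  have h2 := h.node b
  have h3 := Finset.card_union_le (supp n Γ ∪ supp n a) (supp n b)
  have h4 := Finset.card_union_le (supp n Γ) (supp n a)
  have ha' : supp n a ⊆ supp n Γ ∪ supp n a ∪ supp n b :=
    Finset.subset_union_right.trans Finset.subset_union_left
  have hb' : supp n b ⊆ supp n Γ ∪ supp n a ∪ supp n b := Finset.subset_union_right
  refine valid_of (A' := supp n Γ ∪ supp n a ∪ supp n b)
    (Finset.subset_union_left.trans Finset.subset_union_left) (h.big.mono (by omega)) ?_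
  intro e he
  have h5 := val_eq_of_gate_eq h hab ha' hb' (by omega) he
  by_cases hv : C.val M a e
  · refine ⟨⟨a, true⟩, ha, e, fun i _ => rfl, he.mono ?_, tr_true.2 hv⟩
    rw [Finset.coe_subset]
    exact Finset.union_subset subset_rfl ha'
  · refine ⟨⟨b, false⟩, hb, e, fun i _ => rfl, he.mono ?_, tr_false.2 fun hb => hv (h5.2 hb)⟩
    rw [Finset.coe_subset]
    exact Finset.union_subset subset_rfl hb'

theorem sound_weak (h : Std C M k) {Γ Δ : Set (Lit C.N)} (hΓ : (supp n Γ).card < k)
    (hΔ : (supp n Δ).card < k) (hv : Valid C M Δ) (hs : Δ ⊆ Γ) : Valid C M Γ := by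
  have hroom := h.room
  have h3 := Finset.card_union_le (supp n Γ) (supp n Δ)
  refine valid_of (A' := supp n Γ ∪ supp n Δ) Finset.subset_union_left
    (h.big.mono (by omega)) ?_
  intro e he
  have h4 := hv.at (k := k) (fun a => (h.node a).le) (A' := supp n Γ ∪ supp n Δ)
    Finset.subset_union_right (by omega) he
  exact h4.mono hs subset_rfl fun i _ => rfl

theorem sound_cut (h : Std C M k) {Γ : Set (Lit C.N)} (hΓ : (supp n Γ).card < k) {a : C.N}
    (h1 : (supp n (insert ⟨a, true⟩ Γ : Set (Lit C.N))).card < k)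
    (h2 : (supp n (insert ⟨a, false⟩ Γ : Set (Lit C.N))).card < k)
    (v1 : Valid C M (insert ⟨a, true⟩ Γ)) (v2 : Valid C M (insert ⟨a, false⟩ Γ)) :
    Valid C M Γ := by
  have hroom := h.room
  have hna := h.node a
  have hnode : ∀ a : C.N, (supp n a).card ≤ k := fun a => (h.node a).le
  obtain ⟨A', hA'⟩ : ∃ A', A' = supp n Γ ∪ supp n (insert ⟨a, true⟩ Γ : Set (Lit C.N)) ∪
      supp n (insert ⟨a, false⟩ Γ : Set (Lit C.N)) ∪ supp n a := ⟨_, rfl⟩
  have hc : A'.card ≤ 4 * k := by
    rw [hA']
    have h3 := Finset.card_union_le (supp n Γ ∪ supp n (insert ⟨a, true⟩ Γ : Set (Lit C.N)) ∪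
      supp n (insert ⟨a, false⟩ Γ : Set (Lit C.N))) (supp n a)
    have h4 := Finset.card_union_le (supp n Γ ∪ supp n (insert ⟨a, true⟩ Γ : Set (Lit C.N)))
      (supp n (insert ⟨a, false⟩ Γ : Set (Lit C.N)))
    have h5 := Finset.card_union_le (supp n Γ) (supp n (insert ⟨a, true⟩ Γ : Set (Lit C.N)))
    omega
  have hs0 : supp n Γ ⊆ A' := by
    rw [hA']
    exact Finset.subset_union_left.trans (Finset.subset_union_left.trans
      Finset.subset_union_left)
  have hs1 : supp n (insert ⟨a, true⟩ Γ : Set (Lit C.N)) ⊆ A' := by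
    rw [hA']
    exact Finset.subset_union_right.trans (Finset.subset_union_left.trans
      Finset.subset_union_left)
  have hs2 : supp n (insert ⟨a, false⟩ Γ : Set (Lit C.N)) ⊆ A' := by
    rw [hA']
    exact Finset.subset_union_right.trans Finset.subset_union_left
  have hsa : supp n a ⊆ A' := by
    rw [hA']
    exact Finset.subset_union_right
  refine valid_of (A' := A') hs0 (h.big.mono (by omega)) ?_
  intro e he
  by_cases hv : C.val M a e
  · obtain ⟨x, hx, f, h3, h4, h5⟩ := v2.at hnode hs2 (by omega) he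
    rcases Set.mem_insert_iff.1 hx with rfl | hx
    · exfalso
      refine (tr_false.1 h5) ((val_congr (by omega) ?_).1 hv)
      intro i hi
      exact (h3 i (hsa hi)).symm
    · exact ⟨x, hx, f, h3, h4, h5⟩
  · obtain ⟨x, hx, f, h3, h4, h5⟩ := v1.at hnode hs1 (by omega) he
    rcases Set.mem_insert_iff.1 hx with rfl | hx
    · exfalso
      refine hv ((val_congr (by omega) ?_).1 (tr_true.1 h5))
      intro i hi
      exact h3 i (hsa hi)
    · exact ⟨x, hx, f, h3, h4, h5⟩

end Pool.H93.SY
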