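import Pool.Agent.H93.SY.Defs
import Pool.Agent.H66.SF.Eval
import Pool.Agent.H31.SF.Support

/-!
# Canonical supports
-/

set_option autoImplicit false

namespace Pool.H93.SY

open scoped Pointwise

/-- The canonical support of an element of a set on which the permutations of `Fin n` act. -/
noncomputable def supp (n : ℕ) {X : Type} [MulAction (Equiv.Perm (Fin n)) X] (x : X) :
    Finset (Fin n) :=
  Pool.Agent.H66.SF.supp (MulAction.stabilizer (Equiv.Perm (Fin n)) x) Finset.univ

section

variable {n : ℕ} {X : Type} [MulAction (Equiv.Perm (Fin n)) X]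

theorem supp_fix (hn : 2 ≤ n) (x : X) (σ : Equiv.Perm (Fin n)) (hs : Equiv.Perm.sign σ = 1)
    (h : ∀ i ∈ supp n x, σ i = i) : σ • x = x := by
  have h1 : σ ∈ MulAction.stabilizer (Equiv.Perm (Fin n)) x := by
    refine Pool.Agent.H66.SF.even_mem (Q := Finset.univ) (by simpa using hn) hs ?_
    rw [Finset.disjoint_left]
    intro i hi hi'
    exact (Equiv.Perm.mem_support.1 hi) (h i hi')
  exact MulAction.mem_stabilizer_iff.1 h1

theorem supp_smul (σ : Equiv.Perm (Fin n)) (x : X) : supp n (σ • x) = (supp n x).image σ := by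
  unfold supp
  refine Pool.Agent.H66.SF.supp_conj (Finset.subset_univ _) ?_ ?_
  · intro g hg
    rw [MulAction.mem_stabilizer_iff] at hg ⊢
    rw [smul_smul, inv_mul_cancel_right, mul_smul, hg]
  · intro g hg
    rw [MulAction.mem_stabilizer_iff] at hg ⊢
    rw [mul_smul, mul_smul, hg, inv_smul_smul]

theorem supp_min (x : X) (B : Finset (Fin n)) (hB : 2 * B.card + 3 ≤ n)
    (h : ∀ σ : Equiv.Perm (Fin n), Equiv.Perm.sign σ = 1 → (∀ i ∈ B, σ i = i) → σ • x = x) :
    supp n x ⊆ B := by
  intro a ha
  by_contra haB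
  refine (Pool.Agent.H66.SF.mem_supp.1 ha) ?_
  have h1 : Bᶜ ⊆ Pool.Agent.H66.SF.cls (MulAction.stabilizer (Equiv.Perm (Fin n)) x)
      Finset.univ a := by
    intro b hb
    rw [Finset.mem_compl] at hb
    rw [Pool.Agent.H66.SF.mem_cls]
    by_cases hab : a = b
    · exact Or.inl hab
    · obtain ⟨c, hc⟩ : ((B ∪ {a, b})ᶜ : Finset (Fin n)).Nonempty := by
        rw [← Finset.card_pos, Finset.card_compl, Fintype.card_fin]
        have h2 := Finset.card_union_le B {a, b}
        have h3 := Finset.card_le_two (a := a) (b := b)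
        omega
      rw [Finset.mem_compl, Finset.mem_union, Finset.mem_insert, Finset.mem_singleton, not_or,
        not_or] at hc
      obtain ⟨hcB, hca, hcb⟩ := hc
      have h3 := Equiv.Perm.isThreeCycle_swap_mul_swap_same hab (Ne.symm hca) (Ne.symm hcb)
      refine Or.inr ⟨Equiv.swap a b * Equiv.swap a c, ?_, h3, Finset.subset_univ _, ?_, ?_⟩
      · rw [MulAction.mem_stabilizer_iff]
        refine h _ h3.sign ?_
        intro i hi
        have hia : i ≠ a := fun e => haB (e ▸ hi)
        have hib : i ≠ b := fun e => hb (e ▸ hi)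
        have hic : i ≠ c := fun e => hcB (e ▸ hi)
        rw [Equiv.Perm.mul_apply, Equiv.swap_apply_of_ne_of_ne hia hic,
          Equiv.swap_apply_of_ne_of_ne hia hib]
      · rw [Equiv.Perm.mem_support, Equiv.Perm.mul_apply, Equiv.swap_apply_left,
          Equiv.swap_apply_of_ne_of_ne hca hcb]
        exact hca
      · rw [Equiv.Perm.mem_support, Equiv.Perm.mul_apply,
          Equiv.swap_apply_of_ne_of_ne (Ne.symm hab) (Ne.symm hcb), Equiv.swap_apply_right]
        exact hab
  have h2 := Finset.card_le_card h1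
  rw [Finset.card_compl, Fintype.card_fin] at h2
  rw [Finset.card_univ, Fintype.card_fin]
  omega

theorem supp_card_lt (x : X) (k : ℕ) (hk : 8 * k ≤ n)
    (h1 : (MulAction.orbit (Equiv.Perm (Fin n)) x).ncard < n.choose k)
    (h2 : (MulAction.orbit (Equiv.Perm (Fin n)) x).ncard < 2 ^ (n / 8)) :
    (supp n x).card < k := by
  rw [← MulAction.index_stabilizer] at h1 h2
  obtain ⟨B, hB, hB2⟩ := Pool.H31.SF.support (MulAction.stabilizer (Equiv.Perm (Fin n)) x) k
    (by simpa using hk) (by simpa using h1) (by simpa using h2)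
  have h3 : supp n x ⊆ B := by
    refine supp_min x B (by omega) ?_
    intro σ hs hσ
    exact MulAction.mem_stabilizer_iff.1 (hB2 σ (Equiv.Perm.mem_alternatingGroup.2 hs) hσ)
  exact lt_of_le_of_lt (Finset.card_le_card h3) hB

end

end Pool.H93.SY
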