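import Pool.Agent.H93.SY.Congr
import Pool.Agent.H93.SY.Equi

/-!
# Moving a witness

MODULE TF.

`transfer`. Proof. Let `x ∈ S`, `f` be given, `B = supp n x.node`, `f = e` on `A`, `f` injective on
`A ∪ B`, `Q x f`. Define `τ : Fin n → Fin n` on `A ∪ B`:
  `τ i = i` for `i ∈ A`;
  for `i ∈ B \ A` with `f i = e j` for some `j ∈ A'`: `τ i = j` (this `j` is not in `A`, otherwise
    `f i = e j = f j` with `i ≠ j` both in `A ∪ B`);
  for the other `i ∈ B \ A` (set `B₁`): `τ i = g i`, where `g` is injective on `B₁` with values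
    outside `A'` (exists since `B₁.card ≤ k ≤ (univ \ A').card`; for example
    `Finset.exists_subset_card_eq` and an `Equiv` of two finsets of the same size).
`τ` is injective on `D = A ∪ B` (`e` is injective on `A'`, so the `j` are determined by `f i`, and
`f` is injective on `A ∪ B`), and `D.card + 2 ≤ A'.card + k + 2 ≤ n`. By `exists_even_perm` there is
an even `σ` with `σ = τ` on `D`. It fixes the points of `A`, so `σ • S = S` (`hS`) and
`σ • x ∈ S` (`Set.smul_mem_smul_set`). Let `f' i = e i` for `i ∈ A'` and `f' i = f (σ⁻¹ i)`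
otherwise. Then
  - `f' (σ i) = f i` for `i ∈ B`: if `i ∈ A` then `σ i = i ∈ A'` and `f' i = e i = f i`; if
    `τ i = j ∈ A'` with `e j = f i`: `f' j = e j = f i`; if `i ∈ B₁`: `σ i ∉ A'` and
    `f' (σ i) = f (σ⁻¹ (σ i)) = f i`.
  - `f'` is injective on `A' ∪ supp n (σ • x).node = A' ∪ B.image σ` (`smul_node`, `supp_smul`):
    the points outside `A'` are `σ i`, `i ∈ B₁`, with `f' (σ i) = f i ∉ e '' A'`, and
    `f i = f i'` implies `i = i'`.
  - `Q (σ • x) f'`: by `hQσ`, `Q (σ • x) (fun i => f (σ⁻¹ i))`, and `f'` agrees with `f ∘ σ⁻¹` on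
    `supp n (σ • x).node = B.image σ` (`hQ`).

`Wit.up`: `transfer` with `Q x f = C.tr M x f` (`tr_congr`, `tr_smul`).

`val_and_iff`. Proof. (→) `val_and`; the condition over `A'` implies the condition over `supp n a`
(`Set.InjOn.mono`). (←) Suppose `val` fails; by `val_and` there are `x ∈ S`, `f = e` on `supp n a`,
injective on `supp n a ∪ supp n x.node`, `¬ C.tr M x f`. Apply `transfer` with `A = supp n a`
(`fixes_and`) and `Q x f = ¬ C.tr M x f`.

`Valid.at`: `e` is injective on `supp n Γ`, so `Wit C M Γ (supp n Γ) e`; use `Wit.up` with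
`fixes_supp`.

`valid_of`. Proof. Given `e` injective on `supp n Γ`, extend it to `e'` injective on `A'`
(`exists_extend`, `hbig`), apply `h e'` and `Wit.mono`.
-/

set_option autoImplicit false

namespace Pool.H93.SY

open scoped Pointwise

variable {L : FirstOrder.Language.{0, 0}} {m s n : ℕ} {C : Circuit L m s n} {M : Type} [L.Structure (Fin s ⊕ M)]

omit [L.Structure (Fin s ⊕ M)] in
theorem transfer_even {k : ℕ} (hnode : ∀ a : C.N, (supp n a).card ≤ k) {S : Set (Lit C.N)}
    {A A' : Finset (Fin n)} (hS : Fixes A S) (hA : A ⊆ A') (hA' : A'.card + k + 2 ≤ n)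
    {e : Fin n → M} (he : Set.InjOn e A') {Q : Lit C.N → (Fin n → M) → Prop}
    (hQ : ∀ x f f', (∀ i ∈ supp n x.node, f i = f' i) → Q x f → Q x f')
    (hQσ : ∀ (σ : Equiv.Perm (Fin n)) x f, Equiv.Perm.sign σ = 1 → Q x f →
      Q (σ • x) (fun i => f (σ⁻¹ i)))
    (h : ∃ x ∈ S, ∃ f : Fin n → M, (∀ i ∈ A, f i = e i) ∧
      Set.InjOn f (A ∪ supp n x.node : Finset (Fin n)) ∧ Q x f) :
    ∃ x ∈ S, ∃ f : Fin n → M, (∀ i ∈ A', f i = e i) ∧
      Set.InjOn f (A' ∪ supp n x.node : Finset (Fin n)) ∧ Q x f := by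
  classical
  obtain ⟨x, hx, f, hfe, hfi, hQx⟩ := h
  have hBk : (supp n x.node).card ≤ k := hnode x.node
  have hfi' : ∀ i ∈ A ∪ supp n x.node, ∀ j ∈ A ∪ supp n x.node, f i = f j → i = j := by
    intro i hi j hj hij
    exact hfi (Finset.mem_coe.2 hi) (Finset.mem_coe.2 hj) hij
  have he' : ∀ i ∈ A', ∀ j ∈ A', e i = e j → i = j := by
    intro i hi j hj hij
    exact he (Finset.mem_coe.2 hi) (Finset.mem_coe.2 hj) hij
  -- an injection of the support into the points outside `A'`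
  obtain ⟨g, hg⟩ : ∃ g : Fin n → {j : Fin n // j ∉ A'}, Set.InjOn g (supp n x.node) := by
    have hcard : Nat.card {j : Fin n // j ∉ A'} = n - A'.card := by
      rw [Nat.card_eq_fintype_card, Fintype.card_subtype_compl, Fintype.card_fin,
        Fintype.card_coe]
    have hpos : 0 < Nat.card {j : Fin n // j ∉ A'} := by omega
    obtain ⟨y⟩ := (Nat.card_pos_iff.1 hpos).1
    obtain ⟨g, -, hg⟩ := exists_extend (M := {j : Fin n // j ∉ A'}) ∅ (supp n x.node)
      (Finset.empty_subset _) (fun _ => y) (by intro a ha; simp at ha)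
      (Or.inr (by rw [hcard]; omega))
    exact ⟨g, hg⟩
  let τ : Fin n → Fin n := fun i =>
    if i ∈ A then i else if hj : ∃ j ∈ A', e j = f i then hj.choose else (g i).1
  have P1 : ∀ i, (∃ j ∈ A', e j = f i) → τ i ∈ A' ∧ e (τ i) = f i := by
    intro i hj
    by_cases hi : i ∈ A
    · have h1 : τ i = i := if_pos hi
      rw [h1]
      exact ⟨hA hi, (hfe i hi).symm⟩
    · have h1 : τ i = hj.choose := by
        show (if i ∈ A then i else if hj : ∃ j ∈ A', e j = f i then hj.choose else (g i).1) = _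
        rw [if_neg hi, dif_pos hj]
      rw [h1]
      exact hj.choose_spec
  have P2 : ∀ i, (¬ ∃ j ∈ A', e j = f i) → i ∉ A ∧ τ i = (g i).1 := by
    intro i hj
    have hi : i ∉ A := fun hi => hj ⟨i, hA hi, (hfe i hi).symm⟩
    refine ⟨hi, ?_⟩
    show (if i ∈ A then i else if hj : ∃ j ∈ A', e j = f i then hj.choose else (g i).1) = _
    rw [if_neg hi, dif_neg hj]
  have hτ : Set.InjOn τ (A ∪ supp n x.node : Finset (Fin n)) := by
    intro i hi i' hi' hii
    have hi1 : i ∈ A ∪ supp n x.node := Finset.mem_coe.1 hi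
    have hi2 : i' ∈ A ∪ supp n x.node := Finset.mem_coe.1 hi'
    by_cases h1 : ∃ j ∈ A', e j = f i <;> by_cases h2 : ∃ j ∈ A', e j = f i'
    · refine hfi' i hi1 i' hi2 ?_
      rw [← (P1 i h1).2, ← (P1 i' h2).2, hii]
    · have h3 := (P1 i h1).1
      rw [hii, (P2 i' h2).2] at h3
      exact absurd h3 (g i').2
    · have h3 := (P1 i' h2).1
      rw [← hii, (P2 i h1).2] at h3
      exact absurd h3 (g i).2
    · rw [(P2 i h1).2, (P2 i' h2).2] at hii
      have h3 : i ∈ supp n x.node := (Finset.mem_union.1 hi1).resolve_left (P2 i h1).1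
      have h4 : i' ∈ supp n x.node := (Finset.mem_union.1 hi2).resolve_left (P2 i' h2).1
      exact hg (Finset.mem_coe.2 h3) (Finset.mem_coe.2 h4) (Subtype.ext hii)
  obtain ⟨σ, hσ1, hσ2⟩ := exists_even_perm (A ∪ supp n x.node) τ hτ (by
    have h1 := Finset.card_union_le A (supp n x.node)
    have h2 := Finset.card_le_card hA
    omega)
  have hσA : ∀ i ∈ A, σ i = i := by
    intro i hi
    rw [hσ2 i (Finset.mem_union_left _ hi)]
    exact if_pos hi
  have hS' : σ • S = S := hS σ hσ1 hσA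
  let f' : Fin n → M := fun i => if i ∈ A' then e i else f (σ⁻¹ i)
  have hf'A : ∀ i ∈ A', f' i = e i := fun i hi => if_pos hi
  have hf'σ : ∀ i ∈ A ∪ supp n x.node, f' (σ i) = f i := by
    intro i hi
    by_cases h1 : ∃ j ∈ A', e j = f i
    · have h2 := P1 i h1
      rw [← hσ2 i hi] at h2
      rw [hf'A _ h2.1, h2.2]
    · have h2 := (P2 i h1).2
      rw [← hσ2 i hi] at h2
      have h3 : σ i ∉ A' := by
        rw [h2]
        exact (g i).2
      show (if σ i ∈ A' then e (σ i) else f (σ⁻¹ (σ i))) = f i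
      rw [if_neg h3]
      have h4 : σ⁻¹ (σ i) = i := σ.symm_apply_apply i
      rw [h4]
  have hsupp : supp n (σ • x).node = (supp n x.node).image σ := by
    rw [smul_node, supp_smul]
  refine ⟨σ • x, ?_, f', hf'A, ?_, ?_⟩
  · rw [← hS']
    exact Set.smul_mem_smul_set hx
  · have hout : ∀ p ∈ A' ∪ supp n (σ • x).node, p ∉ A' →
        ∃ i ∈ supp n x.node, σ i = p ∧ (¬ ∃ j ∈ A', e j = f i) ∧ f' p = f i := by
      intro p hp hpA
      have h1 := (Finset.mem_union.1 hp).resolve_left hpA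
      rw [hsupp] at h1
      obtain ⟨i, hi, rfl⟩ := Finset.mem_image.1 h1
      have hi' : i ∈ A ∪ supp n x.node := Finset.mem_union_right _ hi
      refine ⟨i, hi, rfl, ?_, hf'σ i hi'⟩
      intro hj
      have h2 := (P1 i hj).1
      rw [← hσ2 i hi'] at h2
      exact hpA h2
    intro p hp q hq hpq
    have hp' : p ∈ A' ∪ supp n (σ • x).node := Finset.mem_coe.1 hp
    have hq' : q ∈ A' ∪ supp n (σ • x).node := Finset.mem_coe.1 hq
    by_cases h1 : p ∈ A' <;> by_cases h2 : q ∈ A'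
    · rw [hf'A p h1, hf'A q h2] at hpq
      exact he' p h1 q h2 hpq
    · obtain ⟨i, -, -, h3, h4⟩ := hout q hq' h2
      rw [hf'A p h1, h4] at hpq
      exact absurd ⟨p, h1, hpq⟩ h3
    · obtain ⟨i, -, -, h3, h4⟩ := hout p hp' h1
      rw [hf'A q h2, h4] at hpq
      exact absurd ⟨q, h2, hpq.symm⟩ h3
    · obtain ⟨i, hi, h3, -, h4⟩ := hout p hp' h1
      obtain ⟨j, hj, h5, -, h6⟩ := hout q hq' h2
      rw [h4, h6] at hpq
      rw [← h3, ← h5, hfi' i (Finset.mem_union_right _ hi) j (Finset.mem_union_right _ hj) hpq]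
  · refine hQ (σ • x) (fun i => f (σ⁻¹ i)) f' ?_ (hQσ σ x f hσ1 hQx)
    intro i hi
    rw [hsupp] at hi
    obtain ⟨j, hj, rfl⟩ := Finset.mem_image.1 hi
    show f (σ⁻¹ (σ j)) = f' (σ j)
    have h4 : σ⁻¹ (σ j) = j := σ.symm_apply_apply j
    rw [h4, hf'σ j (Finset.mem_union_right _ hj)]

omit [L.Structure (Fin s ⊕ M)] in
theorem transfer {k : ℕ} (hnode : ∀ a : C.N, (supp n a).card ≤ k) {S : Set (Lit C.N)}
    {A A' : Finset (Fin n)} (hS : Fixes A S) (hA : A ⊆ A') (hA' : A'.card + k + 2 ≤ n)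
    {e : Fin n → M} (he : Set.InjOn e A') {Q : Lit C.N → (Fin n → M) → Prop}
    (hQ : ∀ x f f', (∀ i ∈ supp n x.node, f i = f' i) → Q x f → Q x f')
    (hQσ : ∀ (σ : Equiv.Perm (Fin n)) x f, Q x f → Q (σ • x) (fun i => f (σ⁻¹ i)))
    (h : ∃ x ∈ S, ∃ f : Fin n → M, (∀ i ∈ A, f i = e i) ∧
      Set.InjOn f (A ∪ supp n x.node : Finset (Fin n)) ∧ Q x f) :
    ∃ x ∈ S, ∃ f : Fin n → M, (∀ i ∈ A', f i = e i) ∧
      Set.InjOn f (A' ∪ supp n x.node : Finset (Fin n)) ∧ Q x f :=
  transfer_even hnode hS hA hA' he hQ (fun σ x f _ hx => hQσ σ x f hx) h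

theorem Wit.up {k : ℕ} (hnode : ∀ a : C.N, (supp n a).card ≤ k) {S : Set (Lit C.N)}
    {A A' : Finset (Fin n)} (hS : Fixes A S) (hA : A ⊆ A') (hA' : A'.card + k + 3 ≤ n)
    {e : Fin n → M} (he : Set.InjOn e A') (h : Wit C M S A e) : Wit C M S A' e := by
  refine transfer (Q := fun x f => C.tr M x f) hnode hS hA (by omega) he ?_ ?_ h
  · intro x f f' hff hx
    have h1 := hnode x.node
    exact (tr_congr (by omega) hff).1 hx
  · intro σ x f hx
    exact (tr_smul σ x f).2 hx

theorem val_and_iff {k : ℕ} (hnode : ∀ a : C.N, (supp n a).card ≤ k) {a : C.N}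
    {S : Set (Lit C.N)} (h : C.gate a = .and S) {A' : Finset (Fin n)} (hA : supp n a ⊆ A')
    (hA' : A'.card + k + 3 ≤ n) {e : Fin n → M} (he : Set.InjOn e A') :
    C.val M a e ↔ ∀ x ∈ S, ∀ f : Fin n → M, (∀ i ∈ A', f i = e i) →
      Set.InjOn f (A' ∪ supp n x.node : Finset (Fin n)) → C.tr M x f := by
  rw [val_and C M h]
  constructor
  · intro h1 x hx f hf hfi
    refine h1 x hx f (fun i hi => hf i (hA hi)) (hfi.mono ?_)
    rw [Finset.coe_subset]
    exact Finset.union_subset_union_left hA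
  · intro h1 x hx f hf hfi
    by_contra hcon
    obtain ⟨x', hx', f', h2, h3, h4⟩ := transfer (Q := fun x f => ¬ C.tr M x f) hnode
      (fixes_and (by omega) h) hA (by omega) he (by
        intro x f f' hff hx hx'
        have h5 := hnode x.node
        exact hx ((tr_congr (by omega) hff).2 hx')) (by
        intro σ x f hx hx'
        exact hx ((tr_smul σ x f).1 hx')) ⟨x, hx, f, hf, hfi, hcon⟩
    exact h4 (h1 x' hx' f' h2 h3)

theorem Valid.at {k : ℕ} (hnode : ∀ a : C.N, (supp n a).card ≤ k) {Γ : Set (Lit C.N)}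
    (h : Valid C M Γ) {A' : Finset (Fin n)} (hA : supp n Γ ⊆ A')
    (hA' : A'.card + k + 3 ≤ n) {e : Fin n → M} (he : Set.InjOn e A') : Wit C M Γ A' e := by
  refine Wit.up hnode (fixes_supp (by omega) Γ) hA hA' he (h e (he.mono ?_))
  rw [Finset.coe_subset]
  exact hA

theorem valid_of {Γ : Set (Lit C.N)} {A' : Finset (Fin n)} (hA : supp n Γ ⊆ A')
    (hbig : Big M A'.card) (h : ∀ e : Fin n → M, Set.InjOn e A' → Wit C M Γ A' e) :
    Valid C M Γ := by
  intro e he
  obtain ⟨e', h1, h2⟩ := exists_extend (supp n Γ) A' hA e he hbig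
  exact (h e' h2).mono subset_rfl hA h1

end Pool.H93.SY
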