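import Pool.Agent.H93.SY.Supp

/-!
# The value of a node under a partial assignment of elements of a model to points
-/

set_option autoImplicit false

namespace Pool.H93.SY

open scoped Pointwise
open FirstOrder.Language (Structure)

variable {L : FirstOrder.Language.{0, 0}} {m s n : ℕ}

/-- The value of the node `a` of the circuit in the world given by a structure on `Fin s ⊕ M` and
a map `e` from `Fin n` to `M` (the `s` fixed points are elements of the structure; `e` is used only
where it is injective, and it matters only on the support of `a`). A conjunction is true if all its members are true under all extensions of `e`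
from the support of the gate to the support of the member. For a counting gate one looks at the
extensions of `e` to bijections from sets `W` of points to `M` and counts the true members with
support inside `W`. -/
def Circuit.val (C : Circuit L m s n) (M : Type) [L.Structure (Fin s ⊕ M)] (a : C.N) (e : Fin n → M) : Prop :=
  (∀ v, C.gate a = .var v → Structure.RelMap v.2.1 (fun i => Sum.map id e (v.2.2 i))) ∧
  (∀ S, ∀ _h : C.gate a = .and S, ∀ x, ∀ _hx : x ∈ S, ∀ f : Fin n → M,
    (∀ i ∈ supp n a, f i = e i) → Set.InjOn f (supp n a ∪ supp n x.node : Finset (Fin n)) →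
    (C.val M x.node f ↔ x.pos = true)) ∧
  (∀ c S, ∀ _h : C.gate a = .mod c S, ∀ (W : Finset (Fin n)) (f : Fin n → M), supp n a ⊆ W →
    (∀ i ∈ supp n a, f i = e i) → Set.BijOn f W Set.univ →
    (({x | ∃ _hx : x ∈ S, supp n x.node ⊆ W ∧ (C.val M x.node f ↔ x.pos = true)}.ncard : ℕ) :
      ZMod m) = c)
termination_by C.rank a
decreasing_by
  · exact C.rank_lt a x (by rw [_h]; exact _hx)
  · exact C.rank_lt a x (by rw [_h]; exact _hx)

/-- A signed node is true. -/
def Circuit.tr (C : Circuit L m s n) (M : Type) [L.Structure (Fin s ⊕ M)] (x : Lit C.N) (e : Fin n → M) :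
    Prop := C.val M x.node e ↔ x.pos = true

/-- The number of true members of `S` with support inside `W`. -/
noncomputable def Circuit.cnt (C : Circuit L m s n) (M : Type) [L.Structure (Fin s ⊕ M)]
    (S : Set (Lit C.N)) (W : Finset (Fin n)) (e : Fin n → M) : ℕ :=
  {x | x ∈ S ∧ supp n x.node ⊆ W ∧ C.tr M x e}.ncard

variable (C : Circuit L m s n) (M : Type) [L.Structure (Fin s ⊕ M)]

theorem val_var {a : C.N} {v : Atom L (Fin s ⊕ Fin n)} (h : C.gate a = .var v) (e : Fin n → M) :
    C.val M a e ↔ Structure.RelMap v.2.1 (fun i => Sum.map id e (v.2.2 i)) := by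
  rw [Circuit.val]
  constructor
  · intro h1
    exact h1.1 v h
  · intro h1
    refine ⟨?_, ?_, ?_⟩
    · intro w hw
      rw [h] at hw
      cases hw
      exact h1
    · intro S hS
      rw [h] at hS
      cases hS
    · intro c S hS
      rw [h] at hS
      cases hS

theorem val_and {a : C.N} {S : Set (Lit C.N)} (h : C.gate a = .and S) (e : Fin n → M) :
    C.val M a e ↔ ∀ x ∈ S, ∀ f : Fin n → M, (∀ i ∈ supp n a, f i = e i) →
      Set.InjOn f (supp n a ∪ supp n x.node : Finset (Fin n)) → C.tr M x f := by
  rw [Circuit.val]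
  constructor
  · intro h1 x hx f hf hi
    exact h1.2.1 S h x hx f hf hi
  · intro h1
    refine ⟨?_, ?_, ?_⟩
    · intro w hw
      rw [h] at hw
      cases hw
    · intro T hT x hx f hf hi
      rw [h] at hT
      cases hT
      exact h1 x hx f hf hi
    · intro c S hS
      rw [h] at hS
      cases hS

theorem val_mod {a : C.N} {c : ZMod m} {S : Set (Lit C.N)} (h : C.gate a = .mod c S)
    (e : Fin n → M) :
    C.val M a e ↔ ∀ (W : Finset (Fin n)) (f : Fin n → M), supp n a ⊆ W →
      (∀ i ∈ supp n a, f i = e i) → Set.BijOn f W Set.univ →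
      ((C.cnt M S W f : ℕ) : ZMod m) = c := by
  have hset : ∀ (T : Set (Lit C.N)) (W : Finset (Fin n)) (f : Fin n → M),
      {x | ∃ _hx : x ∈ T, supp n x.node ⊆ W ∧ (C.val M x.node f ↔ x.pos = true)} =
        {x | x ∈ T ∧ supp n x.node ⊆ W ∧ C.tr M x f} := by
    intro T W f
    ext x
    constructor
    · rintro ⟨h1, h2, h3⟩
      exact ⟨h1, h2, h3⟩
    · rintro ⟨h1, h2, h3⟩
      exact ⟨h1, h2, h3⟩
  rw [Circuit.val]
  constructor
  · intro h1 W f hW hf hb
    have h2 := h1.2.2 c S h W f hW hf hb
    rw [hset] at h2
    exact h2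
  · intro h1
    refine ⟨?_, ?_, ?_⟩
    · intro w hw
      rw [h] at hw
      cases hw
    · intro T hT
      rw [h] at hT
      cases hT
    · intro d T hT W f hW hf hb
      rw [h] at hT
      cases hT
      rw [hset]
      exact h1 W f hW hf hb

end Pool.H93.SY
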